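import Mathlib
import Pool.Agent.Lib.H55P.S1
import Pool.Agent.Lib.H16C.Stm

/-! # SSG/Z: systems of locally trivial classes: definitions

A system is a group G acting on an abelian group A, with a directed family U of open subgroups and a family D of decomposition subgroups. Its group Sha is the group
of the locally trivial continuous cocycles modulo coboundaries. For G = Gal(Ω/K), A = E(Ω), D = the decomposition groups of the nontrivial valuation rings of Ω it is the
Tate-Shafarevich group of E over K (up to infinite places). -/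

open WeierstrassCurve

namespace SSG

/-- A system. -/
structure LS (G A : Type) [Group G] [AddCommGroup A] where
  act : G →* AddMonoid.End A
  U : Set (Subgroup G)
  D : Set (Subgroup G)
  ne : U.Nonempty
  inf : ∀ u ∈ U, ∀ u' ∈ U, ∃ u'' ∈ U, u'' ≤ u ∧ u'' ≤ u'

namespace LS

variable {G A : Type} [Group G] [AddCommGroup A] (S : LS G A)

/-- Continuous, locally trivial cocycles. -/
structure IsZ (c : G → A) : Prop where
  mul : ∀ g h, c (g * h) = c g + S.act g (c h)
  cont : ∃ u ∈ S.U, ∀ g ∈ u, c g = 0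
  loc : ∀ d ∈ S.D, ∃ P, ∀ g ∈ d, c g = S.act g P - P

/-- The group of the continuous, locally trivial cocycles. -/
def Z : AddSubgroup (G → A) where
  carrier := {c | S.IsZ c}
  zero_mem' := by
    obtain ⟨u, hu⟩ := S.ne
    refine ⟨fun g h => ?_, ⟨u, hu, fun g _ => rfl⟩, fun d _ => ⟨0, fun g _ => ?_⟩⟩
    · rw [Pi.zero_apply, Pi.zero_apply, Pi.zero_apply, map_zero, add_zero]
    · rw [Pi.zero_apply, map_zero, sub_zero]
  add_mem' := by
    rintro c c' (hc : S.IsZ c) (hc' : S.IsZ c')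
    refine ⟨fun g h => ?_, ?_, fun d hd => ?_⟩
    · rw [Pi.add_apply, Pi.add_apply, Pi.add_apply, hc.mul, hc'.mul, map_add]
      abel
    · obtain ⟨u, hu, h1⟩ := hc.cont
      obtain ⟨u', hu', h1'⟩ := hc'.cont
      obtain ⟨w, hw, h2, h2'⟩ := S.inf u hu u' hu'
      refine ⟨w, hw, fun g hg => ?_⟩
      rw [Pi.add_apply, h1 g (h2 hg), h1' g (h2' hg), add_zero]
    · obtain ⟨P, hP⟩ := hc.loc d hd
      obtain ⟨P', hP'⟩ := hc'.loc d hd
      refine ⟨P + P', fun g hg => ?_⟩
      rw [Pi.add_apply, hP g hg, hP' g hg, map_add]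
      abel
  neg_mem' := by
    rintro c (hc : S.IsZ c)
    refine ⟨fun g h => ?_, ?_, fun d hd => ?_⟩
    · rw [Pi.neg_apply, Pi.neg_apply, Pi.neg_apply, hc.mul, map_neg]
      abel
    · obtain ⟨u, hu, h1⟩ := hc.cont
      exact ⟨u, hu, fun g hg => by rw [Pi.neg_apply, h1 g hg, neg_zero]⟩
    · obtain ⟨P, hP⟩ := hc.loc d hd
      refine ⟨-P, fun g hg => ?_⟩
      rw [Pi.neg_apply, hP g hg, map_neg]
      abel

theorem mem_Z {c : G → A} : c ∈ S.Z ↔ S.IsZ c := Iff.rfl

/-- The group of the coboundaries. -/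
def B : AddSubgroup (G → A) where
  carrier := {c | ∃ P, ∀ g, c g = S.act g P - P}
  zero_mem' := ⟨0, fun g => by rw [Pi.zero_apply, map_zero, sub_zero]⟩
  add_mem' := by
    rintro c c' ⟨P, hP⟩ ⟨P', hP'⟩
    refine ⟨P + P', fun g => ?_⟩
    rw [Pi.add_apply, hP, hP', map_add]
    abel
  neg_mem' := by
    rintro c ⟨P, hP⟩
    refine ⟨-P, fun g => ?_⟩
    rw [Pi.neg_apply, hP, map_neg]
    abel

theorem mem_B {c : G → A} : c ∈ S.B ↔ ∃ P, ∀ g, c g = S.act g P - P := Iff.rfl

/-- The group Sha of a system. -/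
def Sha : Type := S.Z ⧸ (S.B.addSubgroupOf S.Z)

noncomputable instance : AddCommGroup S.Sha := QuotientAddGroup.Quotient.addCommGroup _

/-- The class of a cocycle. -/
def cl : S.Z →+ S.Sha := QuotientAddGroup.mk' _

theorem cl_surj : Function.Surjective S.cl := QuotientAddGroup.mk'_surjective _

theorem cl_zero (c : S.Z) : S.cl c = 0 ↔ ∃ P, ∀ g, c.1 g = S.act g P - P := by
  refine (QuotientAddGroup.eq_zero_iff (N := S.B.addSubgroupOf S.Z) c).trans ?_
  exact AddSubgroup.mem_addSubgroupOf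

/-- The restriction to a subgroup. -/
def res (H : Subgroup G) : LS H A where
  act := S.act.comp H.subtype
  U := {u | ∃ u' ∈ S.U, u = u'.subgroupOf H}
  D := {d | ∃ d' ∈ S.D, d = d'.subgroupOf H}
  ne := by
    obtain ⟨u, hu⟩ := S.ne
    exact ⟨_, u, hu, rfl⟩
  inf := by
    rintro _ ⟨u, hu, rfl⟩ _ ⟨u', hu', rfl⟩
    obtain ⟨w, hw, h, h'⟩ := S.inf u hu u' hu'
    exact ⟨_, ⟨w, hw, rfl⟩, fun x hx => h hx, fun x hx => h' hx⟩

theorem res_act (H : Subgroup G) (h : H) : (S.res H).act h = S.act h := rfl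

end LS

/-- A morphism of systems: a homomorphism e : G' → G and an equivariant homomorphism φ : A → A'. -/
structure Hom {G A G' A' : Type} [Group G] [AddCommGroup A] [Group G'] [AddCommGroup A'] (S : LS G A) (S' : LS G' A')
    (e : G' →* G) (φ : A →+ A') : Prop where
  eqv : ∀ g a, φ (S.act (e g) a) = S'.act g (φ a)
  U : ∀ u ∈ S.U, ∃ u' ∈ S'.U, ∀ g ∈ u', e g ∈ u
  D : ∀ d' ∈ S'.D, ∃ d ∈ S.D, ∀ g ∈ d', e g ∈ d

/-- The elements of order a power of p. -/
def PP (p : ℕ) (X : Type) [AddCommGroup X] : Type := {x : X // ∃ k : ℕ, p ^ k • x = 0}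

section gal

open Classical in
/-- The system of the curve W over k: G = Gal(Ω/k). -/
noncomputable def galS {k : Type} [Field k] (W : WeierstrassCurve k) (Ω : Type) [Field Ω] [Algebra k Ω] :
    LS (Ω ≃ₐ[k] Ω) (H55P.Pt W Ω) where
  act :=
    { toFun := fun s => H55P.ac W s
      map_one' := by
        ext P
        cases P <;> rfl
      map_mul' := fun s t => by
        ext P
        cases P <;> rfl }
  U := {u | ∃ L : IntermediateField k Ω, FiniteDimensional k L ∧ u = L.fixingSubgroup}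
  D := {d | ∃ V : ValuationSubring Ω, V ≠ ⊤ ∧ d = H55P.decS k V}
  ne := ⟨_, ⊥, inferInstance, rfl⟩
  inf := by
    rintro _ ⟨L, hL, rfl⟩ _ ⟨L', hL', rfl⟩
    refine ⟨_, ⟨L ⊔ L', inferInstance, rfl⟩, ?_, ?_⟩
    · rw [IntermediateField.fixingSubgroup_sup]
      exact inf_le_left
    · rw [IntermediateField.fixingSubgroup_sup]
      exact inf_le_right

open Classical in
theorem galS_act {k : Type} [Field k] (W : WeierstrassCurve k) (Ω : Type) [Field Ω] [Algebra k Ω] (s : Ω ≃ₐ[k] Ω) :
    (galS W Ω).act s = H55P.ac W s := rfl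

end gal

end SSG
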