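import Mathlib
import Pool.Agent.Lib.SSG.Z.ZD

/-! # SSG/Z: functoriality of Sha -/

namespace SSG

variable {G A G' A' G'' A'' : Type} [Group G] [AddCommGroup A] [Group G'] [AddCommGroup A'] [Group G''] [AddCommGroup A'']
  {S : LS G A} {S' : LS G' A'} {S'' : LS G'' A''} {e : G' →* G} {φ : A →+ A'} {e' : G'' →* G'} {φ' : A' →+ A''}

theorem Hom.isZ (h : Hom S S' e φ) {c : G → A} (hc : S.IsZ c) : S'.IsZ (fun g => φ (c (e g))) := by
  refine ⟨fun g g' => ?_, ?_, fun d' hd' => ?_⟩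
  · rw [map_mul, hc.mul, map_add, h.eqv]
  · obtain ⟨u, hu, h1⟩ := hc.cont
    obtain ⟨u', hu', h2⟩ := h.U u hu
    exact ⟨u', hu', fun g hg => by rw [h1 _ (h2 g hg), map_zero]⟩
  · obtain ⟨d, hd, h1⟩ := h.D d' hd'
    obtain ⟨P, hP⟩ := hc.loc d hd
    exact ⟨φ P, fun g hg => by rw [hP _ (h1 g hg), map_sub, h.eqv]⟩

/-- The map on cocycles. -/
def Hom.mapZ (h : Hom S S' e φ) : S.Z →+ S'.Z where
  toFun c := ⟨fun g => φ (c.1 (e g)), h.isZ c.2⟩
  map_zero' := by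
    apply Subtype.ext
    funext g
    exact map_zero φ
  map_add' c c' := by
    apply Subtype.ext
    funext g
    exact map_add φ _ _

theorem Hom.mapZ_apply (h : Hom S S' e φ) (c : S.Z) (g : G') : (h.mapZ c).1 g = φ (c.1 (e g)) := rfl

/-- The map on Sha. -/
noncomputable def Hom.map (h : Hom S S' e φ) : S.Sha →+ S'.Sha :=
  QuotientAddGroup.lift (S.B.addSubgroupOf S.Z) (S'.cl.comp h.mapZ) (by
    intro c hc
    rw [AddSubgroup.mem_addSubgroupOf] at hc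
    obtain ⟨P, hP⟩ := hc
    refine (S'.cl_zero _).2 ⟨φ P, fun g => ?_⟩
    rw [h.mapZ_apply, hP, map_sub, h.eqv])

theorem Hom.map_cl (h : Hom S S' e φ) (c : S.Z) : h.map (S.cl c) = S'.cl (h.mapZ c) := rfl

theorem LS.cl_eq (c c' : S.Z) : S.cl c = S.cl c' ↔ ∃ P, ∀ g, c.1 g = c'.1 g + (S.act g P - P) := by
  rw [← sub_eq_zero, ← map_sub, S.cl_zero]
  refine exists_congr fun P => forall_congr' fun g => ?_
  have h1 : (c - c').1 g = c.1 g - c'.1 g := rfl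
  rw [h1, sub_eq_iff_eq_add, add_comm]

theorem Hom.comp (h : Hom S S' e φ) (h' : Hom S' S'' e' φ') : Hom S S'' (e.comp e') (φ'.comp φ) := by
  refine ⟨fun g a => ?_, fun u hu => ?_, fun d hd => ?_⟩
  · show φ' (φ (S.act (e (e' g)) a)) = _
    rw [h.eqv, h'.eqv]
    rfl
  · obtain ⟨u', hu', h1⟩ := h.U u hu
    obtain ⟨u'', hu'', h2⟩ := h'.U u' hu'
    exact ⟨u'', hu'', fun g hg => h1 _ (h2 g hg)⟩
  · obtain ⟨d', hd', h1⟩ := h'.D d hd
    obtain ⟨d'', hd'', h2⟩ := h.D d' hd'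
    exact ⟨d'', hd'', fun g hg => h2 _ (h1 g hg)⟩

theorem Hom.map_map (h : Hom S S' e φ) (h' : Hom S' S'' e' φ') (x : S.Sha) : h'.map (h.map x) = (h.comp h').map x := by
  obtain ⟨c, rfl⟩ := S.cl_surj x
  rfl

/-- A morphism back and forth which is multiplication by m is multiplication by m on Sha. -/
theorem Hom.map_back (h : Hom S S' e φ) {e₁ : G →* G'} {φ₁ : A' →+ A} (h' : Hom S' S e₁ φ₁) (he : ∀ g, e (e₁ g) = g) {m : ℕ}
    (hm : ∀ a, φ₁ (φ a) = m • a) (x : S.Sha) : h'.map (h.map x) = m • x := by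
  obtain ⟨c, rfl⟩ := S.cl_surj x
  rw [← map_nsmul, h.map_cl, h'.map_cl]
  refine (S.cl_eq _ _).2 ⟨0, fun g => ?_⟩
  rw [map_zero, sub_zero, add_zero]
  show φ₁ (φ (c.1 (e (e₁ g)))) = m • c.1 g
  rw [he, hm]

section PP

variable {p : ℕ} {X Y : Type} [AddCommGroup X] [AddCommGroup Y]

theorem pp_ext {x y : PP p X} (h : x.1 = y.1) : x = y := Subtype.ext h

/-- A homomorphism on the p-primary parts. -/
def ppMap (f : X →+ Y) (x : PP p X) : PP p Y := ⟨f x.1, by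
  obtain ⟨k, hk⟩ := x.2
  exact ⟨k, by rw [← map_nsmul, hk, map_zero]⟩⟩

/-- Multiplication by m prime to p is injective on the p-primary part. -/
theorem pp_inj (hp : p.Prime) {m : ℕ} (hm : ¬ p ∣ m) {x : X} (hx : ∃ k : ℕ, p ^ k • x = 0) (h : m • x = 0) : x = 0 := by
  obtain ⟨k, hk⟩ := hx
  have h1 : Nat.Coprime m (p ^ k) := Nat.Coprime.pow_right k ((Nat.Prime.coprime_iff_not_dvd hp).2 hm).symm
  have h2 : addOrderOf x ∣ m := addOrderOf_dvd_of_nsmul_eq_zero h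
  have h3 : addOrderOf x ∣ p ^ k := addOrderOf_dvd_of_nsmul_eq_zero hk
  have h4 : addOrderOf x ∣ 1 := h1 ▸ Nat.dvd_gcd h2 h3
  exact AddMonoid.addOrderOf_eq_one_iff.1 (Nat.dvd_one.1 h4)

/-- Multiplication by m prime to p is surjective on the p-primary part. -/
theorem pp_surj (hp : p.Prime) {m : ℕ} (hm : ¬ p ∣ m) {x : X} (hx : ∃ k : ℕ, p ^ k • x = 0) :
    ∃ n : ℕ, m • (n • x) = x := by
  obtain ⟨k, hk⟩ := hx
  have h1 : Nat.Coprime m (p ^ k) := Nat.Coprime.pow_right k ((Nat.Prime.coprime_iff_not_dvd hp).2 hm).symm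
  rcases Nat.eq_zero_or_pos k with rfl | hk0
  · refine ⟨0, ?_⟩
    rw [pow_zero, one_nsmul] at hk
    rw [hk]
    simp
  · have h2 : 1 < p ^ k := Nat.one_lt_pow hk0.ne' hp.one_lt
    obtain ⟨n, -, hn⟩ := Nat.exists_mul_mod_eq_one_of_coprime h1 h2
    refine ⟨n, ?_⟩
    rw [← mul_smul]
    have h3 : m * n = p ^ k * (m * n / p ^ k) + 1 := by
      have h4 := Nat.div_add_mod (m * n) (p ^ k)
      rw [hn] at h4
      exact h4.symm
    rw [h3, add_smul, one_smul, mul_comm, mul_smul, hk, smul_zero, zero_add]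

/-- Two homomorphisms whose composites are multiplications by a number prime to p. -/
theorem pp_card (hp : p.Prime) {m : ℕ} (hm : ¬ p ∣ m) (f : X →+ Y) (g : Y →+ X) (hgf : ∀ x, g (f x) = m • x)
    (hfg : ∀ y, f (g y) = m • y) : Nat.card (PP p X) = Nat.card (PP p Y) := by
  refine Nat.card_congr (Equiv.ofBijective (ppMap f) ⟨fun x y h => ?_, fun y => ?_⟩)
  · apply pp_ext
    have h1 : f x.1 = f y.1 := congrArg Subtype.val h
    rw [← sub_eq_zero]
    refine pp_inj hp hm ?_ ?_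
    · obtain ⟨k, hk⟩ := x.2
      obtain ⟨l, hl⟩ := y.2
      refine ⟨k + l, ?_⟩
      rw [smul_sub, pow_add, mul_smul, mul_smul, smul_comm (p ^ k) (p ^ l) x.1, hk, hl, smul_zero, smul_zero, sub_zero]
    · rw [← hgf, map_sub, h1, sub_self, map_zero]
  · obtain ⟨n, hn⟩ := pp_surj hp hm y.2
    refine ⟨⟨g (n • y.1), ?_⟩, ?_⟩
    · obtain ⟨k, hk⟩ := y.2
      exact ⟨k, by rw [← map_nsmul, smul_comm, hk, smul_zero, map_zero]⟩
    · apply pp_ext
      show f (g (n • y.1)) = y.1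
      rw [hfg, hn]

end PP

/-- Systems related by morphisms back and forth. -/
theorem Hom.card {p : ℕ} (hp : p.Prime) {m : ℕ} (hm : ¬ p ∣ m) (h : Hom S S' e φ) {e₁ : G →* G'} {φ₁ : A' →+ A}
    (h' : Hom S' S e₁ φ₁) (he : ∀ g, e (e₁ g) = g) (he' : ∀ g, e₁ (e g) = g) (hm1 : ∀ a, φ₁ (φ a) = m • a)
    (hm2 : ∀ a, φ (φ₁ a) = m • a) : Nat.card (PP p S.Sha) = Nat.card (PP p S'.Sha) :=
  pp_card hp hm h.map h'.map (h.map_back h' he hm1) (h'.map_back h he' hm2)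

end SSG
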