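import Mathlib
import Pool.Agent.Lib.SSG.Z.ZH

/-! # SSG/Z: the index two step: definitions -/

namespace SSG

variable {G A : Type} [Group G] [AddCommGroup A]

/-- The system S is stable under conjugation. -/
structure LS.Conj (S : LS G A) : Prop where
  U : ∀ u ∈ S.U, ∀ g : G, ∃ u' ∈ S.U, ∀ x ∈ u', g * x * g⁻¹ ∈ u
  D : ∀ d ∈ S.D, ∀ g : G, ∃ d' ∈ S.D, ∀ x ∈ d, g * x * g⁻¹ ∈ d'

/-- The conjugation h ↦ τ⁻¹ h τ on a normal subgroup. -/
def cj (H : Subgroup G) [H.Normal] (τ : G) : H →* H := (MulAut.conjNormal τ⁻¹ : H ≃* H).toMonoidHom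

theorem cj_coe (H : Subgroup G) [H.Normal] (τ : G) (h : H) : ((cj H τ h : H) : G) = τ⁻¹ * h * τ := by
  show ((MulAut.conjNormal τ⁻¹ h : H) : G) = _
  rw [MulAut.conjNormal_apply, inv_inv]

/-- The restriction to a subgroup. -/
theorem res_hom (S : LS G A) (H : Subgroup G) : Hom S (S.res H) H.subtype (AddMonoidHom.id A) := by
  refine ⟨fun g a => rfl, fun u hu => ⟨_, ⟨u, hu, rfl⟩, fun g hg => hg⟩, ?_⟩
  rintro _ ⟨d, hd, rfl⟩
  exact ⟨d, hd, fun g hg => hg⟩

open Classical in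
/-- The extension of a function by zero. -/
noncomputable def ext0 (H : Subgroup G) (c : H → A) (g : G) : A := if h : g ∈ H then c ⟨g, h⟩ else 0

theorem ext0_mem {H : Subgroup G} (c : H → A) {g : G} (h : g ∈ H) : ext0 H c g = c ⟨g, h⟩ := dif_pos h

theorem ext0_not {H : Subgroup G} (c : H → A) {g : G} (h : g ∉ H) : ext0 H c g = 0 := dif_neg h

/-- The corestriction of a cocycle on a subgroup H of index two, τ not in H. -/
noncomputable def corF (S : LS G A) (H : Subgroup G) (τ : G) (c : H → A) (g : G) : A :=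
  ext0 H c g + S.act τ (ext0 H c (τ⁻¹ * g * τ)) + (ext0 H c (g * τ) + S.act τ (ext0 H c (τ⁻¹ * g)))

end SSG
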