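import Mathlib
import Pool.Agent.Lib.SSG.Z.A0
import Pool.Agent.Lib.H55K.Y6
import Pool.Agent.Lib.H55K.BH1
import Pool.Agent.Lib.H55K.MM

/-! # SSG/Z, L9: the short equation and the complete data -/

open NumberField IsDedekindDomain WeierstrassCurve

namespace SSG

open H55P (IQ embF eF LF Per IsHecke Pt ac Inert Dec Nm CMData)
open H35P (WAB Ker tt)
open H55K H55K.TQ

/-- The complete data over the algebraic closure of F, with the values of A and B. -/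
theorem exists_dtaAB {F : Type} [Field F] [NumberField F] [IQ F] {W₀ : WeierstrassCurve (𝓞 F)} {Om : ℂ}
    {m : Ideal (𝓞 F)} {ψ : Ideal (𝓞 F) →*₀ 𝓞 F} {p : ℕ} [DecidableEq (AlgebraicClosure F)] (hH : BaseH F W₀ Om m ψ) (hp : PrimeH F W₀ p) :
    ∃ (A B : F) (j : AlgebraicClosure F →+* ℂ) (act : 𝓞 F →+* AddMonoid.End (Pt (WAB A B) (AlgebraicClosure F))),
      A = -(algebraMap (𝓞 F) F W₀.c₄) / 48 ∧ B = -(algebraMap (𝓞 F) F W₀.c₆) / 864 ∧ Dta A B Om j act m ψ p := by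
  have hB := base_of hH hp
  obtain ⟨j, hj⟩ := exists_j F (AlgebraicClosure F)
  obtain ⟨A, hA⟩ : ∃ A : F, A = -(algebraMap (𝓞 F) F W₀.c₄) / 48 := ⟨_, rfl⟩
  obtain ⟨B, hB'⟩ : ∃ B : F, B = -(algebraMap (𝓞 F) F W₀.c₆) / 864 := ⟨_, rfl⟩
  have hd := y3_ne W₀ hA hB' hB.data.ell
  have hper : Per F (embF F A) (embF F B) Om := by
    have e1 : embF F A = -(eF F W₀.c₄) / 48 := by
      rw [hA, map_div₀, map_neg, map_ofNat]
      rfl
    have e2 : embF F B = -(eF F W₀.c₆) / 864 := by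
      rw [hB', map_div₀, map_neg, map_ofNat]
      rfl
    rw [e1, e2]
    exact hB.data.per
  obtain ⟨act, hact⟩ := exists_CMA F A B Om j hd hper hj
  have hG : ∀ V : ValuationSubring (AlgebraicClosure F),
      ∃ (Kg : AddSubgroup (Pt (WAB A B) (AlgebraicClosure F))) (u : AlgebraicClosure F),
        GMod (WAB A B) V Kg u := fun V => exists_gmod hd (y3_j W₀ hA hB' hB.jint) V
  exact ⟨A, B, j, act, hA, hB', mk_Dta hB hA hB' hact hG⟩

/-- The equivariant isomorphism with the short equation. -/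
theorem short_iso {F : Type} [Field F] [NumberField F] (W₀ : WeierstrassCurve (𝓞 F)) {A B : F}
    (hA : A = -(algebraMap (𝓞 F) F W₀.c₄) / 48) (hB : B = -(algebraMap (𝓞 F) F W₀.c₆) / 864)
    (hΔ : W₀.Δ ≠ 0) {Ω : Type} [Field Ω] [DecidableEq Ω] [Algebra F Ω] :
    ∃ Θ : Pt (W₀⁄F) Ω ≃+ Pt (WAB A B) Ω, ∀ (s : Ω ≃ₐ[F] Ω) (P : Pt (W₀⁄F) Ω), Θ (ac (W₀⁄F) s P) = ac (WAB A B) s (Θ P) := by
  obtain ⟨W, hW⟩ : ∃ W : WeierstrassCurve F, W = (W₀⁄F) := ⟨_, rfl⟩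
  have hc4 : W.c₄ = algebraMap (𝓞 F) F W₀.c₄ := by
    rw [hW]
    exact W₀.map_c₄ (algebraMap (𝓞 F) F)
  have hc6 : W.c₆ = algebraMap (𝓞 F) F W₀.c₆ := by
    rw [hW]
    exact W₀.map_c₆ (algebraMap (𝓞 F) F)
  have hWΔ : W.Δ ≠ 0 := by
    rw [hW]
    intro h0
    apply hΔ
    have h1 : (W₀⁄F).Δ = algebraMap (𝓞 F) F W₀.Δ := W₀.map_Δ (algebraMap (𝓞 F) F)
    rw [h1] at h0
    exact (map_eq_zero_iff _ (IsFractionRing.injective (𝓞 F) F)).1 h0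
  rw [← hc4] at hA
  rw [← hc6] at hB
  have D : H55P.PS4_D W (WAB A B) ((W.a₂ + (W.a₁ / 2) ^ 2) / 3) (W.a₁ / 2) (W.a₃ / 2) := by
    refine ⟨rfl, rfl, rfl, ?_, ?_, ?_, ?_, ?_⟩
    · field_simp
    · field_simp
    · field_simp
    · show A = _
      rw [hA, WeierstrassCurve.c₄, WeierstrassCurve.b₂, WeierstrassCurve.b₄]
      ring
    · show B = _ - A * _
      rw [hB, hA, WeierstrassCurve.c₄, WeierstrassCurve.c₆, WeierstrassCurve.b₂, WeierstrassCurve.b₄, WeierstrassCurve.b₆]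
      ring
  have hd := y6_delta D
  have i1 : W.IsElliptic := ⟨isUnit_iff_ne_zero.2 hWΔ⟩
  have i2 : (WAB A B).IsElliptic := ⟨isUnit_iff_ne_zero.2 (by rw [hd]; exact hWΔ)⟩
  have i3 : (W⁄Ω).IsElliptic := inferInstanceAs (W.map (algebraMap F Ω)).IsElliptic
  have i4 : ((WAB A B)⁄Ω).IsElliptic := inferInstanceAs ((WAB A B).map (algebraMap F Ω)).IsElliptic
  rw [← hW]
  refine ⟨H55P.PS4_iso (H55P.PS4_map (Ω := Ω) D), ?_⟩
  intro f P
  rcases P with _ | ⟨x, y, h'⟩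
  · rfl
  · have e1 : f (algebraMap F Ω ((W.a₂ + (W.a₁ / 2) ^ 2) / 3)) = algebraMap F Ω ((W.a₂ + (W.a₁ / 2) ^ 2) / 3) :=
      f.commutes _
    have e2 : f (algebraMap F Ω (W.a₁ / 2)) = algebraMap F Ω (W.a₁ / 2) := f.commutes _
    have e3 : f (algebraMap F Ω (W.a₃ / 2)) = algebraMap F Ω (W.a₃ / 2) := f.commutes _
    change Affine.Point.some _ _ _ = Affine.Point.some _ _ _
    rw [Affine.Point.some.injEq]
    constructor
    · change f x + algebraMap F Ω ((W.a₂ + (W.a₁ / 2) ^ 2) / 3) = f (x + algebraMap F Ω ((W.a₂ + (W.a₁ / 2) ^ 2) / 3))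
      rw [map_add, e1]
    · change f y + algebraMap F Ω (W.a₁ / 2) * f x + algebraMap F Ω (W.a₃ / 2) =
        f (y + algebraMap F Ω (W.a₁ / 2) * x + algebraMap F Ω (W.a₃ / 2))
      rw [map_add, map_add, map_mul, e2, e3]

open Classical in
/-- Equivariantly isomorphic curves have isomorphic systems. -/
theorem equiv_card {F : Type} [Field F] {W₁ W₂ : WeierstrassCurve F} {Ω : Type} [Field Ω] [Algebra F Ω] (Θ : Pt W₁ Ω ≃+ Pt W₂ Ω)
    (hΘ : ∀ (s : Ω ≃ₐ[F] Ω) (P : Pt W₁ Ω), Θ (ac W₁ s P) = ac W₂ s (Θ P)) (H : Subgroup (Ω ≃ₐ[F] Ω)) {p : ℕ} (hp : p.Prime) :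
    Nat.card (PP p ((galS W₁ Ω).res H).Sha) = Nat.card (PP p ((galS W₂ Ω).res H).Sha) := by
  have h1 : Hom ((galS W₁ Ω).res H) ((galS W₂ Ω).res H) (MonoidHom.id H) Θ.toAddMonoidHom :=
    ⟨fun g a => hΘ g a, fun u hu => ⟨u, hu, fun g hg => hg⟩, fun d hd => ⟨d, hd, fun g hg => hg⟩⟩
  have h2 : Hom ((galS W₂ Ω).res H) ((galS W₁ Ω).res H) (MonoidHom.id H) Θ.symm.toAddMonoidHom := by
    refine ⟨fun g a => ?_, fun u hu => ⟨u, hu, fun g hg => hg⟩, fun d hd => ⟨d, hd, fun g hg => hg⟩⟩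
    apply Θ.injective
    show Θ (Θ.symm (ac W₂ (g : Ω ≃ₐ[F] Ω) a)) = Θ (ac W₁ (g : Ω ≃ₐ[F] Ω) (Θ.symm a))
    rw [Θ.apply_symm_apply, hΘ, Θ.apply_symm_apply]
  refine Hom.card hp (m := 1) (fun h => hp.one_lt.ne' (Nat.dvd_one.1 h)) h1 h2 (fun _ => rfl) (fun _ => rfl) (fun a => ?_) (fun a => ?_)
  · rw [one_smul]
    exact Θ.symm_apply_apply a
  · rw [one_smul]
    exact Θ.apply_symm_apply a

end SSG
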