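import Mathlib
import Pool.Agent.Lib.SSG.Z.A0

/-! Chunk A1 (S/M). Pure algebra of abelian groups (PP p X = elements killed by a power of p, SSG/Z/ZD.lean; lemmas pp_inj, pp_surj, pp_card, ppMap in ZH.lean).
PROOF. 2 and d are prime to p. T (r x) = r x (r (k (r x)) = 2 r x = r x + T r x). Y+ = the y in PP with T y = y, Y- = those with T y = -y.
(1) y -> (y + T y, y - T y) is a bijection PP p Y -> Y+ x Y-: injective (2 y is determined, pp_inj for the difference); surjective: given (u, v) choose y with 2 y = u + v (pp_surj: y = n • (u + v)), then 2 (y + T y) = 2 u, 2 (y - T y) = 2 v, pp_inj.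
(2) r : PP p X -> Y+ is a bijection: injective since k r = 2; surjective: u = 2 w (pp_surj, w = n • u, so T w = w), r (k w) = w + T w = 2 w = u.
(3) a : Y- -> Y+ is a bijection: T (a v) = -a (T v) = a v; injective: a (a v) = -(d v); surjective: u = d w with w = n • u in Y+, v = -(a w) is in Y-, a v = -(a (a w)) = d w = u.
So card = card Y+ * card Y- = card Y+ ^ 2 = card (PP p X) ^ 2 (Nat.card_congr, Nat.card_prod; no finiteness needed). -/

namespace SSG

theorem two_card {X Y : Type} [AddCommGroup X] [AddCommGroup Y] {p d : ℕ} (hp : p.Prime) (hp2 : p ≠ 2) (hd : ¬ p ∣ d) (r : X →+ Y)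
    (k : Y →+ X) (T a : Y →+ Y) (hkr : ∀ x, k (r x) = 2 • x) (hrk : ∀ y, r (k y) = y + T y) (hT : ∀ y, T (T y) = y)
    (haa : ∀ y, a (a y) = -(d • y)) (hTa : ∀ y, T (a y) = -(a (T y))) : Nat.card (PP p Y) = Nat.card (PP p X) ^ 2 := by
  have h2 : ¬ p ∣ 2 := fun h => hp2 ((Nat.prime_dvd_prime_iff_eq hp Nat.prime_two).1 h)
  have h2d : ¬ p ∣ 2 * d := fun h => (hp.dvd_mul.1 h).elim h2 hd
  have hTr : ∀ x, T (r x) = r x := by
    intro x
    have h := hrk (r x)
    rw [hkr, map_nsmul, two_nsmul] at h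
    exact (add_left_cancel h).symm
  have hkar : ∀ x, (∃ l : ℕ, p ^ l • x = 0) → k (a (r x)) = 0 := by
    intro x hx
    obtain ⟨l, hl⟩ := hx
    refine pp_inj hp h2 ⟨l, ?_⟩ ?_
    · rw [← map_nsmul, ← map_nsmul, ← map_nsmul, hl, map_zero, map_zero, map_zero]
    · rw [← hkr, hrk, hTa, hTr, add_neg_cancel, map_zero]
  have hbij : Function.Bijective (fun y : PP p Y => (ppMap k y, ppMap (k.comp a) y)) := by
    refine ⟨fun y y' h => ?_, fun x => ?_⟩
    · apply pp_ext
      have h1 : k y.1 = k y'.1 := congrArg (fun z : PP p X × PP p X => z.1.1) h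
      have h3 : k (a y.1) = k (a y'.1) := congrArg (fun z : PP p X × PP p X => z.2.1) h
      rw [← sub_eq_zero, ← map_sub] at h1
      rw [← sub_eq_zero, ← map_sub, ← map_sub] at h3
      rw [← sub_eq_zero]
      obtain ⟨w, hw⟩ : ∃ w, w = y.1 - y'.1 := ⟨_, rfl⟩
      rw [← hw] at h1 h3 ⊢
      have hpw : ∃ l : ℕ, p ^ l • w = 0 := by
        obtain ⟨l, hl⟩ := y.2
        obtain ⟨l', hl'⟩ := y'.2
        refine ⟨l + l', ?_⟩
        rw [hw, smul_sub, pow_add, mul_smul, mul_smul, smul_comm (p ^ l) (p ^ l') y.1, hl, hl', smul_zero,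
          smul_zero, sub_zero]
      have h4 : T w = -w := by
        have := hrk w
        rw [h1, map_zero] at this
        exact (neg_eq_of_add_eq_zero_right this.symm).symm
      have h5 : a w + a w = 0 := by
        have := hrk (a w)
        rw [h3, map_zero, hTa, h4, map_neg, neg_neg] at this
        exact this.symm
      refine pp_inj hp h2d hpw ?_
      have h6 : a (a w + a w) = 0 := by rw [h5, map_zero]
      rw [map_add, haa, ← neg_add, neg_eq_zero] at h6
      rw [two_mul, add_smul]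
      exact h6
    · obtain ⟨x₁, x₂⟩ := x
      obtain ⟨n₁, hn₁⟩ := pp_surj hp h2 x₁.2
      obtain ⟨n₂, hn₂⟩ := pp_surj hp h2d x₂.2
      obtain ⟨l₁, hl₁⟩ := x₁.2
      obtain ⟨l₂, hl₂⟩ := x₂.2
      have hy₁ : p ^ l₁ • (n₁ • x₁.1) = 0 := by rw [smul_comm, hl₁, smul_zero]
      have hy₂ : p ^ l₂ • (n₂ • x₂.1) = 0 := by rw [smul_comm, hl₂, smul_zero]
      refine ⟨⟨r (n₁ • x₁.1) - a (r (n₂ • x₂.1)), l₁ + l₂, ?_⟩, ?_⟩
      · rw [smul_sub, pow_add]
        have e1 : (p ^ l₁ * p ^ l₂) • r (n₁ • x₁.1) = 0 := by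
          rw [mul_comm, mul_smul, ← map_nsmul r, hy₁, map_zero, smul_zero]
        have e2 : (p ^ l₁ * p ^ l₂) • a (r (n₂ • x₂.1)) = 0 := by
          rw [mul_smul, ← map_nsmul a, ← map_nsmul r, hy₂, map_zero, map_zero, smul_zero]
        rw [e1, e2, sub_zero]
      · refine Prod.ext (pp_ext ?_) (pp_ext ?_)
        · show k (r (n₁ • x₁.1) - a (r (n₂ • x₂.1))) = x₁.1
          rw [map_sub, hkr, hkar _ ⟨l₂, hy₂⟩, sub_zero, hn₁]
        · show k (a (r (n₁ • x₁.1) - a (r (n₂ • x₂.1)))) = x₂.1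
          rw [map_sub, map_sub, hkar _ ⟨l₁, hy₁⟩, haa, map_neg, zero_sub, neg_neg, map_nsmul, hkr,
            ← mul_smul, mul_comm d 2, hn₂]
  rw [Nat.card_congr (Equiv.ofBijective _ hbij), Nat.card_prod, sq]

end SSG
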