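import Mathlib
import Pool.Agent.Lib.SSG.Z.A0

/-! Chunk A2 (S/M). Conjugation. (cj H τ h = τ⁻¹ h τ: cj_coe.)
conj_hom: eqv: τ (τ⁻¹ g τ a) = g τ a (map_mul of S.act: S.act (g * h) a = S.act g (S.act h a)). U: u = u'.subgroupOf H, hS.U u' with g = τ⁻¹: x in u'' gives τ⁻¹ x τ in u' (inv_inv). D: similarly with hS.D.
conj_triv: t in H: the class of (h ↦ t c(t⁻¹ h t)) minus c is the coboundary of c(t): c(h t) = c(h) + h c(t) and c(h t) = c(t (t⁻¹ h t)) = c(t) + t c(t⁻¹ h t). Use LS.cl_eq with P = c t (c : H → A; everything is an identity in H: h * ⟨t, ht⟩ = ⟨t, ht⟩ * cj H t h by Subtype.ext and group).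
conj_twice: the composite of the map for τ with itself is the map for τ * τ in H: on cocycles, τ (τ c(τ⁻¹ (τ⁻¹ h τ) τ)) = (τ τ) c((τ τ)⁻¹ h (τ τ)); then conj_triv. (Hom.map_cl, mapZ_apply; LS.cl_surj.) -/

namespace SSG

variable {G A : Type} [Group G] [AddCommGroup A]

theorem a2_act (S : LS G A) (g h : G) (a : A) : S.act (g * h) a = S.act g (S.act h a) := by
  rw [map_mul]
  rfl

theorem conj_hom {S : LS G A} (hS : S.Conj) (H : Subgroup G) [H.Normal] (τ : G) : Hom (S.res H) (S.res H) (cj H τ) (S.act τ : A →+ A) := by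
  refine ⟨fun g a => ?_, ?_, ?_⟩
  · show S.act τ (S.act ((cj H τ g : H) : G) a) = S.act (g : G) (S.act τ a)
    rw [← a2_act, ← a2_act, cj_coe]
    congr 2
    group
  · rintro _ ⟨u, hu, rfl⟩
    obtain ⟨u', hu', h1⟩ := hS.U u hu τ⁻¹
    refine ⟨_, ⟨u', hu', rfl⟩, fun g hg => ?_⟩
    rw [Subgroup.mem_subgroupOf, cj_coe]
    have h2 := h1 _ (Subgroup.mem_subgroupOf.1 hg)
    rwa [inv_inv] at h2
  · rintro _ ⟨d, hd, rfl⟩
    obtain ⟨d', hd', h1⟩ := hS.D d hd τ⁻¹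
    refine ⟨_, ⟨d', hd', rfl⟩, fun g hg => ?_⟩
    rw [Subgroup.mem_subgroupOf, cj_coe]
    have h2 := h1 _ (Subgroup.mem_subgroupOf.1 hg)
    rwa [inv_inv] at h2

theorem conj_triv {S : LS G A} (hS : S.Conj) (H : Subgroup G) [H.Normal] {t : G} (ht : t ∈ H) (x : (S.res H).Sha) :
    (conj_hom hS H t).map x = x := by
  obtain ⟨c, rfl⟩ := (S.res H).cl_surj x
  refine ((S.res H).cl_eq ((conj_hom hS H t).mapZ c) c).2 ⟨c.1 ⟨t, ht⟩, fun h => ?_⟩
  show S.act t (c.1 (cj H t h)) = _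
  have hc : (S.res H).IsZ c.1 := c.2
  have h1 := hc.mul h ⟨t, ht⟩
  have h2 := hc.mul ⟨t, ht⟩ (cj H t h)
  have h3 : h * ⟨t, ht⟩ = ⟨t, ht⟩ * cj H t h := by
    apply Subtype.ext
    show (h : G) * t = t * ((cj H t h : H) : G)
    rw [cj_coe]
    group
  rw [h3, h2] at h1
  have h4 : (S.res H).act ⟨t, ht⟩ (c.1 (cj H t h)) = S.act t (c.1 (cj H t h)) := rfl
  rw [h4] at h1
  have h5 : S.act t (c.1 (cj H t h)) =
      c.1 h + (S.res H).act h (c.1 ⟨t, ht⟩) - c.1 ⟨t, ht⟩ := by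
    rw [← h1]
    abel
  rw [h5]
  abel

theorem conj_twice {S : LS G A} (hS : S.Conj) (H : Subgroup G) [H.Normal] {τ : G} (ht : τ * τ ∈ H) (x : (S.res H).Sha) :
    (conj_hom hS H τ).map ((conj_hom hS H τ).map x) = x := by
  have h0 := conj_triv hS H ht x
  obtain ⟨c, rfl⟩ := (S.res H).cl_surj x
  have h1 : (conj_hom hS H τ).mapZ ((conj_hom hS H τ).mapZ c) = (conj_hom hS H (τ * τ)).mapZ c := by
    apply Subtype.ext
    funext h
    show S.act τ (S.act τ (c.1 (cj H τ (cj H τ h)))) = S.act (τ * τ) (c.1 (cj H (τ * τ) h))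
    have h2 : cj H (τ * τ) h = cj H τ (cj H τ h) := by
      apply Subtype.ext
      rw [cj_coe, cj_coe, cj_coe]
      group
    rw [h2, a2_act]
  exact Eq.trans (congrArg (S.res H).cl h1) h0

end SSG
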