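import Mathlib
import Pool.Agent.Lib.SSG.Z.A0

/-! Chunk A3 (M). The corestriction is a cocycle. Index two: for τ not in H, g in H iff g τ not in H iff τ⁻¹ g not in H, and g in H iff τ⁻¹ g τ in H (Subgroup.mul_mem_iff_of_index_two: a * b ∈ H ↔ (a ∈ H ↔ b ∈ H); inv_mem_iff).
Write f = ext0 H c (ext0_mem, ext0_not). corF for g in H: f g + τ f(τ⁻¹ g τ) (the other two terms vanish); for g not in H: f(g τ) + τ f(τ⁻¹ g). First prove: for a, b in H: f (a b) = f a + a f b. Then cor (g h) = cor g + g cor h in four cases: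
(g, h in H): f(g h) + τ f(τ⁻¹ g τ τ⁻¹ h τ) with τ (τ⁻¹ g τ) = g τ. (g in H, h not): cor(gh) = f(g (h τ)) + τ f((τ⁻¹ g τ)(τ⁻¹ h)). (g not in H, h in H): cor(gh) = f((g τ)(τ⁻¹ h τ)) + τ f((τ⁻¹ g) h) and g τ, τ⁻¹ g are in H: = f(gτ) + g τ f(τ⁻¹ h τ) + τ f(τ⁻¹ g) + g f(h). (both not):
cor(gh) = f((g τ)(τ⁻¹ h)) + τ f((τ⁻¹ g)(h τ)) = f(gτ) + g τ f(τ⁻¹ h) + τ f(τ⁻¹ g) + g f(h τ). -/

namespace SSG

variable {G A : Type} [Group G] [AddCommGroup A]

theorem a3_aa (S : LS G A) (a b : G) (x : A) : S.act a (S.act b x) = S.act (a * b) x := by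
  rw [map_mul]; rfl

theorem a3_in (S : LS G A) (H : Subgroup G) (hi : H.index = 2) {τ : G} (hτ : τ ∉ H) (c : H → A) {g : G} (hg : g ∈ H) :
    corF S H τ c g = ext0 H c g + S.act τ (ext0 H c (τ⁻¹ * g * τ)) := by
  have h1 : g * τ ∉ H := by rw [Subgroup.mul_mem_iff_of_index_two hi]; tauto
  have h2 : τ⁻¹ * g ∉ H := by rw [Subgroup.mul_mem_iff_of_index_two hi, inv_mem_iff]; tauto
  unfold corF
  rw [ext0_not c h1, ext0_not c h2, map_zero, add_zero, add_zero]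

theorem a3_out (S : LS G A) (H : Subgroup G) (hi : H.index = 2) {τ : G} (hτ : τ ∉ H) (c : H → A) {g : G} (hg : g ∉ H) :
    corF S H τ c g = ext0 H c (g * τ) + S.act τ (ext0 H c (τ⁻¹ * g)) := by
  have h1 : τ⁻¹ * g * τ ∉ H := by
    rw [Subgroup.mul_mem_iff_of_index_two hi, Subgroup.mul_mem_iff_of_index_two hi, inv_mem_iff]; tauto
  unfold corF
  rw [ext0_not c hg, ext0_not c h1, map_zero, add_zero, zero_add]

theorem a3_add (S : LS G A) (H : Subgroup G) {c : H → A} (hc : ∀ g h, c (g * h) = c g + S.act g (c h)) {a b : G} (ha : a ∈ H)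
    (hb : b ∈ H) : ext0 H c (a * b) = ext0 H c a + S.act a (ext0 H c b) := by
  rw [ext0_mem c ha, ext0_mem c hb, ext0_mem c (H.mul_mem ha hb)]
  exact hc ⟨a, ha⟩ ⟨b, hb⟩

theorem cor_mul (S : LS G A) (H : Subgroup G) (hi : H.index = 2) {τ : G} (hτ : τ ∉ H) {c : H → A}
    (hc : ∀ g h, c (g * h) = c g + S.act g (c h)) (g h : G) :
    corF S H τ c (g * h) = corF S H τ c g + S.act g (corF S H τ c h) := by
  have hm : ∀ a b : G, a * b ∈ H ↔ (a ∈ H ↔ b ∈ H) := fun a b => Subgroup.mul_mem_iff_of_index_two hi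
  have hinv : ∀ a : G, a⁻¹ ∈ H ↔ a ∈ H := fun a => inv_mem_iff
  by_cases hg : g ∈ H <;> by_cases hh : h ∈ H
  · have h1 : g * h ∈ H := H.mul_mem hg hh
    have h2 : τ⁻¹ * g * τ ∈ H := by rw [hm, hm, hinv]; tauto
    have h3 : τ⁻¹ * h * τ ∈ H := by rw [hm, hm, hinv]; tauto
    have h4 : τ⁻¹ * (g * h) * τ = (τ⁻¹ * g * τ) * (τ⁻¹ * h * τ) := by group
    rw [a3_in S H hi hτ c h1, a3_in S H hi hτ c hg, a3_in S H hi hτ c hh, h4, a3_add S H hc hg hh, a3_add S H hc h2 h3,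
      map_add, map_add, a3_aa, a3_aa, show τ * (τ⁻¹ * g * τ) = g * τ by group]
    abel
  · have h1 : g * h ∉ H := by rw [hm]; tauto
    have h2 : τ⁻¹ * g * τ ∈ H := by rw [hm, hm, hinv]; tauto
    have h3 : h * τ ∈ H := by rw [hm]; tauto
    have h3' : τ⁻¹ * h ∈ H := by rw [hm, hinv]; tauto
    have h4 : g * h * τ = g * (h * τ) := by group
    have h5 : τ⁻¹ * (g * h) = (τ⁻¹ * g * τ) * (τ⁻¹ * h) := by group
    rw [a3_out S H hi hτ c h1, a3_in S H hi hτ c hg, a3_out S H hi hτ c hh, h4, h5, a3_add S H hc hg h3, a3_add S H hc h2 h3',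
      map_add, map_add, a3_aa, a3_aa, show τ * (τ⁻¹ * g * τ) = g * τ by group]
    abel
  · have h1 : g * h ∉ H := by rw [hm]; tauto
    have h2 : τ⁻¹ * h * τ ∈ H := by rw [hm, hm, hinv]; tauto
    have h3 : g * τ ∈ H := by rw [hm]; tauto
    have h3' : τ⁻¹ * g ∈ H := by rw [hm, hinv]; tauto
    have h4 : g * h * τ = (g * τ) * (τ⁻¹ * h * τ) := by group
    have h5 : τ⁻¹ * (g * h) = (τ⁻¹ * g) * h := by group
    rw [a3_out S H hi hτ c h1, a3_out S H hi hτ c hg, a3_in S H hi hτ c hh, h4, h5, a3_add S H hc h3 h2, a3_add S H hc h3' hh,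
      map_add, map_add, a3_aa, a3_aa, show τ * (τ⁻¹ * g) = g by group]
    abel
  · have h1 : g * h ∈ H := by rw [hm]; tauto
    have h2 : g * τ ∈ H := by rw [hm]; tauto
    have h2' : τ⁻¹ * h ∈ H := by rw [hm, hinv]; tauto
    have h3 : τ⁻¹ * g ∈ H := by rw [hm, hinv]; tauto
    have h3' : h * τ ∈ H := by rw [hm]; tauto
    have h4 : ext0 H c (g * h) = ext0 H c ((g * τ) * (τ⁻¹ * h)) := by congr 1; group
    have h5 : τ⁻¹ * (g * h) * τ = (τ⁻¹ * g) * (h * τ) := by group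
    rw [a3_in S H hi hτ c h1, a3_out S H hi hτ c hg, a3_out S H hi hτ c hh, h4, h5, a3_add S H hc h2 h2', a3_add S H hc h3 h3',
      map_add, map_add, a3_aa, a3_aa, show τ * (τ⁻¹ * g) = g by group]
    abel

end SSG
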