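import Mathlib
import Pool.Agent.Lib.SSG.Z.A0

/-! Chunk A4 (M). The corestriction is continuous and locally trivial. See A3 for the two cases of corF (index two: Subgroup.mul_mem_iff_of_index_two).
cor_cont: c is zero on (u.subgroupOf H), u in S.U; H contains u₀ in S.U; u₁ in S.U with τ⁻¹ x τ in u for x in u₁ (hS.U with g = τ⁻¹, inv_inv). Take w in S.U below u, u₀, u₁ (S.inf twice). For g in w: g in H, τ⁻¹ g τ in H, both terms vanish.
cor_loc: d in S.D. CASE 1: d ≤ H. P for d (hloc with d.subgroupOf H), P' for d' where τ⁻¹ x τ in d' for x in d (hS.D, g = τ⁻¹; note τ⁻¹ x τ in H by index two). cor c g = g P - P + τ (τ⁻¹gτ P' - P') = g(P + τ P') - (P + τ P').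
CASE 2: t in d, t not in H. s = τ⁻¹ t in H (index two). P for d ∩ H. Y = P + t P - τ c(s). For g in d ∩ H: g' = t⁻¹ g t is in d ∩ H, τ⁻¹ g τ = s g' s⁻¹ in H; c(s g' s⁻¹) = c(s) + s (g'P - P) - s g' s⁻¹ c(s) (c(s⁻¹) = -s⁻¹ c(s)); τ s = t, t g' = g t, t s⁻¹ = τ: τ c(τ⁻¹gτ) = τ c(s) + g t P - t P - g τ c(s); cor c g = g Y - Y.
For g in d, g not in H: g t in d ∩ H, g τ = (g t) s⁻¹: c(g τ) = g t P - P - g τ c(s); τ⁻¹ g = s (t⁻¹ g): c(τ⁻¹ g) = c(s) + s (t⁻¹ g P - P), so τ c(τ⁻¹g) = τ c(s) + g P - t P; the sum is g Y - Y. -/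

namespace SSG

variable {G A : Type} [Group G] [AddCommGroup A]

theorem a4_aa (S : LS G A) (a b : G) (x : A) : S.act a (S.act b x) = S.act (a * b) x := by
  rw [map_mul]; rfl

theorem a4_in (S : LS G A) (H : Subgroup G) (hi : H.index = 2) {τ : G} (hτ : τ ∉ H) (c : H → A) {g : G} (hg : g ∈ H) :
    corF S H τ c g = ext0 H c g + S.act τ (ext0 H c (τ⁻¹ * g * τ)) := by
  have h1 : g * τ ∉ H := by rw [Subgroup.mul_mem_iff_of_index_two hi]; tauto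
  have h2 : τ⁻¹ * g ∉ H := by rw [Subgroup.mul_mem_iff_of_index_two hi, inv_mem_iff]; tauto
  unfold corF
  rw [ext0_not c h1, ext0_not c h2, map_zero, add_zero, add_zero]

theorem a4_out (S : LS G A) (H : Subgroup G) (hi : H.index = 2) {τ : G} (hτ : τ ∉ H) (c : H → A) {g : G} (hg : g ∉ H) :
    corF S H τ c g = ext0 H c (g * τ) + S.act τ (ext0 H c (τ⁻¹ * g)) := by
  have h1 : τ⁻¹ * g * τ ∉ H := by
    rw [Subgroup.mul_mem_iff_of_index_two hi, Subgroup.mul_mem_iff_of_index_two hi, inv_mem_iff]; tauto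
  unfold corF
  rw [ext0_not c hg, ext0_not c h1, map_zero, add_zero, zero_add]

theorem a4_add (S : LS G A) (H : Subgroup G) {c : H → A} (hc : ∀ g h, c (g * h) = c g + S.act g (c h)) {a b : G} (ha : a ∈ H)
    (hb : b ∈ H) : ext0 H c (a * b) = ext0 H c a + S.act a (ext0 H c b) := by
  rw [ext0_mem c ha, ext0_mem c hb, ext0_mem c (H.mul_mem ha hb)]
  exact hc ⟨a, ha⟩ ⟨b, hb⟩

theorem a4_inv (S : LS G A) (H : Subgroup G) {c : H → A} (hc : ∀ g h, c (g * h) = c g + S.act g (c h)) {a : G} (ha : a ∈ H) :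
    ext0 H c a⁻¹ = - S.act a⁻¹ (ext0 H c a) := by
  have h1 : ext0 H c (1 : G) = 0 := by
    have := a4_add S H hc H.one_mem H.one_mem
    rw [mul_one, map_one] at this
    have h2 : (1 : AddMonoid.End A) (ext0 H c 1) = ext0 H c 1 := rfl
    rw [h2] at this
    exact left_eq_add.1 this
  have h3 := a4_add S H hc (H.inv_mem ha) ha
  rw [inv_mul_cancel, h1] at h3
  exact eq_neg_of_add_eq_zero_left h3.symm

theorem cor_cont {S : LS G A} (hS : S.Conj) (H : Subgroup G) (hH : ∃ u ∈ S.U, u ≤ H) (hi : H.index = 2) {τ : G} (hτ : τ ∉ H) {c : H → A}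
    (hc : ∃ u ∈ (S.res H).U, ∀ g ∈ u, c g = 0) : ∃ u ∈ S.U, ∀ g ∈ u, corF S H τ c g = 0 := by
  have hm : ∀ a b : G, a * b ∈ H ↔ (a ∈ H ↔ b ∈ H) := fun a b => Subgroup.mul_mem_iff_of_index_two hi
  have hinv : ∀ a : G, a⁻¹ ∈ H ↔ a ∈ H := fun a => inv_mem_iff
  obtain ⟨_, ⟨u', hu', rfl⟩, h0⟩ := hc
  obtain ⟨u₀, hu₀, h1⟩ := hH
  obtain ⟨u₁, hu₁, h2⟩ := hS.U u' hu' τ⁻¹
  obtain ⟨w₁, hw₁, h3, h3'⟩ := S.inf u' hu' u₀ hu₀
  obtain ⟨w, hw, h4, h4'⟩ := S.inf w₁ hw₁ u₁ hu₁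
  refine ⟨w, hw, fun g hg => ?_⟩
  have hgH : g ∈ H := h1 (h3' (h4 hg))
  have h5 : τ⁻¹ * g * τ ∈ H := by rw [hm, hm, hinv]; tauto
  have h6 : ext0 H c g = 0 := by
    rw [ext0_mem c hgH]
    exact h0 _ (h3 (h4 hg))
  have h7 : ext0 H c (τ⁻¹ * g * τ) = 0 := by
    rw [ext0_mem c h5]
    apply h0
    have := h2 g (h4' hg)
    rw [inv_inv] at this
    exact this
  rw [a4_in S H hi hτ c hgH, h6, h7, map_zero, add_zero]

theorem cor_loc {S : LS G A} (hS : S.Conj) (H : Subgroup G) (hi : H.index = 2) {τ : G} (hτ : τ ∉ H) {c : H → A}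
    (hc : (S.res H).IsZ c) : ∀ d ∈ S.D, ∃ P, ∀ g ∈ d, corF S H τ c g = S.act g P - P := by
  have hm : ∀ a b : G, a * b ∈ H ↔ (a ∈ H ↔ b ∈ H) := fun a b => Subgroup.mul_mem_iff_of_index_two hi
  have hinv : ∀ a : G, a⁻¹ ∈ H ↔ a ∈ H := fun a => inv_mem_iff
  have hmul : ∀ g h : H, c (g * h) = c g + S.act g (c h) := hc.mul
  intro d hd
  obtain ⟨P, hP⟩ := hc.loc (d.subgroupOf H) ⟨d, hd, rfl⟩
  have hP1 : ∀ g ∈ H, g ∈ d → ext0 H c g = S.act g P - P := by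
    intro g hg hgd
    rw [ext0_mem c hg]
    exact hP ⟨g, hg⟩ hgd
  by_cases hdH : d ≤ H
  · obtain ⟨d', hd', h1⟩ := hS.D d hd τ⁻¹
    obtain ⟨P', hP'⟩ := hc.loc (d'.subgroupOf H) ⟨d', hd', rfl⟩
    refine ⟨P + S.act τ P', fun g hg => ?_⟩
    have hgH : g ∈ H := hdH hg
    have h5 : τ⁻¹ * g * τ ∈ H := by rw [hm, hm, hinv]; tauto
    have h6 : ext0 H c (τ⁻¹ * g * τ) = S.act (τ⁻¹ * g * τ) P' - P' := by
      rw [ext0_mem c h5]
      have := h1 g hg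
      rw [inv_inv] at this
      exact hP' ⟨_, h5⟩ this
    rw [a4_in S H hi hτ c hgH, h6, hP1 g hgH hg, map_sub, map_add, a4_aa, a4_aa, show τ * (τ⁻¹ * g * τ) = g * τ by group]
    abel
  · obtain ⟨t, htd, htH⟩ := SetLike.not_le_iff_exists.1 hdH
    have hs : τ⁻¹ * t ∈ H := by rw [hm, hinv]; tauto
    refine ⟨P + S.act t P - S.act τ (ext0 H c (τ⁻¹ * t)), fun g hg => ?_⟩
    by_cases hgH : g ∈ H
    · have h1 : t⁻¹ * g * t ∈ H := by rw [hm, hm, hinv]; tauto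
      have h1d : t⁻¹ * g * t ∈ d := d.mul_mem (d.mul_mem (d.inv_mem htd) hg) htd
      have h2 : τ⁻¹ * g * τ = (τ⁻¹ * t) * ((t⁻¹ * g * t) * (τ⁻¹ * t)⁻¹) := by group
      rw [a4_in S H hi hτ c hgH, h2, a4_add S H hmul hs (H.mul_mem h1 (H.inv_mem hs)), a4_add S H hmul h1 (H.inv_mem hs),
        a4_inv S H hmul hs, hP1 g hgH hg, hP1 _ h1 h1d]
      simp only [map_add, map_sub, map_neg, a4_aa]
      rw [show τ * (τ⁻¹ * t * (t⁻¹ * g * t)) = g * t by group, show τ * (τ⁻¹ * t) = t by group,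
        show τ * (τ⁻¹ * t * (t⁻¹ * g * t * (τ⁻¹ * t)⁻¹)) = g * τ by group]
      abel
    · have h1 : g * t ∈ H := by rw [hm]; tauto
      have h1d : g * t ∈ d := d.mul_mem hg htd
      have h2 : t⁻¹ * g ∈ H := by rw [hm, hinv]; tauto
      have h2d : t⁻¹ * g ∈ d := d.mul_mem (d.inv_mem htd) hg
      have h3 : ext0 H c (g * τ) = ext0 H c ((g * t) * (τ⁻¹ * t)⁻¹) := by congr 1; group
      have h4 : τ⁻¹ * g = (τ⁻¹ * t) * (t⁻¹ * g) := by group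
      rw [a4_out S H hi hτ c hgH, h3, h4, a4_add S H hmul h1 (H.inv_mem hs), a4_add S H hmul hs h2, a4_inv S H hmul hs,
        hP1 _ h1 h1d, hP1 _ h2 h2d]
      simp only [map_add, map_sub, map_neg, a4_aa]
      rw [show τ * (τ⁻¹ * t * (t⁻¹ * g)) = g by group, show τ * (τ⁻¹ * t) = t by group,
        show g * t * (τ⁻¹ * t)⁻¹ = g * τ by group]
      abel

end SSG
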