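import Mathlib
import Pool.Agent.Lib.SSG.Z.A1
import Pool.Agent.Lib.SSG.Z.A2
import Pool.Agent.Lib.SSG.Z.A3
import Pool.Agent.Lib.SSG.Z.A4

/-! Chunk A5 (M). The corestriction as a homomorphism of Sha. On cocycles c ↦ corF S H τ c (cor_mul, cor_cont, cor_loc; additive: corF is additive in c since ext0 H is); coboundaries h ↦ h P - P go to g ↦ g (P + τ P) - (P + τ P)
(g in H: g P - P + τ(τ⁻¹ g τ P - P); g not in H: g τ P - P + τ(τ⁻¹ g P - P); index two: Subgroup.mul_mem_iff_of_index_two); QuotientAddGroup.lift as in Hom.map (ZH.lean: the map of S.B.addSubgroupOf S.Z).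
k r = 2: for c in S.Z and g in H: c(g) + τ c(τ⁻¹ g τ) = 2 c(g) + g c(τ) - c(τ); for g not in H: c(g τ) + τ c(τ⁻¹ g) = c(g) + g c(τ) + c(g) - c(τ) (c(g) = c(τ τ⁻¹ g) = c(τ) + τ c(τ⁻¹ g)); so the difference to 2 c is the coboundary of c(τ) (LS.cl_eq; LS.cl_surj to choose c).
r k = 1 + T: corF on g in H is c(g) + τ c(τ⁻¹ g τ) (ext0_mem, ext0_not; cj_coe). -/

namespace SSG

variable {G A : Type} [Group G] [AddCommGroup A]

theorem a5_ext0_add (H : Subgroup G) (c c' : H → A) (g : G) : ext0 H (c + c') g = ext0 H c g + ext0 H c' g := by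
  by_cases h : g ∈ H
  · rw [ext0_mem _ h, ext0_mem _ h, ext0_mem _ h]; rfl
  · rw [ext0_not _ h, ext0_not _ h, ext0_not _ h, add_zero]

/-- The corestriction of cocycles. -/
noncomputable def a5_corZ {S : LS G A} (hS : S.Conj) (H : Subgroup G) (hH : ∃ u ∈ S.U, u ≤ H) (hi : H.index = 2) {τ : G}
    (hτ : τ ∉ H) : (S.res H).Z →+ S.Z where
  toFun c := ⟨corF S H τ c.1, ⟨cor_mul S H hi hτ c.2.mul, cor_cont hS H hH hi hτ c.2.cont, cor_loc hS H hi hτ c.2⟩⟩
  map_zero' := by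
    apply Subtype.ext
    funext g
    show corF S H τ (0 : H → A) g = 0
    have h0 : ∀ x : G, ext0 H (0 : H → A) x = 0 := by
      intro x
      by_cases h : x ∈ H
      · rw [ext0_mem _ h]; rfl
      · rw [ext0_not _ h]
    unfold corF
    simp only [h0, map_zero, add_zero]
  map_add' c c' := by
    apply Subtype.ext
    funext g
    show corF S H τ (c.1 + c'.1) g = corF S H τ c.1 g + corF S H τ c'.1 g
    unfold corF
    simp only [a5_ext0_add, map_add]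
    abel

theorem a5_corZ_apply {S : LS G A} (hS : S.Conj) (H : Subgroup G) (hH : ∃ u ∈ S.U, u ≤ H) (hi : H.index = 2) {τ : G}
    (hτ : τ ∉ H) (c : (S.res H).Z) (g : G) : (a5_corZ hS H hH hi hτ c).1 g = corF S H τ c.1 g := rfl

theorem exists_cor {S : LS G A} (hS : S.Conj) (H : Subgroup G) [H.Normal] (hH : ∃ u ∈ S.U, u ≤ H) (hi : H.index = 2) {τ : G} (hτ : τ ∉ H) :
    ∃ k : (S.res H).Sha →+ S.Sha, (∀ x, k ((res_hom S H).map x) = 2 • x) ∧
      ∀ y, (res_hom S H).map (k y) = y + (conj_hom hS H τ).map y := by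
  have hm : ∀ a b : G, a * b ∈ H ↔ (a ∈ H ↔ b ∈ H) := fun a b => Subgroup.mul_mem_iff_of_index_two hi
  have hinv : ∀ a : G, a⁻¹ ∈ H ↔ a ∈ H := fun a => inv_mem_iff
  refine ⟨QuotientAddGroup.lift ((S.res H).B.addSubgroupOf (S.res H).Z) (S.cl.comp (a5_corZ hS H hH hi hτ)) ?_, ?_, ?_⟩
  · intro c hc
    rw [AddSubgroup.mem_addSubgroupOf] at hc
    obtain ⟨P, hP⟩ := hc
    have hP1 : ∀ x ∈ H, ext0 H c.1 x = S.act x P - P := by
      intro x hx
      rw [ext0_mem _ hx]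
      exact hP ⟨x, hx⟩
    refine (S.cl_zero _).2 ⟨P + S.act τ P, fun g => ?_⟩
    rw [a5_corZ_apply]
    by_cases hg : g ∈ H
    · have h5 : τ⁻¹ * g * τ ∈ H := by rw [hm, hm, hinv]; tauto
      rw [a3_in S H hi hτ _ hg, hP1 g hg, hP1 _ h5, map_sub, map_add, a3_aa, a3_aa, show τ * (τ⁻¹ * g * τ) = g * τ by group]
      abel
    · have h1 : g * τ ∈ H := by rw [hm]; tauto
      have h2 : τ⁻¹ * g ∈ H := by rw [hm, hinv]; tauto
      rw [a3_out S H hi hτ _ hg, hP1 _ h1, hP1 _ h2, map_sub, map_add, a3_aa, a3_aa, show τ * (τ⁻¹ * g) = g by group]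
      abel
  · intro x
    obtain ⟨c, rfl⟩ := S.cl_surj x
    rw [← map_nsmul]
    show S.cl (a5_corZ hS H hH hi hτ ((res_hom S H).mapZ c)) = _
    refine (S.cl_eq _ _).2 ⟨c.1 τ, fun g => ?_⟩
    rw [a5_corZ_apply]
    have hc : ∀ x ∈ H, ext0 H ((res_hom S H).mapZ c).1 x = c.1 x := by
      intro x hx
      rw [ext0_mem _ hx]
      rfl
    have h2c : (2 • c).1 g = c.1 g + c.1 g := by
      rw [two_nsmul]; rfl
    rw [h2c]
    by_cases hg : g ∈ H
    · have h5 : τ⁻¹ * g * τ ∈ H := by rw [hm, hm, hinv]; tauto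
      have h6 : c.1 (g * τ) = c.1 g + S.act g (c.1 τ) := c.2.mul _ _
      have h7 : c.1 (τ * (τ⁻¹ * g * τ)) = c.1 τ + S.act τ (c.1 (τ⁻¹ * g * τ)) := c.2.mul _ _
      rw [show τ * (τ⁻¹ * g * τ) = g * τ by group, h6] at h7
      rw [a3_in S H hi hτ _ hg, hc g hg, hc _ h5, add_assoc, add_right_inj]
      rw [← add_sub_assoc, h7, add_sub_cancel_left]
    · have h1 : g * τ ∈ H := by rw [hm]; tauto
      have h2 : τ⁻¹ * g ∈ H := by rw [hm, hinv]; tauto
      have h6 : c.1 (g * τ) = c.1 g + S.act g (c.1 τ) := c.2.mul _ _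
      have h7 : c.1 (τ * (τ⁻¹ * g)) = c.1 τ + S.act τ (c.1 (τ⁻¹ * g)) := c.2.mul _ _
      rw [show τ * (τ⁻¹ * g) = g by group] at h7
      have h8 : S.act τ (c.1 (τ⁻¹ * g)) = c.1 g - c.1 τ := by rw [h7, add_sub_cancel_left]
      rw [a3_out S H hi hτ _ hg, hc _ h1, hc _ h2, h6, h8]
      abel
  · intro y
    obtain ⟨c, rfl⟩ := (S.res H).cl_surj y
    have h1 : (S.res H).cl c + (conj_hom hS H τ).map ((S.res H).cl c) = (S.res H).cl (c + (conj_hom hS H τ).mapZ c) := by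
      rw [map_add]; rfl
    rw [h1]
    show (S.res H).cl ((res_hom S H).mapZ (a5_corZ hS H hH hi hτ c)) = _
    congr 1
    apply Subtype.ext
    funext g
    show corF S H τ c.1 (g : G) = c.1 g + S.act τ (c.1 (cj H τ g))
    have h5 : τ⁻¹ * (g : G) * τ ∈ H := by
      have := g.2
      rw [hm, hm, hinv]; tauto
    rw [a3_in S H hi hτ _ g.2, ext0_mem _ g.2, ext0_mem _ h5]
    have h6 : (⟨τ⁻¹ * (g : G) * τ, h5⟩ : H) = cj H τ g := Subtype.ext (cj_coe H τ g).symm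
    rw [h6]

end SSG
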