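import Mathlib
import Pool.Agent.Lib.SSG.Z.ZH
import Pool.Agent.Lib.H16C.TR1
import Pool.Agent.Lib.H16F.E3
import Pool.Agent.Lib.H16F.E7a
import Pool.Agent.Lib.H35Q.G6

/-! # SSG/Z: the bridge between completions and valuation rings: definitions -/

open NumberField IsDedekindDomain WeierstrassCurve H16C
open scoped WithZero

namespace SSG

/-- The p-primary part of the Tate-Shafarevich group of W over K (the same as H19A.ShaP). -/
def ShaC (p : ℕ) (K : Type) [Field K] [NumberField K] (W : WeierstrassCurve K) : Type _ :=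
  {z : H16C.Sha W.toAffine (AlgebraicClosure K) // ∃ k : ℕ, (p ^ k : ℕ) • z = 0}

/-- The absolute value of the algebraic closure of the completion at v. -/
noncomputable def nv {K : Type} [Field K] [NumberField K] (v : HeightOneSpectrum (𝓞 K)) (x : AlgebraicClosure (v.adicCompletion K)) : ℝ :=
  letI : NontriviallyNormedField (v.adicCompletion K) := Valued.toNontriviallyNormedField (v.adicCompletion K) ℤᵐ⁰
  spectralNorm (v.adicCompletion K) (AlgebraicClosure (v.adicCompletion K)) x

/-- The valuation ring of Ω attached to an embedding into the algebraic closure of the completion at v. -/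
def IsVal {K : Type} [Field K] [NumberField K] {Ω : Type} [Field Ω] [Algebra K Ω] (v : HeightOneSpectrum (𝓞 K))
    (ι : Ω →ₐ[K] AlgebraicClosure (v.adicCompletion K)) (V : ValuationSubring Ω) : Prop := ∀ x : Ω, x ∈ V ↔ nv v (ι x) ≤ 1

open Classical in
/-- c is trivial on the decomposition groups of the nontrivial valuation rings. -/
def TrivV {K : Type} [Field K] (W : WeierstrassCurve.Affine K) (Ω : Type) [Field Ω] [Algebra K Ω] (c : (Ω ≃ₐ[K] Ω) → Pt W Ω) : Prop :=
  ∀ V : ValuationSubring Ω, V ≠ ⊤ → ∃ P : Pt W Ω, ∀ g : Ω ≃ₐ[K] Ω, H55P.Dec V g → c g = act W Ω g P - P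

end SSG
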