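import Mathlib
import Pool.Agent.Lib.CFT.N01
import Pool.Agent.Lib.H55P.S9
import Pool.Agent.Lib.H55P.S1

/-! Chunk B1 (M). Two valuation rings of Ω with the same trace on K are conjugate. IsGalois K Ω (IsAlgClosure.isGalois). If V ≠ ⊤ (and V' ≠ ⊤; if one is ⊤ then K ⊆ the other and both are ⊤: every x in Ω is algebraic over K, hence integral over K ⊆ V', V' is integrally closed; then g = 1).
PROOF. Q = the prime ideal of 𝓞 Ω of the z with V.valuation z < 1 (ps9Q, ps9_lt, ps9_prime in H55P/S9.lean, namespace H55P), Q' the same for V'. Their intersections with 𝓞 K agree: z in 𝓞 K, z ≠ 0: z in Q iff z⁻¹ not in V, z⁻¹ in K (ValuationSubring.valuation_lt_one_iff or H55P.lt1_iff).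
ST32.exists_smul_eq (CFT/N01.lean) gives g with x in Q iff g x in Q' (or for Q', Q). V is determined by Q: ps9_frac (q a prime number with V.valuation q < 1: exists because V ≠ ⊤, otherwise all prime numbers are units in V, 𝓞 Ω-elements nonzero divide integers (norm), so all of Ω = fractions of 𝓞 Ω is in V): every x in V is a/c with
a, c in 𝓞 Ω, V.valuation c = 1, i.e. c not in Q (ps9_one); g maps it to (g a)/(g c), g c not in Q', so g x in V' (see ps9_dec in H55P/S9.lean). The converse with g⁻¹. -/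

open NumberField IsDedekindDomain

namespace SSG

theorem b1_top {K : Type} [Field K] {Ω : Type} [Field Ω] [Algebra K Ω] [Algebra.IsAlgebraic K Ω] (V : ValuationSubring Ω)
    (h : ∀ x : K, algebraMap K Ω x ∈ V) (x : Ω) : x ∈ V := by
  let φ : K →+* V := (algebraMap K Ω).codRestrict V h
  obtain ⟨f, hf, hfx⟩ : IsIntegral K x := Algebra.IsIntegral.isIntegral x
  have h1 : IsIntegral V x := by
    refine ⟨f.map φ, hf.map φ, ?_⟩
    rw [Polynomial.eval₂_map]
    exact hfx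
  obtain ⟨y, hy⟩ := IsIntegrallyClosed.isIntegral_iff.1 h1
  rw [← hy]
  exact y.2

theorem b1_exists_prime {K : Type} [Field K] [NumberField K] {Ω : Type} [Field Ω] [Algebra K Ω] [Algebra.IsAlgebraic K Ω]
    [CharZero Ω] (V : ValuationSubring Ω) (hV : ∃ x, x ∉ V) : ∃ q : ℕ, q.Prime ∧ V.valuation (q : Ω) < 1 := by
  by_contra hcon
  push Not at hcon
  obtain ⟨x, hx⟩ := hV
  apply hx
  have hle : ∀ n : ℕ, V.valuation (n : Ω) ≤ 1 := fun n => (V.valuation_le_one_iff _).2 (natCast_mem V n)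
  have hn : ∀ n : ℕ, n ≠ 0 → V.valuation (n : Ω) = 1 := by
    intro n
    induction n using induction_on_primes with
    | zero => intro h; exact absurd rfl h
    | one => intro _; rw [Nat.cast_one, map_one]
    | prime_mul p a hp ih =>
      intro h
      have ha : a ≠ 0 := by
        rintro rfl
        exact h (mul_zero _)
      rw [Nat.cast_mul, map_mul, ih ha, mul_one]
      exact le_antisymm (hle p) (hcon p hp)
  have halg : Algebra.IsAlgebraic ℚ Ω := Algebra.IsAlgebraic.trans ℚ K Ω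
  have hx1 : IsAlgebraic ℤ x := (IsFractionRing.isAlgebraic_iff ℤ ℚ Ω).2 (Algebra.IsAlgebraic.isAlgebraic x)
  obtain ⟨d, hd0, hd⟩ := hx1.exists_integral_multiple
  have h1 : V.valuation (d • x) ≤ 1 := H16C.FR_le_one V hd
  have h2 : V.valuation (d : Ω) = 1 := by
    rcases Int.natAbs_eq d with h3 | h3
    · rw [h3, Int.cast_natCast]
      exact hn _ (Int.natAbs_ne_zero.2 hd0)
    · rw [h3, Int.cast_neg, Int.cast_natCast, Valuation.map_neg]
      exact hn _ (Int.natAbs_ne_zero.2 hd0)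
  rw [zsmul_eq_mul, map_mul, h2, one_mul] at h1
  exact (V.valuation_le_one_iff _).1 h1

theorem conj_V {K : Type} [Field K] [NumberField K] {Ω : Type} [Field Ω] [Algebra K Ω] [IsAlgClosed Ω] [Algebra.IsAlgebraic K Ω] [CharZero Ω]
    (V V' : ValuationSubring Ω) (h : ∀ x : K, algebraMap K Ω x ∈ V ↔ algebraMap K Ω x ∈ V') :
    ∃ g : Ω ≃ₐ[K] Ω, ∀ x : Ω, g x ∈ V ↔ x ∈ V' := by
  classical
  by_cases hV : ∃ x, x ∉ V
  swap
  · push Not at hV
    have h1 : ∀ x, x ∈ V' := b1_top V' (fun x => (h x).1 (hV _))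
    exact ⟨1, fun x => ⟨fun _ => h1 x, fun _ => hV _⟩⟩
  by_cases hV' : ∃ x, x ∉ V'
  swap
  · push Not at hV'
    have h1 : ∀ x, x ∈ V := b1_top V (fun x => (h x).2 (hV' _))
    exact ⟨1, fun x => ⟨fun _ => hV' x, fun _ => h1 _⟩⟩
  have hcl : IsAlgClosure K Ω := ⟨inferInstance, inferInstance⟩
  have hG : IsGalois K Ω := IsAlgClosure.isGalois K Ω
  obtain ⟨q', hq', hVq'⟩ := b1_exists_prime (K := K) V' hV'
  have hcomap : (H55P.ps9Q V').comap (algebraMap (𝓞 K) (𝓞 Ω)) = (H55P.ps9Q V).comap (algebraMap (𝓞 K) (𝓞 Ω)) := by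
    ext z
    rw [Ideal.mem_comap, Ideal.mem_comap, H55P.ps9_lt, H55P.ps9_lt, H55P.lt1_iff, H55P.lt1_iff]
    have h1 : ((algebraMap (𝓞 K) (𝓞 Ω) z : 𝓞 Ω) : Ω) = algebraMap K Ω (z : K) := rfl
    rw [h1, ← map_inv₀, h]
  obtain ⟨g, hg⟩ := ST32.exists_smul_eq K Ω (H55P.ps9Q V') (H55P.ps9Q V) (H55P.ps9_prime V') (H55P.ps9_prime V) hcomap
  have hgz : ∀ z : 𝓞 Ω, ((g • z : 𝓞 Ω) : Ω) = g (z : Ω) := fun z => rfl
  have hone : ∀ c : 𝓞 Ω, V'.valuation (c : Ω) = 1 → V.valuation (g (c : Ω)) = 1 := by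
    intro c hc
    have h1 := (H55P.ps9_one V' c).2 hc
    rw [← hgz]
    exact (H55P.ps9_one V _).1 (fun h2 => h1 ((hg c).2 h2))
  have hle : ∀ a : 𝓞 Ω, V.valuation (g (a : Ω)) ≤ 1 := by
    intro a
    rw [← hgz]
    exact (V.valuation_le_one_iff _).2 (H55P.ps9_mem V _)
  refine ⟨g, fun x => ⟨fun hx => ?_, fun hx => ?_⟩⟩
  · by_contra hx'
    have hx0 : x ≠ 0 := by
      rintro rfl
      exact hx' V'.zero_mem
    have h1 : V'.valuation x⁻¹ < 1 := by
      rw [H55P.lt1_iff, inv_inv]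
      exact Or.inr hx'
    obtain ⟨a, c, hc, hac⟩ := H55P.ps9_frac K V' q' hq' hVq' x⁻¹ ((V'.valuation_le_one_iff _).1 h1.le)
    have ha : V'.valuation (a : Ω) < 1 := by
      rw [hac, map_div₀, hc, div_one] at h1
      exact h1
    have ha2 : V.valuation (g (a : Ω)) < 1 := by
      rw [← hgz]
      exact (H55P.ps9_lt V _).1 ((hg a).1 ((H55P.ps9_lt V' a).2 ha))
    have h3 : V.valuation (g x)⁻¹ < 1 := by
      rw [← map_inv₀, hac, map_div₀, map_div₀, hone c hc, div_one]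
      exact ha2
    rw [H55P.lt1_iff, inv_inv] at h3
    rcases h3 with h3 | h3
    · rw [inv_eq_zero, map_eq_zero] at h3
      exact hx0 h3
    · exact h3 hx
  · obtain ⟨a, c, hc, rfl⟩ := H55P.ps9_frac K V' q' hq' hVq' x hx
    rw [← V.valuation_le_one_iff, map_div₀, map_div₀, hone c hc, div_one]
    exact hle a

end SSG
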