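import Mathlib
import Pool.Agent.Lib.SSG.Z.B0
import Pool.Agent.Lib.SSG.Z.B1

/-! Chunk B2 (M). exists_iota: every nontrivial valuation ring V of Ω comes from an embedding ι into the algebraic closure of a completion K_v.
PROOF. V₀ = V ∩ K (V.comap (algebraMap K Ω)) is a valuation ring of K, not K itself (otherwise Ω, algebraic over K, would be integral over K ⊆ V, V integrally closed, V = ⊤). 𝓞 K ⊆ V₀ (integral elements); P = the nonunits of V₀ in 𝓞 K, a nonzero prime ideal = v (nonzero: otherwise all nonzero integers are units, V₀ = K);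
for x in K: x in V₀ iff v.valuation K x ≤ 1: (if v x ≤ 1 then x = a/b with a, b in 𝓞 K, b not in v: IsDedekindDomain.HeightOneSpectrum.. / H16C.frac_rep or IsLocalization at v; so x in V₀; if v x > 1 then v x⁻¹ < 1, x⁻¹ = a/b with a in v, b not in v, so x⁻¹ is a nonunit of V₀, x not in V₀).
ι₀ = IsAlgClosed.lift : Ω →ₐ[K] AlgebraicClosure K_v; the ring V₁ = {x | nv v (ι₀ x) ≤ 1} is a valuation ring ((TR1_val ..).comap ι₀).valuationSubring, see H16F/E7.lean (first 50 lines, the letI / haveI instances) and its trace on K is the same: nv v (algebraMap x) = ‖x‖_v (spectralNorm_extends), ≤ 1 iff v.valuation K x ≤ 1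
(Valued.toNormedField.norm_le_one_iff, valuedAdicCompletion_eq_valuation'). conj_V (B1) gives g with g x in V₁ iff x in V; ι = ι₀ ∘ g.
exists_val: for given v, ι the valuation ring of IsVal exists (the same construction) and is not ⊤ (v contains a prime number q, nv (q⁻¹) > 1). -/

open NumberField IsDedekindDomain WeierstrassCurve H16C

namespace SSG

open scoped WithZero

theorem b2_lt {Γ : Type*} [LinearOrderedCommGroupWithZero Γ] {a b : Γ} (ha : a ≤ 1) (hb : b < 1) : a * b < 1 :=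
  (mul_le_mul_left ha b).trans_lt (by rwa [one_mul])

theorem b2_nv {K : Type} [Field K] [NumberField K] (v : HeightOneSpectrum (𝓞 K)) (x : K) :
    nv v (algebraMap K (AlgebraicClosure (v.adicCompletion K)) x) ≤ 1 ↔ v.valuation K x ≤ 1 := by
  letI : NontriviallyNormedField (v.adicCompletion K) :=
    Valued.toNontriviallyNormedField (v.adicCompletion K) ℤᵐ⁰
  haveI : IsUltrametricDist (v.adicCompletion K) :=
    Valued.instIsUltrametricDist (v.adicCompletion K) ℤᵐ⁰
  show spectralNorm (v.adicCompletion K) (AlgebraicClosure (v.adicCompletion K)) _ ≤ 1 ↔ _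
  have h1 : algebraMap K (AlgebraicClosure (v.adicCompletion K)) x =
      algebraMap (v.adicCompletion K) (AlgebraicClosure (v.adicCompletion K))
        (algebraMap K (v.adicCompletion K) x) :=
    IsScalarTower.algebraMap_apply _ _ _ _
  rw [h1, spectralNorm_extends, Valued.toNormedField.norm_le_one_iff]
  rw [← v.valuedAdicCompletion_eq_valuation' (K := K) x]
  rfl

theorem b2_val {K : Type} [Field K] [NumberField K] {Ω : Type} [Field Ω] [Algebra K Ω] (v : HeightOneSpectrum (𝓞 K))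
    (ι : Ω →ₐ[K] AlgebraicClosure (v.adicCompletion K)) : ∃ V : ValuationSubring Ω, IsVal v ι V := by
  letI : NontriviallyNormedField (v.adicCompletion K) :=
    Valued.toNontriviallyNormedField (v.adicCompletion K) ℤᵐ⁰
  haveI : IsUltrametricDist (v.adicCompletion K) :=
    Valued.instIsUltrametricDist (v.adicCompletion K) ℤᵐ⁰
  refine ⟨((TR1_val (v.adicCompletion K)
    (AlgebraicClosure (v.adicCompletion K))).comap ι.toRingHom).valuationSubring, fun x => ?_⟩
  rw [Valuation.mem_valuationSubring_iff]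
  rfl

theorem b2_int {K : Type} [Field K] {Ω : Type} [Field Ω] [Algebra K Ω] [Algebra.IsAlgebraic K Ω] (V : ValuationSubring Ω)
    (h : ∀ x : K, algebraMap K Ω x ∈ V) : V = ⊤ := by
  ext x
  refine ⟨fun _ => trivial, fun _ => ?_⟩
  obtain ⟨f, hf⟩ : ∃ f : K →+* V, (algebraMap V Ω).comp f = algebraMap K Ω :=
    ⟨(algebraMap K Ω).codRestrict V.toSubring h, rfl⟩
  have h1 : (algebraMap K Ω).IsIntegralElem x := Algebra.IsIntegral.isIntegral (R := K) x
  rw [← hf] at h1
  have h2 : IsIntegral V x := h1.of_comp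
  obtain ⟨y, hy⟩ := (IsIntegrallyClosed.isIntegral_iff (R := V) (K := Ω)).1 h2
  rw [← hy]
  exact y.2

theorem b2_O {K : Type} [Field K] [NumberField K] {Ω : Type} [Field Ω] [Algebra K Ω] (V : ValuationSubring Ω)
    (z : 𝓞 K) : V.valuation (algebraMap K Ω (algebraMap (𝓞 K) K z)) ≤ 1 := by
  rw [ValuationSubring.valuation_le_one_iff]
  have h0 : IsIntegral ℤ (algebraMap K Ω (algebraMap (𝓞 K) K z)) := (RingOfIntegers.isIntegral_coe z).algebraMap
  have h2 : IsIntegral V (algebraMap K Ω (algebraMap (𝓞 K) K z)) := h0.tower_top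
  obtain ⟨y, hy⟩ := (IsIntegrallyClosed.isIntegral_iff (R := V) (K := Ω)).1 h2
  rw [← hy]
  exact y.2

/-- the trace of a valuation ring on the number field. -/
theorem b2_trace {K : Type} [Field K] [NumberField K] {Ω : Type} [Field Ω] [Algebra K Ω] [Algebra.IsAlgebraic K Ω]
    (V : ValuationSubring Ω) (hV : V ≠ ⊤) :
    ∃ v : HeightOneSpectrum (𝓞 K), ∀ x : K, algebraMap K Ω x ∈ V ↔ v.valuation K x ≤ 1 := by
  obtain ⟨w, hw⟩ : ∃ w : Valuation K V.ValueGroup, w = V.valuation.comap (algebraMap K Ω) := ⟨_, rfl⟩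
  have hwx : ∀ x : K, w x = V.valuation (algebraMap K Ω x) := fun x => by rw [hw]; rfl
  have hmem : ∀ x : K, algebraMap K Ω x ∈ V ↔ w x ≤ 1 := fun x => by
    rw [hwx, ValuationSubring.valuation_le_one_iff]
  have hO : ∀ z : 𝓞 K, w (algebraMap (𝓞 K) K z) ≤ 1 := fun z => by rw [hwx]; exact b2_O V z
  -- the prime
  let P : Ideal (𝓞 K) :=
    { carrier := {z | w (algebraMap (𝓞 K) K z) < 1}
      add_mem' := by
        intro a b ha hb
        show w (algebraMap (𝓞 K) K (a + b)) < 1
        rw [map_add]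
        exact (w.map_add _ _).trans_lt (max_lt ha hb)
      zero_mem' := by
        show w (algebraMap (𝓞 K) K 0) < 1
        rw [map_zero, map_zero]
        exact zero_lt_one
      smul_mem' := by
        intro c z hz
        show w (algebraMap (𝓞 K) K (c * z)) < 1
        rw [map_mul, map_mul]
        exact b2_lt (hO c) hz }
  have hP : ∀ z, z ∈ P ↔ w (algebraMap (𝓞 K) K z) < 1 := fun z => Iff.rfl
  have hP1 : ∀ z, z ∉ P → w (algebraMap (𝓞 K) K z) = 1 := fun z hz => le_antisymm (hO z) (not_lt.1 hz)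
  have hprime : P.IsPrime := by
    constructor
    · rw [Ideal.ne_top_iff_one, hP, map_one, map_one]
      exact lt_irrefl _
    · intro a b hab
      by_contra hc
      push Not at hc
      have h1 := hP1 a hc.1
      have h2 := hP1 b hc.2
      rw [hP, map_mul, map_mul, h1, h2, one_mul] at hab
      exact lt_irrefl _ hab
  have hbot : P ≠ ⊥ := by
    intro hb
    apply hV
    apply b2_int (K := K) V
    intro x
    obtain ⟨a, b, hb0, hx⟩ := IsFractionRing.div_surjective (A := 𝓞 K) x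
    have hb' : b ≠ 0 := nonZeroDivisors.ne_zero hb0
    have h1 : w (algebraMap (𝓞 K) K b) = 1 := hP1 b (by rw [hb]; exact hb')
    rw [hmem, ← hx, map_div₀, h1, div_one]
    exact hO a
  obtain ⟨v, hv⟩ : ∃ v : HeightOneSpectrum (𝓞 K), v.asIdeal = P := ⟨⟨P, hprime, hbot⟩, rfl⟩
  refine ⟨v, fun x => ?_⟩
  rw [hmem]
  obtain ⟨n, d, h | h⟩ := HeightOneSpectrum.exists_primeCompl_mul_eq_or_mul_eq v x
  · have hd : (d : 𝓞 K) ∉ P := by rw [← hv]; exact d.2
    have e1 := congrArg w h
    have e2 := congrArg (v.valuation K) h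
    rw [map_mul, hP1 _ hd, mul_one] at e1
    rw [map_mul, v.valuation_eq_one_iff_notMem.2 d.2, mul_one] at e2
    rw [e1, e2]
    exact ⟨fun _ => v.valuation_le_one n, fun _ => hO n⟩
  · have hd : (d : 𝓞 K) ∉ P := by rw [← hv]; exact d.2
    have e1 := congrArg w h
    have e2 := congrArg (v.valuation K) h
    rw [map_mul, hP1 _ hd] at e1
    rw [map_mul, v.valuation_eq_one_iff_notMem.2 d.2] at e2
    by_cases hn : n ∈ P
    · have h1 : w (algebraMap (𝓞 K) K n) < 1 := hn
      have h2 : v.valuation K (algebraMap (𝓞 K) K n) < 1 := (v.valuation_lt_one_iff_mem (K := K) n).2 (by rw [hv]; exact hn)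
      constructor
      · intro h3
        exact absurd e1 (b2_lt h3 h1).ne
      · intro h3
        exact absurd e2 (b2_lt h3 h2).ne
    · rw [hP1 n hn, mul_one] at e1
      rw [v.valuation_eq_one_iff_notMem.2 (by rw [hv]; exact hn), mul_one] at e2
      rw [e1, e2]
      exact ⟨fun _ => le_rfl, fun _ => le_rfl⟩

theorem exists_val {K : Type} [Field K] [NumberField K] {Ω : Type} [Field Ω] [Algebra K Ω] (v : HeightOneSpectrum (𝓞 K))
    (ι : Ω →ₐ[K] AlgebraicClosure (v.adicCompletion K)) : ∃ V : ValuationSubring Ω, V ≠ ⊤ ∧ IsVal v ι V := by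
  obtain ⟨V, hV⟩ := b2_val v ι
  refine ⟨V, ?_, hV⟩
  intro htop
  obtain ⟨z, hz, hz0⟩ := Submodule.exists_mem_ne_zero_of_ne_bot v.ne_bot
  have hz0' : (algebraMap (𝓞 K) K z) ≠ 0 := by
    intro h
    exact hz0 ((FaithfulSMul.algebraMap_injective (𝓞 K) K) (h.trans (map_zero _).symm))
  have h1 : v.valuation K (algebraMap (𝓞 K) K z) < 1 := (v.valuation_lt_one_iff_mem (K := K) z).2 hz
  have h2 : algebraMap K Ω (algebraMap (𝓞 K) K z)⁻¹ ∈ V := by rw [htop]; trivial
  rw [hV, ι.commutes, b2_nv, map_inv₀] at h2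
  have h3 : v.valuation K (algebraMap (𝓞 K) K z) ≠ 0 := (Valuation.ne_zero_iff _).2 hz0'
  have h4 : (v.valuation K (algebraMap (𝓞 K) K z))⁻¹ * v.valuation K (algebraMap (𝓞 K) K z) < 1 := by
    calc _ ≤ 1 * v.valuation K (algebraMap (𝓞 K) K z) := mul_le_mul_left h2 _
      _ < 1 := by rwa [one_mul]
  rw [inv_mul_cancel₀ h3] at h4
  exact lt_irrefl _ h4

theorem exists_iota {K : Type} [Field K] [NumberField K] {Ω : Type} [Field Ω] [Algebra K Ω] [IsAlgClosed Ω] [Algebra.IsAlgebraic K Ω] [CharZero Ω]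
    (V : ValuationSubring Ω) (hV : V ≠ ⊤) :
    ∃ (v : HeightOneSpectrum (𝓞 K)) (ι : Ω →ₐ[K] AlgebraicClosure (v.adicCompletion K)), IsVal v ι V := by
  obtain ⟨v, hv⟩ := b2_trace (K := K) V hV
  obtain ⟨ι₀⟩ : Nonempty (Ω →ₐ[K] AlgebraicClosure (v.adicCompletion K)) := ⟨IsAlgClosed.lift⟩
  obtain ⟨V₁, hV₁⟩ := b2_val v ι₀
  obtain ⟨g, hg⟩ := conj_V (K := K) V₁ V (fun x => by
    rw [hv, hV₁, ι₀.commutes, b2_nv])
  refine ⟨v, ι₀.comp (g : Ω →ₐ[K] Ω), fun x => ?_⟩
  rw [← hg x, hV₁]
  rfl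

end SSG
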