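import Mathlib
import Pool.Agent.Lib.SSG.Z.B0

/-! Chunk B3 (M). Decomposition groups and isometries. nv v is multiplicative and ultrametric, nv v (σ x) = nv v x for σ over K_v (spectralNorm_eq_of_equiv), nv v x = 0 iff x = 0: see H16C/TR1.lean (TR1_val) and H16F/E7.lean for the letI / haveI instances.
ext_of_dec: g in Dec V (g x in V iff x in V). CLAIM nv (ι (g x)) ≤ nv (ι x) for all x (then also for g⁻¹, so equality). x = 0 clear. Suppose nv(ι(g x)) > nv(ι x) > 0. Choose π in K with 0 < nv π < 1 (a nonzero element of v) and k with (nv(ι(g x))/nv(ι x))^k > 1/nv π. Choose an integer j with nv(ι x)^k ≤ (nv π)^j < nv(ι x)^k / nv π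
(exists_mem_Ico_zpow or similar) and z = x^k / π^j: nv(ι z) ≤ 1, so z in V, g z in V, but nv(ι(g z)) = nv(ι(g x))^k / (nv π)^j > nv(ι(g x))^k nv π / nv(ι x)^k > 1, contradiction. Now H16F.exists_ext with H16F.dense_adic v.
dec_of_ext: nv(ι(g x)) = nv(σ(ι x)) = nv(ι x). -/

open NumberField IsDedekindDomain WeierstrassCurve H16C

namespace SSG

open scoped WithZero

section gen

variable {K : Type} [Field K] [NumberField K] (v : HeightOneSpectrum (𝓞 K))

theorem b3_mul (x y : AlgebraicClosure (v.adicCompletion K)) : nv v (x * y) = nv v x * nv v y := by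
  letI : NontriviallyNormedField (v.adicCompletion K) :=
    Valued.toNontriviallyNormedField (v.adicCompletion K) ℤᵐ⁰
  haveI : IsUltrametricDist (v.adicCompletion K) :=
    Valued.instIsUltrametricDist (v.adicCompletion K) ℤᵐ⁰
  exact congrArg (fun t : NNReal => (t : ℝ))
    (map_mul (TR1_val (v.adicCompletion K) (AlgebraicClosure (v.adicCompletion K))) x y)

theorem b3_one : nv v (1 : AlgebraicClosure (v.adicCompletion K)) = 1 := by
  letI : NontriviallyNormedField (v.adicCompletion K) :=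
    Valued.toNontriviallyNormedField (v.adicCompletion K) ℤᵐ⁰
  haveI : IsUltrametricDist (v.adicCompletion K) :=
    Valued.instIsUltrametricDist (v.adicCompletion K) ℤᵐ⁰
  exact congrArg (fun t : NNReal => (t : ℝ))
    (map_one (TR1_val (v.adicCompletion K) (AlgebraicClosure (v.adicCompletion K))))

theorem b3_nonneg (x : AlgebraicClosure (v.adicCompletion K)) : 0 ≤ nv v x := by
  letI : NontriviallyNormedField (v.adicCompletion K) :=
    Valued.toNontriviallyNormedField (v.adicCompletion K) ℤᵐ⁰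
  haveI : IsUltrametricDist (v.adicCompletion K) :=
    Valued.instIsUltrametricDist (v.adicCompletion K) ℤᵐ⁰
  exact ((TR1_val (v.adicCompletion K) (AlgebraicClosure (v.adicCompletion K))) x).2

theorem b3_zero : nv v (0 : AlgebraicClosure (v.adicCompletion K)) = 0 := by
  letI : NontriviallyNormedField (v.adicCompletion K) :=
    Valued.toNontriviallyNormedField (v.adicCompletion K) ℤᵐ⁰
  haveI : IsUltrametricDist (v.adicCompletion K) :=
    Valued.instIsUltrametricDist (v.adicCompletion K) ℤᵐ⁰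
  exact congrArg (fun t : NNReal => (t : ℝ))
    (map_zero (TR1_val (v.adicCompletion K) (AlgebraicClosure (v.adicCompletion K))))

theorem b3_pos {x : AlgebraicClosure (v.adicCompletion K)} (hx : x ≠ 0) : 0 < nv v x := by
  refine lt_of_le_of_ne (b3_nonneg v x) ?_
  intro h
  have h1 : nv v (x * x⁻¹) = 0 := by rw [b3_mul, ← h, zero_mul]
  rw [mul_inv_cancel₀ hx, b3_one] at h1
  exact one_ne_zero h1

theorem b3_equiv (σ : AlgebraicClosure (v.adicCompletion K) ≃ₐ[v.adicCompletion K]
    AlgebraicClosure (v.adicCompletion K)) (x : AlgebraicClosure (v.adicCompletion K)) :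
    nv v (σ x) = nv v x := by
  letI : NontriviallyNormedField (v.adicCompletion K) :=
    Valued.toNontriviallyNormedField (v.adicCompletion K) ℤᵐ⁰
  haveI : IsUltrametricDist (v.adicCompletion K) :=
    Valued.instIsUltrametricDist (v.adicCompletion K) ℤᵐ⁰
  exact (spectralNorm_eq_of_equiv σ x).symm

/-- The absolute value as a monoid homomorphism. -/
noncomputable def b3_hom : AlgebraicClosure (v.adicCompletion K) →*₀ ℝ where
  toFun := nv v
  map_zero' := b3_zero v
  map_one' := b3_one v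
  map_mul' := b3_mul v

theorem b3_hom_apply (x : AlgebraicClosure (v.adicCompletion K)) : b3_hom v x = nv v x := rfl

/-- An element of K with absolute value between 0 and 1. -/
theorem b3_unif : ∃ π : K, π ≠ 0 ∧
    nv v (algebraMap K (AlgebraicClosure (v.adicCompletion K)) π) < 1 := by
  letI : NontriviallyNormedField (v.adicCompletion K) :=
    Valued.toNontriviallyNormedField (v.adicCompletion K) ℤᵐ⁰
  haveI : IsUltrametricDist (v.adicCompletion K) :=
    Valued.instIsUltrametricDist (v.adicCompletion K) ℤᵐ⁰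
  obtain ⟨π0, hπ0⟩ := v.valuation_exists_uniformizer K
  have hπ : Valued.v (algebraMap K (v.adicCompletion K) π0) = WithZero.exp (-1 : ℤ) := by
    rw [← hπ0]
    exact HeightOneSpectrum.valuedAdicCompletion_eq_valuation' v π0
  refine ⟨π0, ?_, ?_⟩
  · rintro rfl
    rw [map_zero, map_zero] at hπ
    exact WithZero.exp_ne_zero hπ.symm
  · have h1 : algebraMap K (AlgebraicClosure (v.adicCompletion K)) π0 =
        algebraMap (v.adicCompletion K) (AlgebraicClosure (v.adicCompletion K))
          (algebraMap K (v.adicCompletion K) π0) :=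
      IsScalarTower.algebraMap_apply _ _ _ _
    rw [h1]
    have h2 : nv v (algebraMap (v.adicCompletion K) (AlgebraicClosure (v.adicCompletion K))
        (algebraMap K (v.adicCompletion K) π0)) = ‖algebraMap K (v.adicCompletion K) π0‖ :=
      spectralNorm_extends _
    rw [h2]
    refine Valued.toNormedField.norm_lt_one_iff.2 ?_
    rw [hπ, ← WithZero.exp_zero, WithZero.exp_lt_exp]
    omega

end gen

theorem b3_le {K : Type} [Field K] [NumberField K] {Ω : Type} [Field Ω] [Algebra K Ω] {v : HeightOneSpectrum (𝓞 K)}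
    {ι : Ω →ₐ[K] AlgebraicClosure (v.adicCompletion K)} {V : ValuationSubring Ω} (hV : IsVal v ι V) {g : Ω ≃ₐ[K] Ω} (hg : H55P.Dec V g)
    (x : Ω) : nv v (ι (g x)) ≤ nv v (ι x) := by
  by_contra hlt
  rw [not_le] at hlt
  have hx : x ≠ 0 := by
    rintro rfl
    simp only [map_zero] at hlt
    exact lt_irrefl _ hlt
  have ha : 0 < nv v (ι x) := b3_pos v ((map_ne_zero ι).2 hx)
  obtain ⟨π, hπ0, hπ1⟩ := b3_unif v
  have hc : 0 < nv v (algebraMap K (AlgebraicClosure (v.adicCompletion K)) π) :=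
    b3_pos v ((map_ne_zero _).2 hπ0)
  obtain ⟨c, hcd⟩ : ∃ c : ℝ, c = (nv v (algebraMap K (AlgebraicClosure (v.adicCompletion K)) π))⁻¹ :=
    ⟨_, rfl⟩
  have hc1 : 1 < c := by
    rw [hcd]
    exact (one_lt_inv₀ hc).2 hπ1
  obtain ⟨k, hk⟩ := pow_unbounded_of_one_lt c ((one_lt_div ha).2 hlt)
  obtain ⟨n, hn1, hn2⟩ := exists_mem_Ioc_zpow (pow_pos ha k) hc1
  obtain ⟨w, hw⟩ : ∃ w : K, w = (π⁻¹) ^ (n + 1) := ⟨_, rfl⟩
  have hNw : nv v (algebraMap K (AlgebraicClosure (v.adicCompletion K)) w) = c ^ (n + 1) := by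
    rw [hw, map_zpow₀, map_inv₀, ← b3_hom_apply, map_zpow₀, map_inv₀, b3_hom_apply, ← hcd]
  have hcn : 0 < c ^ (n + 1) := zpow_pos (zero_lt_one.trans hc1) _
  have hval : ∀ y : Ω, nv v (ι (y ^ k / algebraMap K Ω w)) = nv v (ι y) ^ k / c ^ (n + 1) := by
    intro y
    rw [map_div₀, map_pow, ι.commutes, ← b3_hom_apply, map_div₀, map_pow, b3_hom_apply,
      b3_hom_apply, hNw]
  have hz : x ^ k / algebraMap K Ω w ∈ V := by
    rw [hV, hval, div_le_one hcn]
    exact hn2
  have hgz : g (x ^ k / algebraMap K Ω w) ∈ V := (hg _).2 hz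
  rw [map_div₀, map_pow, g.commutes, hV, hval, div_le_one hcn] at hgz
  have h5 : c ^ (n + 1) = c * c ^ n := by
    rw [zpow_add_one₀ (zero_lt_one.trans hc1).ne', mul_comm]
  rw [div_pow, lt_div_iff₀ (pow_pos ha k)] at hk
  have h6 : c * c ^ n < c * nv v (ι x) ^ k := (mul_lt_mul_iff_right₀ (zero_lt_one.trans hc1)).2 hn1
  rw [h5] at hgz
  linarith

theorem ext_of_dec {K : Type} [Field K] [NumberField K] {Ω : Type} [Field Ω] [Algebra K Ω] {v : HeightOneSpectrum (𝓞 K)}
    {ι : Ω →ₐ[K] AlgebraicClosure (v.adicCompletion K)} {V : ValuationSubring Ω} (hV : IsVal v ι V) {g : Ω ≃ₐ[K] Ω} (hg : H55P.Dec V g) :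
    ∃ σ : AlgebraicClosure (v.adicCompletion K) ≃ₐ[v.adicCompletion K] AlgebraicClosure (v.adicCompletion K), ∀ x, ι (g x) = σ (ι x) := by
  have hg' : H55P.Dec V g⁻¹ := by
    intro x
    have h1 := hg (g⁻¹ x)
    have h2 : g (g⁻¹ x) = x := g.apply_symm_apply x
    rw [h2] at h1
    exact h1.symm
  have heq : ∀ x, nv v (ι (g x)) = nv v (ι x) := by
    intro x
    refine le_antisymm (b3_le hV hg x) ?_
    have h1 := b3_le hV hg' (g x)
    have h2 : g⁻¹ (g x) = x := g.symm_apply_apply x
    rw [h2] at h1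
    exact h1
  letI : NontriviallyNormedField (v.adicCompletion K) :=
    Valued.toNontriviallyNormedField (v.adicCompletion K) ℤᵐ⁰
  haveI : IsUltrametricDist (v.adicCompletion K) :=
    Valued.instIsUltrametricDist (v.adicCompletion K) ℤᵐ⁰
  exact H16F.exists_ext (H16F.dense_adic v) ι g heq

theorem dec_of_ext {K : Type} [Field K] [NumberField K] {Ω : Type} [Field Ω] [Algebra K Ω] {v : HeightOneSpectrum (𝓞 K)}
    {ι : Ω →ₐ[K] AlgebraicClosure (v.adicCompletion K)} {V : ValuationSubring Ω} (hV : IsVal v ι V) {g : Ω ≃ₐ[K] Ω}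
    (σ : AlgebraicClosure (v.adicCompletion K) ≃ₐ[v.adicCompletion K] AlgebraicClosure (v.adicCompletion K)) (h : ∀ x, ι (g x) = σ (ι x)) :
    H55P.Dec V g := by
  intro x
  rw [hV, hV, h, b3_equiv]

end SSG
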