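import Mathlib

/-! Chunk C1 (S). Nearness of roots. L an algebraically closed normed field (the norm is multiplicative). p monic of degree n ≥ 1 splits: p = ∏ (X - r) over p.roots (IsAlgClosed.splits, Polynomial.Splits ... eq_prod_roots_of_monic or Polynomial.eq_prod_roots_of_splits / prod_multiset_X_sub_C_of_monic_of_roots_card_eq).
So ‖p.eval x‖ = ∏ ‖x - r‖; if all factors are ≥ ε then the product is ≥ ε ^ card roots = ε ^ natDegree. -/

open Polynomial

namespace SSG

theorem c1_prod (s : Multiset ℝ) {ε : ℝ} (hε : 0 < ε) (h : ∀ x ∈ s, ε ≤ x) : ε ^ (Multiset.card s) ≤ s.prod := by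
  induction s using Multiset.induction_on with
  | empty => simp
  | cons a s ih =>
    rw [Multiset.card_cons, Multiset.prod_cons, pow_succ']
    have h1 := ih (fun x hx => h x (Multiset.mem_cons_of_mem hx))
    have h2 := h a (Multiset.mem_cons_self a s)
    exact mul_le_mul h2 h1 (by positivity) (by linarith)

theorem root_close {L : Type} [NormedField L] [IsAlgClosed L] {q : L[X]} (hq : q.Monic) (hd : 0 < q.natDegree) {x : L} {ε : ℝ} (hε : 0 < ε)
    (h : ‖q.eval x‖ < ε ^ q.natDegree) : ∃ r : L, q.eval r = 0 ∧ ‖x - r‖ < ε := by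
  by_contra hc
  push Not at hc
  have hs := IsAlgClosed.splits q
  have hcard : Multiset.card q.roots = q.natDegree := hs.natDegree_eq_card_roots.symm
  have hprod := Polynomial.prod_multiset_X_sub_C_of_monic_of_roots_card_eq hq hcard
  have he : q.eval x = (q.roots.map (fun r => x - r)).prod := by
    conv_lhs => rw [← hprod]
    rw [Polynomial.eval_multiset_prod, Multiset.map_map]
    congr 1
    apply Multiset.map_congr rfl
    intro r _
    simp
  have hn : ‖q.eval x‖ = (q.roots.map (fun r => ‖x - r‖)).prod := by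
    have h3 := map_multiset_prod (normHom : L →*₀ ℝ) (q.roots.map (fun r => x - r))
    rw [Multiset.map_map] at h3
    rw [he]
    exact h3
  have h2 := c1_prod (q.roots.map (fun r => ‖x - r‖)) hε (by
    intro y hy
    rw [Multiset.mem_map] at hy
    obtain ⟨r, hr, rfl⟩ := hy
    exact hc r ((Polynomial.mem_roots hq.ne_zero).mp hr))
  rw [Multiset.card_map, hcard] at h2
  linarith

/-- Square roots near y: y'^2 = b close to y^2. -/
theorem sqrt_close {L : Type} [NormedField L] [IsAlgClosed L] {y b : L} {ε : ℝ} (hε : 0 < ε) (h : ‖y ^ 2 - b‖ < ε ^ 2) :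
    ∃ y' : L, y' ^ 2 = b ∧ ‖y - y'‖ < ε := by
  obtain ⟨z, hz⟩ := IsAlgClosed.exists_pow_nat_eq b (n := 2) (by norm_num)
  have h1 : ‖y - z‖ * ‖y + z‖ < ε ^ 2 := by
    rw [← norm_mul]
    have : (y - z) * (y + z) = y ^ 2 - b := by rw [← hz]; ring
    rw [this]
    exact h
  by_cases h2 : ‖y - z‖ < ε
  · exact ⟨z, hz, h2⟩
  · refine ⟨-z, by rw [neg_sq, hz], ?_⟩
    rw [sub_neg_eq_add]
    by_contra h3
    push Not at h2 h3
    nlinarith [norm_nonneg (y - z), norm_nonneg (y + z)]

end SSG
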