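import Mathlib
import Pool.Agent.Lib.H16C.T1
import Pool.Agent.Lib.SSG.Z.C1

/-! Chunk C2 (M). Division near Q. L an algebraically closed normed field of characteristic 0, V a short elliptic curve over L, Q a point with k Q ≠ 0 for 0 < k ≤ n, a = xc (n Q). For a' near a there is a point Q' near Q with xc (n Q') = a'.
PROOF. xc_smul (H16C/T1.lean): (ΨSq n)(X) ≠ 0 and a (ΨSq n)(X) = (Φ n)(X), X = xc Q. The polynomial h = Φ n - C a' * ΨSq n is monic of degree n^2 > 0 (natDegree_Φ, leadingCoeff_Φ, natDegree_ΨSq_le, see the proof of divisible in H16C/T1.lean) and h(X) = (a - a') (ΨSq n)(X): root_close gives a root X' near X.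
Y = yc Q, Y^2 = X^3 + A X + B (eqn); X' ↦ X'^3 + A X' + B is continuous, so sqrt_close gives Y' near Y with Y'^2 = X'^3 + A X' + B; Q' = the point (X', Y') (exists_pt). The set of the points P ≠ 0 with k P = 0 for some 0 < k ≤ n is finite (tors_finite); their x-coordinates are different from X
(xc P = X gives P = ±Q, xc_eq), so for X' nearer to X than all of them k Q' ≠ 0 for 0 < k ≤ n; xc_smul for Q': xc (n Q') (ΨSq n)(X') = (Φ n)(X') = a' (ΨSq n)(X') and (ΨSq n)(X') ≠ 0, so xc (n Q') = a'.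
Organise with eps-delta: first choose ε' ≤ ε for X' (continuity of the cubic, finitely many points), then δ with δ ‖ΨSq n (X)‖ < ε' ^ (n^2). -/

open WeierstrassCurve Polynomial H16C

namespace SSG

theorem c2_monic {L : Type} [Field L] (V : WeierstrassCurve.Affine L) (n : ℕ) (hn : 0 < n) (a : L) :
    (V.Φ n - Polynomial.C a * V.ΨSq n).Monic ∧ (V.Φ n - Polynomial.C a * V.ΨSq n).natDegree = n ^ 2 := by
  have hp : 0 < n ^ 2 := by positivity
  have hlt : (Polynomial.C a * V.ΨSq n).natDegree < n ^ 2 := by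
    refine (natDegree_C_mul_le _ _).trans_lt ((V.natDegree_ΨSq_le n).trans_lt ?_)
    rw [Int.natAbs_natCast]
    omega
  have h1 : (V.Φ n - C a * V.ΨSq n).coeff (n ^ 2) = 1 := by
    have h2 := V.coeff_Φ n
    rw [Int.natAbs_natCast] at h2
    rw [coeff_sub, h2, coeff_eq_zero_of_natDegree_lt hlt, sub_zero]
  have h2 : (V.Φ n - C a * V.ΨSq n).natDegree ≤ n ^ 2 := by
    refine (natDegree_sub_le _ _).trans (max_le ?_ hlt.le)
    have h3 := V.natDegree_Φ_le n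
    rwa [Int.natAbs_natCast] at h3
  refine ⟨monic_of_natDegree_le_of_coeff_eq_one (n ^ 2) h2 h1, le_antisymm h2 ?_⟩
  exact le_natDegree_of_ne_zero (by rw [h1]; exact one_ne_zero)

open Classical in
theorem div_close {L : Type} [NormedField L] [IsAlgClosed L] [CharZero L] (V : WeierstrassCurve.Affine L) [V.IsShortNF] [V.IsElliptic] (n : ℕ)
    (hn : 0 < n) (Q : V.Point) (hQ : ∀ k : ℕ, 0 < k → k ≤ n → k • Q ≠ 0) {ε : ℝ} (hε : 0 < ε) :
    ∃ δ : ℝ, 0 < δ ∧ ∀ a' : L, ‖a' - xc (n • Q)‖ < δ → ∃ Q' : V.Point, Q' ≠ 0 ∧ (∀ k : ℕ, 0 < k → k ≤ n → k • Q' ≠ 0) ∧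
      ‖xc Q' - xc Q‖ < ε ∧ ‖yc Q' - yc Q‖ < ε ∧ xc (n • Q') = a' ∧ ((V.Φ n) - Polynomial.C a' * (V.ΨSq n)).eval (xc Q') = 0 := by
  have hQ0 : Q ≠ 0 := by
    have := hQ 1 one_pos hn
    rwa [one_nsmul] at this
  have hB : {P : V.Point | ∃ k : ℕ, 0 < k ∧ k ≤ n ∧ k • P = 0}.Finite := by
    apply Set.Finite.subset (Set.Finite.biUnion (Finset.finite_toSet (Finset.Icc 1 n))
      (fun k (hk : k ∈ ((Finset.Icc 1 n : Finset ℕ) : Set ℕ)) => tors_finite V k (by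
        rw [Finset.mem_coe, Finset.mem_Icc] at hk
        omega)))
    rintro P ⟨k, h1, h2, h3⟩
    rw [Set.mem_iUnion₂]
    exact ⟨k, Finset.mem_coe.mpr (Finset.mem_Icc.mpr ⟨h1, h2⟩), h3⟩
  have hS : (xc '' {P : V.Point | P ≠ 0 ∧ ∃ k : ℕ, 0 < k ∧ k ≤ n ∧ k • P = 0}).Finite :=
    (hB.subset (fun P hP => hP.2)).image _
  have hXS : xc Q ∈ (xc '' {P : V.Point | P ≠ 0 ∧ ∃ k : ℕ, 0 < k ∧ k ≤ n ∧ k • P = 0})ᶜ := by
    rintro ⟨P, ⟨hP0, k, hk1, hk2, hk3⟩, hPx⟩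
    rcases xc_eq hP0 hQ0 hPx with h | h
    · exact hQ k hk1 hk2 (h ▸ hk3)
    · apply hQ k hk1 hk2
      rw [h, smul_neg, neg_eq_zero] at hk3
      exact hk3
  obtain ⟨e1, he1, hb1⟩ := Metric.isOpen_iff.mp hS.isClosed.isOpen_compl _ hXS
  have hcont : ContinuousAt (fun x : L => x ^ 3 + V.a₄ * x + V.a₆) (xc Q) := by fun_prop
  obtain ⟨e2, he2, hb2⟩ := Metric.continuousAt_iff.mp hcont (ε ^ 2) (by positivity)
  obtain ⟨hΨ, hΦ⟩ := xc_smul n hn hQ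
  have hD : 0 < ‖(V.ΨSq n).eval (xc Q)‖ := norm_pos_iff.mpr hΨ
  have hε' : 0 < min ε (min e1 e2) := lt_min hε (lt_min he1 he2)
  refine ⟨(min ε (min e1 e2)) ^ (n ^ 2) / ‖(V.ΨSq n).eval (xc Q)‖, by positivity, fun a' ha' => ?_⟩
  obtain ⟨hm, hdeg⟩ := c2_monic V n hn a'
  have hval : ‖(V.Φ n - Polynomial.C a' * V.ΨSq n).eval (xc Q)‖ < (min ε (min e1 e2)) ^ (V.Φ n - Polynomial.C a' * V.ΨSq n).natDegree := by
    rw [hdeg, eval_sub, eval_mul, eval_C, ← hΦ, ← sub_mul, norm_mul, norm_sub_rev]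
    rwa [lt_div_iff₀ hD] at ha'
  obtain ⟨x', hx', hxd⟩ := root_close hm (by rw [hdeg]; positivity) hε' hval
  rw [lt_min_iff, lt_min_iff] at hxd
  have hy1 := hb2 (show dist x' (xc Q) < e2 by rw [dist_eq_norm, norm_sub_rev]; exact hxd.2.2)
  rw [dist_eq_norm, ← eqn hQ0, norm_sub_rev] at hy1
  obtain ⟨y', hy', hyd⟩ := sqrt_close hε hy1
  obtain ⟨Q', hQ'0, rfl, rfl⟩ := exists_pt x' y' hy'
  have hk : ∀ k : ℕ, 0 < k → k ≤ n → k • Q' ≠ 0 := by
    intro k hk1 hk2 hk3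
    have h3 : xc Q' ∈ Metric.ball (xc Q) e1 := by
      rw [Metric.mem_ball, dist_eq_norm, norm_sub_rev]
      exact hxd.2.1
    exact hb1 h3 ⟨Q', ⟨hQ'0, k, hk1, hk2, hk3⟩, rfl⟩
  refine ⟨Q', hQ'0, hk, by rw [norm_sub_rev]; exact hxd.1, by rw [norm_sub_rev]; exact hyd, ?_, hx'⟩
  obtain ⟨h4, h5⟩ := xc_smul n hn hk
  rw [eval_sub, eval_mul, eval_C, sub_eq_zero] at hx'
  rw [hx'] at h5
  exact mul_right_cancel₀ h4 h5

end SSG
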