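import Mathlib
import Pool.Agent.Lib.H16C.T1

/-! Chunk C3 (M). Translations are continuous. For t ≠ 0 and P ≠ 0 with xc P ≠ xc t: xc (P + t) = ((yc P - yc t) / (xc P - xc t))^2 - xc P - xc t (D1_xc_add in H16C/D1.lean), yc (P + t) = -(λ (xc (P + t) - xc P) + yc P) (prove it: see H16C/D1.lean; or from D1_xc_add for the three collinear points P, t, -(P + t)).
Both are continuous functions of (xc P, yc P) at (xc Q, yc Q) (ContinuousAt, Metric.continuousAt_iff; fun_prop with the denominator nonzero). Q ≠ t and Q ≠ -t give xc Q ≠ xc t (xc_eq) and Q + t ≠ 0; for P near Q: xc P ≠ xc t, so P ≠ ±t and P + t ≠ 0. t = 0: trivial. T is finite: take the minimum of the δ (induction on T). -/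

open WeierstrassCurve H16C

namespace SSG

open Classical in
theorem c3_yc_add {L : Type} [NormedField L] (V : WeierstrassCurve.Affine L) [V.IsShortNF] {P Q : V.Point} (hP : P ≠ 0) (hQ : Q ≠ 0)
    (h : xc P ≠ xc Q) :
    yc (P + Q) = -(((yc P - yc Q) / (xc P - xc Q)) * ((((yc P - yc Q) / (xc P - xc Q)) ^ 2 - xc P - xc Q) - xc P) + yc P) := by
  rcases P with _ | ⟨x, y, h1⟩
  · exact absurd rfl hP
  rcases Q with _ | ⟨x', y', h2⟩
  · exact absurd rfl hQ
  change x ≠ x' at h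
  rw [WeierstrassCurve.Affine.Point.add_of_X_ne h]
  change V.addY x x' y (V.slope x x' y y') = -(((y - y') / (x - x')) * ((((y - y') / (x - x')) ^ 2 - x - x') - x) + y)
  rw [WeierstrassCurve.Affine.slope_of_X_ne h, WeierstrassCurve.Affine.addY, WeierstrassCurve.Affine.negAddY,
    WeierstrassCurve.Affine.addX, D1_negY, a₁_of_isShortNF, a₂_of_isShortNF]
  ring

open Classical in
theorem c3_one {L : Type} [NormedField L] (V : WeierstrassCurve.Affine L) [V.IsShortNF] [V.IsElliptic] (Q : V.Point) (hQ : Q ≠ 0)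
    (t : V.Point) (ht : Q ≠ t ∧ Q ≠ -t) {ε : ℝ} (hε : 0 < ε) :
    ∃ δ : ℝ, 0 < δ ∧ ∀ P : V.Point, P ≠ 0 → ‖xc P - xc Q‖ < δ → ‖yc P - yc Q‖ < δ → 
      P + t ≠ 0 ∧ ‖xc (P + t) - xc (Q + t)‖ < ε ∧ ‖yc (P + t) - yc (Q + t)‖ < ε := by
  by_cases ht0 : t = 0
  · subst ht0
    refine ⟨ε, hε, fun P hP h1 h2 => ?_⟩
    rw [add_zero, add_zero]
    exact ⟨hP, h1, h2⟩
  · have hx : xc Q ≠ xc t := by
      intro h
      rcases xc_eq hQ ht0 h with h1 | h1
      · exact ht.1 h1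
      · exact ht.2 h1
    have hx' : xc Q - xc t ≠ 0 := sub_ne_zero.mpr hx
    let F : L × L → L := fun z => ((z.2 - yc t) / (z.1 - xc t)) ^ 2 - z.1 - xc t
    let G : L × L → L := fun z => -(((z.2 - yc t) / (z.1 - xc t)) * ((((z.2 - yc t) / (z.1 - xc t)) ^ 2 - z.1 - xc t) - z.1) + z.2)
    have hs : ContinuousAt (fun z : L × L => (z.2 - yc t) / (z.1 - xc t)) (xc Q, yc Q) :=
      ContinuousAt.div (by fun_prop) (by fun_prop) hx'
    have hF : ContinuousAt F (xc Q, yc Q) := ((hs.pow 2).sub continuousAt_fst).sub continuousAt_const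
    have hG : ContinuousAt G (xc Q, yc Q) := ((hs.mul (hF.sub continuousAt_fst)).add continuousAt_snd).neg
    obtain ⟨d1, hd1, h1⟩ := Metric.continuousAt_iff.mp hF ε hε
    obtain ⟨d2, hd2, h2⟩ := Metric.continuousAt_iff.mp hG ε hε
    have h3 : 0 < ‖xc Q - xc t‖ := norm_pos_iff.mpr hx'
    refine ⟨min (min d1 d2) ‖xc Q - xc t‖, lt_min (lt_min hd1 hd2) h3, fun P hP hPx hPy => ?_⟩
    rw [lt_min_iff, lt_min_iff] at hPx hPy
    have hxt : xc P ≠ xc t := by
      intro h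
      have := hPx.2
      rw [h, norm_sub_rev] at this
      exact lt_irrefl _ this
    have hd : ∀ d : ℝ, ‖xc P - xc Q‖ < d → ‖yc P - yc Q‖ < d → dist ((xc P, yc P) : L × L) (xc Q, yc Q) < d := by
      intro d h4 h5
      rw [Prod.dist_eq, max_lt_iff, dist_eq_norm, dist_eq_norm]
      exact ⟨h4, h5⟩
    have e1 := h1 (hd d1 hPx.1.1 hPy.1.1)
    have e2 := h2 (hd d2 hPx.1.2 hPy.1.2)
    rw [dist_eq_norm] at e1 e2
    refine ⟨(ne_zero_of_xc_ne hP ht0 hxt).1, ?_, ?_⟩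
    · rw [D1_xc_add hP ht0 hxt, D1_xc_add hQ ht0 hx]
      exact e1
    · rw [c3_yc_add V hP ht0 hxt, c3_yc_add V hQ ht0 hx]
      exact e2

open Classical in
theorem add_close {L : Type} [NormedField L] (V : WeierstrassCurve.Affine L) [V.IsShortNF] [V.IsElliptic] (Q : V.Point) (hQ : Q ≠ 0)
    (T : Finset V.Point) (hT : ∀ t ∈ T, Q ≠ t ∧ Q ≠ -t) {ε : ℝ} (hε : 0 < ε) :
    ∃ δ : ℝ, 0 < δ ∧ ∀ P : V.Point, P ≠ 0 → ‖xc P - xc Q‖ < δ → ‖yc P - yc Q‖ < δ → ∀ t ∈ T,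
      P + t ≠ 0 ∧ ‖xc (P + t) - xc (Q + t)‖ < ε ∧ ‖yc (P + t) - yc (Q + t)‖ < ε := by
  induction T using Finset.induction_on with
  | empty => exact ⟨1, one_pos, fun P _ _ _ t ht => absurd ht (Finset.notMem_empty t)⟩
  | insert t T _ ih =>
    obtain ⟨d1, hd1, h1⟩ := ih (fun s hs => hT s (Finset.mem_insert_of_mem hs))
    obtain ⟨d2, hd2, h2⟩ := c3_one V Q hQ t (hT t (Finset.mem_insert_self t T)) hε
    refine ⟨min d1 d2, lt_min hd1 hd2, fun P hP hx hy s hs => ?_⟩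
    rw [lt_min_iff] at hx hy
    rcases Finset.mem_insert.mp hs with rfl | hs
    · exact h2 P hP hx.2 hy.2
    · exact h1 P hP hx.1 hy.1 s hs

end SSG
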