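import Mathlib
import Pool.Agent.Lib.SSG.Z.C3

/-! Chunk C4 (S/M). Two small statements.
galois_sqrt: L' a normed field with an ultrametric norm, G a set of isometric automorphisms of L'. b ≠ 0 is fixed by G, b'^2 is fixed by G, b' is near b: ‖b' - b‖ < ‖2 b‖. Then b' is fixed by G: s b' = ± b'; if s b' = -b' then ‖b' + b‖ = ‖-(s b') + ... : ‖b' - b‖ = ‖s (b' - b)‖ = ‖-b' - b‖ = ‖b' + b‖, and
‖2 b‖ = ‖(b' + b) - (b' - b)‖ ≤ max < ‖2 b‖.
sep: a finite set T of points with Q + t ≠ 0 for t in T: there is ε > 0 such that for t ≠ t' in T: ε ≤ ‖xc (Q + t) - xc (Q + t')‖ or ε ≤ ‖yc (Q + t) - yc (Q + t')‖ (pt_ext in H16C/D1.lean: different nonzero points have different coordinates; minimum over the finite set T × T). -/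

open WeierstrassCurve H16C

namespace SSG

theorem c4_sub_le {L : Type} [NormedField L] [IsUltrametricDist L] (x y : L) : ‖x - y‖ ≤ max ‖x‖ ‖y‖ := by
  rw [sub_eq_add_neg, ← norm_neg y]
  exact IsUltrametricDist.norm_add_le_max x (-y)

theorem galois_sqrt {L : Type} [NormedField L] [IsUltrametricDist L] [CharZero L] (s : L ≃+* L) (hs : ∀ x, ‖s x‖ = ‖x‖) {b b' : L} (hb : s b = b)
    (hb' : s (b' ^ 2) = b' ^ 2) (h : ‖b' - b‖ < ‖2 * b‖) : s b' = b' := by
  rw [map_pow] at hb'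
  rcases sq_eq_sq_iff_eq_or_eq_neg.mp hb' with h1 | h1
  · exact h1
  · exfalso
    have h2 : ‖b' - b‖ = ‖b' + b‖ := by
      rw [← hs (b' - b), map_sub, h1, hb, ← norm_neg]
      congr 1
      ring
    have h3 : ‖2 * b‖ ≤ max ‖b' + b‖ ‖b' - b‖ := by
      have e : 2 * b = (b' + b) - (b' - b) := by ring
      rw [e]
      exact c4_sub_le _ _
    rw [← h2, max_self] at h3
    exact absurd h (not_lt.mpr h3)

open Classical in
theorem sep {L : Type} [NormedField L] (V : WeierstrassCurve.Affine L) [V.IsShortNF] [V.IsElliptic] (Q : V.Point) (T : Finset V.Point)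
    (hT : ∀ t ∈ T, Q + t ≠ 0) : ∃ ε : ℝ, 0 < ε ∧ ∀ t ∈ T, ∀ t' ∈ T, t ≠ t' →
      ε ≤ ‖xc (Q + t) - xc (Q + t')‖ ∨ ε ≤ ‖yc (Q + t) - yc (Q + t')‖ := by
  have hfin : ∀ S : Finset (V.Point × V.Point), (∀ z ∈ S, Q + z.1 ≠ 0 ∧ Q + z.2 ≠ 0 ∧ z.1 ≠ z.2) →
      ∃ ε : ℝ, 0 < ε ∧ ∀ z ∈ S, ε ≤ ‖xc (Q + z.1) - xc (Q + z.2)‖ ∨ ε ≤ ‖yc (Q + z.1) - yc (Q + z.2)‖ := by
    intro S
    induction S using Finset.induction_on with
    | empty => exact fun _ => ⟨1, one_pos, fun z hz => absurd hz (Finset.notMem_empty z)⟩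
    | insert z S _ ih =>
      intro hS
      obtain ⟨d, hd, h1⟩ := ih (fun w hw => hS w (Finset.mem_insert_of_mem hw))
      obtain ⟨a1, a2, a3⟩ := hS z (Finset.mem_insert_self z S)
      have h2 : ∃ e : ℝ, 0 < e ∧ (e ≤ ‖xc (Q + z.1) - xc (Q + z.2)‖ ∨ e ≤ ‖yc (Q + z.1) - yc (Q + z.2)‖) := by
        by_cases hx : xc (Q + z.1) = xc (Q + z.2)
        · have hy : yc (Q + z.1) ≠ yc (Q + z.2) := by
            intro hy
            exact a3 (add_left_cancel (pt_ext a1 a2 hx hy))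
          exact ⟨_, norm_pos_iff.mpr (sub_ne_zero.mpr hy), Or.inr le_rfl⟩
        · exact ⟨_, norm_pos_iff.mpr (sub_ne_zero.mpr hx), Or.inl le_rfl⟩
      obtain ⟨e, he, h3⟩ := h2
      refine ⟨min d e, lt_min hd he, fun w hw => ?_⟩
      rcases Finset.mem_insert.mp hw with rfl | hw
      · rcases h3 with h3 | h3
        · exact Or.inl ((min_le_right _ _).trans h3)
        · exact Or.inr ((min_le_right _ _).trans h3)
      · rcases h1 w hw with h3 | h3
        · exact Or.inl ((min_le_left _ _).trans h3)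
        · exact Or.inr ((min_le_left _ _).trans h3)
  obtain ⟨ε, hε, h⟩ := hfin ((T ×ˢ T).filter (fun z => z.1 ≠ z.2)) (fun z hz => by
    rw [Finset.mem_filter, Finset.mem_product] at hz
    exact ⟨hT _ hz.1.1, hT _ hz.1.2, hz.2⟩)
  exact ⟨ε, hε, fun t ht t' ht' hne => h (t, t') (Finset.mem_filter.mpr ⟨Finset.mem_product.mpr ⟨ht, ht'⟩, hne⟩)⟩

end SSG
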