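import Mathlib
import Pool.Agent.Lib.H16C.T1
import Pool.Agent.Lib.H16C.Defs

/-! Chunk C5 (S/M). Roots of polynomials over an algebraically closed field Ω stay in Ω: q in Ω[X], q ≠ 0, ι : Ω → L a ring homomorphism into a field, a root of q.map ι lies in the image of ι (q splits over Ω: IsAlgClosed.splits, roots_map / aroots; or q = C c ∏ (X - r)).
pt_range: ι : Ω →ₐ[K] L, a' in K, W short over K, Q' = (x', y') a point of W over L, x' a root of Φ n - a' ΨSq n (n ≥ 1): this polynomial is the image of the polynomial (W⁄Ω).Φ n - C a' * (W⁄Ω).ΨSq n over Ω (WeierstrassCurve.map_Φ, map_ΨSq; monic of degree n^2, so nonzero, see the proof of divisible in H16C/T1.lean), so x' = ι x;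
y'^2 = x'^3 + A x' + B (eqn) is the image of an element of Ω, so y' = ι y (root of T^2 - c); the point (x, y) of W over Ω (exists_pt, equation by injectivity of ι) is mapped to Q'. -/

open WeierstrassCurve Polynomial H16C

namespace SSG

theorem root_range {Ω L : Type} [Field Ω] [IsAlgClosed Ω] [Field L] (ι : Ω →+* L) {q : Polynomial Ω} (hq : q ≠ 0) {x : L} (hx : (q.map ι).eval x = 0) :
    ∃ y : Ω, ι y = x := by
  have hs := IsAlgClosed.splits q
  have h1 : (q.map ι).roots = q.roots.map ι := hs.roots_map ι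
  have h2 : x ∈ (q.map ι).roots := by
    rw [Polynomial.mem_roots ((Polynomial.map_ne_zero_iff ι.injective).mpr hq)]
    exact hx
  rw [h1, Multiset.mem_map] at h2
  obtain ⟨y, _, hy⟩ := h2
  exact ⟨y, hy⟩

theorem c5_ne {L : Type} [Field L] (V : WeierstrassCurve.Affine L) (n : ℕ) (hn : 0 < n) (a : L) :
    (V.Φ n - Polynomial.C a * V.ΨSq n) ≠ 0 := by
  have hp : 0 < n ^ 2 := by positivity
  have hlt : (Polynomial.C a * V.ΨSq n).natDegree < n ^ 2 := by
    refine (natDegree_C_mul_le _ _).trans_lt ((V.natDegree_ΨSq_le n).trans_lt ?_)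
    rw [Int.natAbs_natCast]
    omega
  have h1 : (V.Φ n - C a * V.ΨSq n).coeff (n ^ 2) = 1 := by
    have h2 := V.coeff_Φ n
    rw [Int.natAbs_natCast] at h2
    rw [coeff_sub, h2, coeff_eq_zero_of_natDegree_lt hlt, sub_zero]
  intro h
  rw [h, coeff_zero] at h1
  exact zero_ne_one h1

open Classical in
theorem pt_range {K : Type} [Field K] [CharZero K] (W : WeierstrassCurve.Affine K) [W.IsShortNF] [W.IsElliptic] {Ω L : Type} [Field Ω] [Algebra K Ω]
    [IsAlgClosed Ω] [Field L] [Algebra K L] (ι : Ω →ₐ[K] L) (n : ℕ) (hn : 0 < n) (a' : K) (Q' : Pt W L) (hQ : Q' ≠ 0)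
    (h : (((WeierstrassCurve.Affine.baseChange W L).Φ n) - Polynomial.C (algebraMap K L a') * ((WeierstrassCurve.Affine.baseChange W L).ΨSq n)).eval (xc Q') = 0) :
    ∃ Q : Pt W Ω, WeierstrassCurve.Affine.Point.map ι Q = Q' := by
  have hι : (ι : Ω →+* L).comp (algebraMap K Ω) = algebraMap K L := ι.comp_algebraMap
  have hΦ : (WeierstrassCurve.Affine.baseChange W L).Φ n = ((WeierstrassCurve.Affine.baseChange W Ω).Φ n).map (ι : Ω →+* L) := by
    change (WeierstrassCurve.map W (algebraMap K L)).Φ n = ((WeierstrassCurve.map W (algebraMap K Ω)).Φ n).map (ι : Ω →+* L)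
    rw [WeierstrassCurve.map_Φ, WeierstrassCurve.map_Φ, Polynomial.map_map, hι]
  have hΨ : (WeierstrassCurve.Affine.baseChange W L).ΨSq n = ((WeierstrassCurve.Affine.baseChange W Ω).ΨSq n).map (ι : Ω →+* L) := by
    change (WeierstrassCurve.map W (algebraMap K L)).ΨSq n = ((WeierstrassCurve.map W (algebraMap K Ω)).ΨSq n).map (ι : Ω →+* L)
    rw [WeierstrassCurve.map_ΨSq, WeierstrassCurve.map_ΨSq, Polynomial.map_map, hι]
  have hq : ((((WeierstrassCurve.Affine.baseChange W Ω).Φ n) - Polynomial.C (algebraMap K Ω a') * ((WeierstrassCurve.Affine.baseChange W Ω).ΨSq n)).map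
      (ι : Ω →+* L)).eval (xc Q') = 0 := by
    rw [Polynomial.map_sub, Polynomial.map_mul, Polynomial.map_C, ← hΦ, ← hΨ]
    have h1 : (ι : Ω →+* L) (algebraMap K Ω a') = algebraMap K L a' := ι.commutes a'
    rw [h1]
    exact h
  obtain ⟨x, hx⟩ := root_range (ι : Ω →+* L) (c5_ne _ n hn _) hq
  have hE := eqn hQ
  have h4 : (WeierstrassCurve.Affine.baseChange W L).a₄ = (ι : Ω →+* L) (WeierstrassCurve.Affine.baseChange W Ω).a₄ := (ι.commutes W.a₄).symm
  have h6 : (WeierstrassCurve.Affine.baseChange W L).a₆ = (ι : Ω →+* L) (WeierstrassCurve.Affine.baseChange W Ω).a₆ := (ι.commutes W.a₆).symm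
  have hE' : yc Q' ^ 2 = (ι : Ω →+* L) (x ^ 3 + (WeierstrassCurve.Affine.baseChange W Ω).a₄ * x + (WeierstrassCurve.Affine.baseChange W Ω).a₆) := by
    rw [hE, h4, h6, ← hx, map_add, map_add, map_mul, map_pow]
  obtain ⟨y, hy⟩ : ∃ y : Ω, (ι : Ω →+* L) y = yc Q' := by
    apply root_range (ι : Ω →+* L) (q := X ^ 2 - C (x ^ 3 + (WeierstrassCurve.Affine.baseChange W Ω).a₄ * x + (WeierstrassCurve.Affine.baseChange W Ω).a₆))
      (Polynomial.X_pow_sub_C_ne_zero (by norm_num) _)
    rw [Polynomial.map_sub, Polynomial.map_pow, Polynomial.map_X, Polynomial.map_C, eval_sub, eval_pow, eval_X, eval_C, hE', sub_self]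
  have hxy : y ^ 2 = x ^ 3 + (WeierstrassCurve.Affine.baseChange W Ω).a₄ * x + (WeierstrassCurve.Affine.baseChange W Ω).a₆ := by
    apply (ι : Ω →+* L).injective
    rw [map_pow, hy, hE']
  obtain ⟨P, hP0, hPx, hPy⟩ := exists_pt (W := WeierstrassCurve.Affine.baseChange W Ω) x y hxy
  refine ⟨P, ?_⟩
  rcases P with _ | ⟨x1, y1, h1⟩
  · exact absurd rfl hP0
  change x1 = x at hPx
  change y1 = y at hPy
  subst hPx hPy
  refine pt_ext (WeierstrassCurve.Affine.Point.some_ne_zero _) hQ ?_ ?_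
  · exact hx
  · exact hy

end SSG
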