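import Mathlib
import Pool.Agent.Lib.H16C.TR1
import Pool.Agent.Lib.H35Q.G6
import Pool.Agent.Lib.SSG.Z.C2
import Pool.Agent.Lib.SSG.Z.C4
import Pool.Agent.Lib.SSG.Z.C5

/-! Chunk C6 (M/L). Algebraisation. F a complete ultrametric field of characteristic 0 in which K is dense, Ω' = AlgebraicClosure F with the spectral norm: letI : NormedField Ω' := spectralNorm.normedField F Ω' (Mathlib; ‖x‖ = spectralNorm F Ω' x; ultrametric: isNonarchimedean_spectralNorm, IsUltrametricDist.isUltrametricDist_of_isNonarchimedean_norm;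
spectralNorm_extends; spectralNorm_eq_of_equiv: automorphisms over F are isometries). Q a point over Ω' with k Q ≠ 0 for 0 < k ≤ 2n and n Q fixed by Gal(Ω'/F). Then there is a point Q' of W over Ω with σ (ι Q') - ι Q' = σ Q - Q for all σ in Gal(Ω'/F).
PROOF. E(n) = the finite set T of the points t with n t = 0 (tors_finite). Q ≠ ±t and Q + t ≠ 0 for t in T (n Q ≠ 0). sep (C4) gives ε₀; add_close (C3) for ε₀ gives δ₀. a = xc (n Q) is in F (a fixed element, InfiniteGalois / fix_mem in H35Q: see desc in H35Q/L1.lean), b = yc (n Q) ≠ 0 since 2 (n Q) ≠ 0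
(two_smul_eq_zero_iff). div_close (C2) with ε = min(δ₀, ε₀) gives δ; choose a' in K near a: ‖a - a'‖ < δ and so near that ‖f(a') - f(a)‖ < (‖2 b‖)^2 where f(x) = x^3 + A x + B (continuity). Q₁ the point of C2 with xc (n Q₁) = a'; pt_range (C5): Q₁ = ι Q'. b₁ = yc (n Q₁), b₁^2 = f(a'), (b₁ - b)(b₁ + b) = f(a') - f(a) so
‖b₁ - b‖ < ‖2 b‖ or ‖b₁ + b‖ < ‖2 b‖; galois_sqrt for b and b₁ or -b₁: b₁ is fixed by all σ, so n Q₁ is fixed by all σ (pt_ext; xc = a' in K).
For σ: t = σ Q - Q and t₁ = σ Q₁ - Q₁ are in T (n t = σ(n Q) - n Q = 0). σ Q = Q + t, σ Q₁ = Q₁ + t₁. ‖xc(Q₁ + t₁) - xc(Q + t)‖ = ‖σ(xc Q₁ - xc Q)‖ = ‖xc Q₁ - xc Q‖ < ε₀ and ‖xc(Q₁ + t₁) - xc(Q + t₁)‖ < ε₀ (add_close), so ‖xc(Q + t₁) - xc(Q + t)‖ < ε₀ (ultrametric), the same for yc; sep: t = t₁.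
The coordinates of rho W σ P: rx, ry in H35Q (xc (rho W g P) = g (xc P)). -/

open WeierstrassCurve H16C

namespace SSG

open Classical in
theorem c6_ax {K Ω : Type} [Field K] [Field Ω] [Algebra K Ω] {W : WeierstrassCurve.Affine K} (g : Ω ≃ₐ[K] Ω)
    (P : Pt W Ω) : xc (act W Ω g P) = g (xc P) := by
  cases P with
  | zero => exact (map_zero g).symm
  | some x y h => rfl

open Classical in
theorem c6_ay {K Ω : Type} [Field K] [Field Ω] [Algebra K Ω] {W : WeierstrassCurve.Affine K} (g : Ω ≃ₐ[K] Ω)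
    (P : Pt W Ω) : yc (act W Ω g P) = g (yc P) := by
  cases P with
  | zero => exact (map_zero g).symm
  | some x y h => rfl

open Classical in
theorem c6_ane {K Ω : Type} [Field K] [Field Ω] [Algebra K Ω] {W : WeierstrassCurve.Affine K} (g : Ω ≃ₐ[K] Ω)
    {P : Pt W Ω} (h : P ≠ 0) : act W Ω g P ≠ 0 := by
  cases P with
  | zero => exact absurd rfl h
  | some x y h1 => exact WeierstrassCurve.Affine.Point.some_ne_zero _

theorem c6_near {L : Type} [NormedField L] {b b1 : L} {r : ℝ} (hr : 0 ≤ r) (h : ‖b1 ^ 2 - b ^ 2‖ < r ^ 2) : ‖b1 - b‖ < r ∨ ‖b1 + b‖ < r := by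
  by_contra hc
  rw [not_or, not_lt, not_lt] at hc
  have h1 : ‖b1 - b‖ * ‖b1 + b‖ < r ^ 2 := by
    rw [← norm_mul]
    have e : (b1 - b) * (b1 + b) = b1 ^ 2 - b ^ 2 := by ring
    rw [e]
    exact h
  nlinarith [hc.1, hc.2]

theorem c6_tri {L : Type} [NormedField L] [IsUltrametricDist L] {x y z : L} {e : ℝ} (h1 : ‖z - x‖ < e) (h2 : ‖z - y‖ < e) : ‖x - y‖ < e := by
  have e1 : x - y = (z - y) - (z - x) := by ring
  rw [e1]
  exact (c4_sub_le _ _).trans_lt (max_lt h2 h1)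

open Classical in
theorem c6_main {K : Type} [Field K] [CharZero K] {F : Type} [NormedField F] [CharZero F]
    [Algebra K F] (hd : ∀ (x : F) (ε : ℝ), 0 < ε → ∃ y : K, ‖x - algebraMap K F y‖ < ε) {Ω : Type} [Field Ω] [Algebra K Ω] [IsAlgClosed Ω]
    {L : Type} [NormedField L] [IsUltrametricDist L] [CharZero L] [Algebra F L] [IsAlgClosure F L] [Algebra K L] [IsScalarTower K F L]
    (hnorm : ∀ x : F, ‖algebraMap F L x‖ = ‖x‖) (hiso : ∀ (σ : L ≃ₐ[F] L) (x : L), ‖σ x‖ = ‖x‖)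
    (ι : Ω →ₐ[K] L) (W : WeierstrassCurve.Affine K) [W.IsShortNF] [W.IsElliptic] (n : ℕ) (hn : 0 < n)
    (Q : Pt W L) (hQ : ∀ k : ℕ, 0 < k → k ≤ 2 * n → k • Q ≠ 0)
    (hfix : ∀ σ : L ≃ₐ[F] L, act W L (σ.restrictScalars K) (n • Q) = n • Q) :
    ∃ Q' : Pt W Ω, ∀ σ : L ≃ₐ[F] L,
      act W L (σ.restrictScalars K) (WeierstrassCurve.Affine.Point.map ι Q') - WeierstrassCurve.Affine.Point.map ι Q' =
        act W L (σ.restrictScalars K) Q - Q := by
  have hacL : IsAlgClosed L := IsAlgClosure.isAlgClosed F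
  have hQ0 : Q ≠ 0 := by
    have := hQ 1 one_pos (by omega)
    rwa [one_nsmul] at this
  have hnQ : n • Q ≠ 0 := hQ n hn (by omega)
  have hT : ∀ t : Pt W L, t ∈ (tors_finite (WeierstrassCurve.Affine.baseChange W L) n hn).toFinset ↔ n • t = 0 := by
    intro t
    rw [Set.Finite.mem_toFinset]
    rfl
  obtain ⟨T, hTdef⟩ : ∃ T, T = (tors_finite (WeierstrassCurve.Affine.baseChange W L) n hn).toFinset := ⟨_, rfl⟩
  rw [← hTdef] at hT
  have hT1 : ∀ t ∈ T, Q ≠ t ∧ Q ≠ -t := by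
    intro t ht
    rw [hT] at ht
    constructor
    · intro h
      exact hnQ (h ▸ ht)
    · intro h
      apply hnQ
      rw [h, smul_neg, ht, neg_zero]
  have hT2 : ∀ t ∈ T, Q + t ≠ 0 := by
    intro t ht h
    apply (hT1 t ht).2
    exact eq_neg_of_add_eq_zero_left h
  obtain ⟨e0, he0, hsep⟩ := sep (WeierstrassCurve.Affine.baseChange W L) Q T hT2
  obtain ⟨d0, hd0, hadd⟩ := add_close (WeierstrassCurve.Affine.baseChange W L) Q hQ0 T hT1 he0
  obtain ⟨d1, hd1, hdiv⟩ := div_close (WeierstrassCurve.Affine.baseChange W L) n hn Q (fun k h1 h2 => hQ k h1 (by omega)) (lt_min hd0 he0)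
  -- coordinates in F
  have hca : ∀ σ : L ≃ₐ[F] L, σ (xc (n • Q)) = xc (n • Q) := by
    intro σ
    have h1 := c6_ax (σ.restrictScalars K) (n • Q)
    rw [hfix σ] at h1
    exact h1.symm
  have hcb : ∀ σ : L ≃ₐ[F] L, σ (yc (n • Q)) = yc (n • Q) := by
    intro σ
    have h1 := c6_ay (σ.restrictScalars K) (n • Q)
    rw [hfix σ] at h1
    exact h1.symm
  obtain ⟨a0, ha0⟩ := H35Q.fix_mem hca
  have hb0 : yc (n • Q) ≠ 0 := by
    intro h
    have h2 : (2 : L) ≠ 0 := two_ne_zero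
    have h3 := (two_smul_eq_zero_iff h2 hnQ).mpr h
    rw [← mul_smul] at h3
    exact hQ (2 * n) (by omega) le_rfl h3
  have hr : 0 < ‖2 * yc (n • Q)‖ := norm_pos_iff.mpr (mul_ne_zero two_ne_zero hb0)
  have hcont : ContinuousAt (fun x : L => x ^ 3 + (WeierstrassCurve.Affine.baseChange W L).a₄ * x + (WeierstrassCurve.Affine.baseChange W L).a₆)
      (xc (n • Q)) := by fun_prop
  obtain ⟨d2, hd2, hf⟩ := Metric.continuousAt_iff.mp hcont (‖2 * yc (n • Q)‖ ^ 2) (by positivity)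
  obtain ⟨y, hy⟩ := hd a0 (min d1 d2) (lt_min hd1 hd2)
  have hya : ‖algebraMap K L y - xc (n • Q)‖ < min d1 d2 := by
    rw [← ha0, IsScalarTower.algebraMap_apply K F L, ← map_sub, hnorm, norm_sub_rev]
    exact hy
  rw [lt_min_iff] at hya
  obtain ⟨Q1, hQ10, hk, hx1, hy1, hxn, hroot⟩ := hdiv _ hya.1
  obtain ⟨Q', hQ'⟩ := pt_range W ι n hn y Q1 hQ10 hroot
  rw [lt_min_iff] at hx1 hy1
  -- n Q1 is fixed
  have hnQ1 : n • Q1 ≠ 0 := hk n hn le_rfl
  have hE1 := eqn hnQ1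
  have hE := eqn hnQ
  rw [hxn] at hE1
  have hnear : ‖yc (n • Q1) ^ 2 - yc (n • Q) ^ 2‖ < ‖2 * yc (n • Q)‖ ^ 2 := by
    rw [hE1, hE]
    have h3 := hf (show dist (algebraMap K L y) (xc (n • Q)) < d2 by rw [dist_eq_norm]; exact hya.2)
    rw [dist_eq_norm] at h3
    exact h3
  have hfix1 : ∀ σ : L ≃ₐ[F] L, act W L (σ.restrictScalars K) (n • Q1) = n • Q1 := by
    intro σ
    have hK : ∀ z : K, σ (algebraMap K L z) = algebraMap K L z := fun z => (σ.restrictScalars K).commutes z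
    have hsq : σ (yc (n • Q1) ^ 2) = yc (n • Q1) ^ 2 := by
      rw [hE1, map_add, map_add, map_mul, map_pow, hK]
      have h4 : σ (WeierstrassCurve.Affine.baseChange W L).a₄ = (WeierstrassCurve.Affine.baseChange W L).a₄ := hK W.a₄
      have h6 : σ (WeierstrassCurve.Affine.baseChange W L).a₆ = (WeierstrassCurve.Affine.baseChange W L).a₆ := hK W.a₆
      rw [h4, h6]
    have hyy : σ (yc (n • Q1)) = yc (n • Q1) := by
      rcases c6_near hr.le hnear with h5 | h5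
      · exact galois_sqrt (σ : L ≃+* L) (hiso σ) (hcb σ) hsq h5
      · have h6 : σ (-(yc (n • Q1))) = -(yc (n • Q1)) := by
          refine galois_sqrt (σ : L ≃+* L) (hiso σ) (hcb σ) (b' := -(yc (n • Q1))) ?_ ?_
          · rw [neg_sq]
            exact hsq
          · rw [← norm_neg]
            have e : -(-(yc (n • Q1)) - yc (n • Q)) = yc (n • Q1) + yc (n • Q) := by ring
            rw [e]
            exact h5
        rw [map_neg, neg_inj] at h6
        exact h6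
    apply pt_ext (c6_ane _ hnQ1) hnQ1
    · rw [c6_ax, hxn]
      exact hK y
    · rw [c6_ay]
      exact hyy
  refine ⟨Q', fun σ => ?_⟩
  rw [hQ']
  obtain ⟨t, ht⟩ : ∃ t, t = act W L (σ.restrictScalars K) Q - Q := ⟨_, rfl⟩
  obtain ⟨t1, ht1⟩ : ∃ t, t = act W L (σ.restrictScalars K) Q1 - Q1 := ⟨_, rfl⟩
  rw [← ht, ← ht1]
  have htT : t ∈ T := by
    rw [hT, ht, smul_sub, ← map_nsmul, hfix, sub_self]
  have ht1T : t1 ∈ T := by
    rw [hT, ht1, smul_sub, ← map_nsmul, hfix1, sub_self]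
  have e1 : Q + t = act W L (σ.restrictScalars K) Q := by rw [ht]; abel
  have e2 : Q1 + t1 = act W L (σ.restrictScalars K) Q1 := by rw [ht1]; abel
  by_contra hne
  obtain ⟨_, hax, hay⟩ := hadd Q1 hQ10 hx1.1 hy1.1 t1 ht1T
  have hiso' : ∀ x y : L, ‖σ x - σ y‖ = ‖x - y‖ := by
    intro x y
    rw [← map_sub, hiso]
  rcases hsep t htT t1 ht1T (fun h => hne h.symm) with h | h
  · apply absurd h (not_le.mpr _)
    apply c6_tri (z := xc (Q1 + t1)) _ hax
    rw [e1, e2, c6_ax, c6_ax]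
    exact (hiso' _ _).trans_lt hx1.2
  · apply absurd h (not_le.mpr _)
    apply c6_tri (z := yc (Q1 + t1)) _ hay
    rw [e1, e2, c6_ay, c6_ay]
    exact (hiso' _ _).trans_lt hy1.2

open Classical in
theorem alg_pt {K : Type} [Field K] [CharZero K] {F : Type} [NontriviallyNormedField F] [IsUltrametricDist F] [CompleteSpace F] [CharZero F]
    [Algebra K F] (hd : ∀ (x : F) (ε : ℝ), 0 < ε → ∃ y : K, ‖x - algebraMap K F y‖ < ε) {Ω : Type} [Field Ω] [Algebra K Ω] [IsAlgClosed Ω]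
    (ι : Ω →ₐ[K] AlgebraicClosure F) (W : WeierstrassCurve.Affine K) [W.IsShortNF] [W.IsElliptic] (n : ℕ) (hn : 0 < n)
    (Q : Pt W (AlgebraicClosure F)) (hQ : ∀ k : ℕ, 0 < k → k ≤ 2 * n → k • Q ≠ 0)
    (hfix : ∀ σ : AlgebraicClosure F ≃ₐ[F] AlgebraicClosure F, act W (AlgebraicClosure F) (σ.restrictScalars K) (n • Q) = n • Q) :
    ∃ Q' : Pt W Ω, ∀ σ : AlgebraicClosure F ≃ₐ[F] AlgebraicClosure F,
      act W (AlgebraicClosure F) (σ.restrictScalars K) (WeierstrassCurve.Affine.Point.map ι Q') - WeierstrassCurve.Affine.Point.map ι Q' =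
        act W (AlgebraicClosure F) (σ.restrictScalars K) Q - Q := by
  letI : NormedField (AlgebraicClosure F) := spectralNorm.normedField F (AlgebraicClosure F)
  have hu : IsUltrametricDist (AlgebraicClosure F) :=
    IsUltrametricDist.isUltrametricDist_of_isNonarchimedean_norm (isNonarchimedean_spectralNorm (K := F) (L := AlgebraicClosure F))
  exact c6_main (F := F) hd (L := AlgebraicClosure F) (fun x => spectralNorm_extends x) (fun σ x => (spectralNorm_eq_of_equiv σ x).symm) ι W n hn Q hQ hfix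

end SSG
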