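import Mathlib
import Pool.Agent.Lib.H35Q.F1
import Pool.Agent.Lib.H19X.He

/-! Chunk C7 (M). E(K_w) is infinite for every short elliptic curve. Copy of inf_loc in H35Q/F1.lean (case a₄ = 0, x = r x₀ with r a cube root) with squares instead of cubes: π the uniformizer there; for m large x = (π^m)⁻¹ ^ 2, x^3 + A x + B = (π^m)⁻¹ ^ 6 (1 + A π^(4m) + B π^(6m)) and 1 + A π^(4m) + B π^(6m) is a square s^2 in
K_w because it is near 1: Hensel for T^2 - u, Valued.v (u - 1) < Valued.v 4 (see H35X.cube_nine, cube_one used in f1_cube, and H19X.hensel (grep theorem hensel in Lib/H19X), H16A.exists_root_lift; or: for an element z with v z < 1 the polynomial T^2 + T - z has a root in the ring of integers, (1 + 2T)^2 = 1 + 4 z).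
y = s (π^m)⁻¹ ^ 3. The points are pairwise different (the x-coordinates have different valuations). -/

open NumberField IsDedekindDomain H16C

namespace SSG

theorem c7_small {K : Type} [Field K] [NumberField K] (w : HeightOneSpectrum (𝓞 K)) (π c : w.adicCompletion K)
    (hπ : Valued.v π = WithZero.exp (-1 : ℤ)) :
    ∃ N : ℕ, ∀ m : ℕ, N ≤ m → Valued.v (c * π ^ m) < 1 := by
  by_cases hc : Valued.v c = 0
  · refine ⟨0, fun m _ => ?_⟩
    rw [map_mul, hc, zero_mul]
    exact zero_lt_one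
  · obtain ⟨k, hk⟩ : ∃ k : ℤ, Valued.v c = WithZero.exp k := ⟨WithZero.log (Valued.v c), (WithZero.exp_log hc).symm⟩
    refine ⟨k.toNat + 1, fun m hm => ?_⟩
    rw [map_mul, map_pow, hπ, hk, ← WithZero.exp_nsmul, ← WithZero.exp_add, ← WithZero.exp_zero, WithZero.exp_lt_exp]
    have h1 : k ≤ k.toNat := Int.self_le_toNat k
    rw [nsmul_eq_mul]
    have h2 : ((k.toNat + 1 : ℕ) : ℤ) ≤ m := by exact_mod_cast hm
    push_cast at h2
    linarith

open Classical in
theorem inf_pts {K : Type} [Field K] [NumberField K] (W : WeierstrassCurve.Affine K) [W.IsShortNF] [W.IsElliptic] (w : HeightOneSpectrum (𝓞 K)) :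
    Infinite (Pt W (w.adicCompletion K)) := by
  obtain ⟨π0, hπ0⟩ := w.valuation_exists_uniformizer K
  obtain ⟨π, hπd⟩ : ∃ π : w.adicCompletion K, π = algebraMap K (w.adicCompletion K) π0 := ⟨_, rfl⟩
  have hπ : Valued.v π = WithZero.exp (-1 : ℤ) := by
    rw [hπd, ← hπ0]
    exact HeightOneSpectrum.valuedAdicCompletion_eq_valuation' w π0
  have hπne : π ≠ 0 := by
    intro h
    rw [h, map_zero] at hπ
    exact WithZero.exp_ne_zero hπ.symm
  have h4 : (4 : w.adicCompletion K) ≠ 0 := by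
    have h1 : (algebraMap K (w.adicCompletion K)) 4 = 4 := map_ofNat _ 4
    rw [← h1]
    exact (_root_.map_ne_zero _).2 (by norm_num)
  obtain ⟨A, hA⟩ : ∃ A : w.adicCompletion K, A = algebraMap K (w.adicCompletion K) W.a₄ := ⟨_, rfl⟩
  obtain ⟨B, hB⟩ : ∃ B : w.adicCompletion K, B = algebraMap K (w.adicCompletion K) W.a₆ := ⟨_, rfl⟩
  obtain ⟨N₁, hN₁⟩ := c7_small w π (A / 4) hπ
  obtain ⟨N₂, hN₂⟩ := c7_small w π (B / 4) hπ
  obtain ⟨N, hN⟩ : ∃ N : ℕ, N = N₁ + N₂ := ⟨_, rfl⟩
  have hv4 : 0 < Valued.v (4 : w.adicCompletion K) := zero_lt_iff.2 ((Valuation.ne_zero_iff _).2 h4)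
  have hpt : ∀ m : ℕ, ∃ P : Pt W (w.adicCompletion K), P ≠ 0 ∧ xc P = (π ^ (N + m))⁻¹ ^ 2 := by
    intro m
    have h1 := hN₁ (4 * (N + m)) (by omega)
    have h2 := hN₂ (6 * (N + m)) (by omega)
    have h3 : Valued.v ((1 + A * π ^ (4 * (N + m)) + B * π ^ (6 * (N + m))) - 1) <
        Valued.v (4 : w.adicCompletion K) := by
      have e : (1 + A * π ^ (4 * (N + m)) + B * π ^ (6 * (N + m))) - 1 =
          4 * (A / 4 * π ^ (4 * (N + m))) + 4 * (B / 4 * π ^ (6 * (N + m))) := by
        field_simp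
        ring
      rw [e]
      refine (Valued.v.map_add _ _).trans_lt (max_lt ?_ ?_)
      · rw [map_mul]
        calc Valued.v (4 : w.adicCompletion K) * Valued.v (A / 4 * π ^ (4 * (N + m))) <
            Valued.v (4 : w.adicCompletion K) * 1 := (mul_lt_mul_iff_right₀ hv4).2 h1
          _ = Valued.v (4 : w.adicCompletion K) := mul_one _
      · rw [map_mul]
        calc Valued.v (4 : w.adicCompletion K) * Valued.v (B / 4 * π ^ (6 * (N + m))) <
            Valued.v (4 : w.adicCompletion K) * 1 := (mul_lt_mul_iff_right₀ hv4).2 h2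
          _ = Valued.v (4 : w.adicCompletion K) := mul_one _
    obtain ⟨s, hs⟩ := H19X.hensel w _ h3
    have h0 : π ^ (N + m) ≠ 0 := pow_ne_zero _ hπne
    have hE : (s * (π ^ (N + m))⁻¹ ^ 3) ^ 2 = ((π ^ (N + m))⁻¹ ^ 2) ^ 3 +
        (WeierstrassCurve.Affine.baseChange W (w.adicCompletion K)).a₄ * ((π ^ (N + m))⁻¹ ^ 2) +
        (WeierstrassCurve.Affine.baseChange W (w.adicCompletion K)).a₆ := by
      have e4 : (WeierstrassCurve.Affine.baseChange W (w.adicCompletion K)).a₄ = A := hA.symm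
      have e6 : (WeierstrassCurve.Affine.baseChange W (w.adicCompletion K)).a₆ = B := hB.symm
      rw [e4, e6, mul_pow, ← hs, show π ^ (6 * (N + m)) = (π ^ (N + m)) ^ 6 by rw [← pow_mul, mul_comm],
        show π ^ (4 * (N + m)) = (π ^ (N + m)) ^ 4 by rw [← pow_mul, mul_comm]]
      field_simp
    obtain ⟨P, hP, hx, -⟩ := exists_pt _ _ hE
    exact ⟨P, hP, hx⟩
  choose P hP hx using hpt
  apply Infinite.of_injective P
  intro m n hmn
  have h1 : (π ^ (N + m))⁻¹ ^ 2 = (π ^ (N + n))⁻¹ ^ 2 := by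
    rw [← hx, ← hx, hmn]
  have h2 : (Valued.v π) ^ (2 * (N + m)) = (Valued.v π) ^ (2 * (N + n)) := by
    rw [← map_pow, ← map_pow]
    congr 1
    rw [inv_pow, inv_pow, inv_inj, ← pow_mul, ← pow_mul] at h1
    rw [mul_comm 2, mul_comm 2]
    exact h1
  have h3 : (0 : WithZero (Multiplicative ℤ)) < Valued.v π := zero_lt_iff.2 ((Valuation.ne_zero_iff _).2 hπne)
  have h4' : Valued.v π ≠ 1 := by
    rw [hπ]
    intro h
    rw [← WithZero.exp_zero, WithZero.exp_inj] at h
    omega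
  have h5 := pow_right_injective₀ h3 h4' h2
  omega

end SSG
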