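import Mathlib
import Pool.Agent.Lib.H35Q.L1

/-! Chunk C8 (S/M). Avoiding finitely many points. Copy of avoid in H35Q/L1.lean (same file: l1_fix for the Galois invariance): S = the image of S₀ in Pt W L; for every k with 0 < k ≤ N the set of the S₀ with k • (Q + S) = 0 is finite (two of them differ by a point killed by k, tors_finite), infinitely many S₀. -/

open H16C

namespace SSG

open Classical in
theorem avoid_tors {K : Type} [Field K] [CharZero K] (W : WeierstrassCurve.Affine K) [W.IsShortNF] [W.IsElliptic] {L Ω' : Type} [Field L]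
    [Algebra K L] [Field Ω'] [Algebra L Ω'] [Algebra K Ω'] [IsScalarTower K L Ω'] [IsAlgClosure L Ω'] [CharZero Ω'] (hinf : Infinite (Pt W L)) (N : ℕ)
    (Q : Pt W Ω') : ∃ S : Pt W Ω', (∀ σ : Ω' ≃ₐ[L] Ω', act W Ω' (σ.restrictScalars K) S = S) ∧ ∀ k : ℕ, 0 < k → k ≤ N → k • (Q + S) ≠ 0 := by
  let f : Pt W L →+ Pt W Ω' := WeierstrassCurve.Affine.Point.map (IsScalarTower.toAlgHom K L Ω')
  have hf : Function.Injective f := WeierstrassCurve.Affine.Point.map_injective _
  have hfib : ∀ k : ℕ, 0 < k → {S : Pt W L | k • (Q + f S) = 0}.Finite := by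
    intro k hk
    by_cases hn : ∃ S₁ : Pt W L, k • (Q + f S₁) = 0
    · obtain ⟨S₁, h1⟩ := hn
      have ht : {P : Pt W Ω' | k • P = 0}.Finite := tors_finite _ k hk
      have hinj : Function.Injective (fun S : Pt W L => f S - f S₁) := by
        intro a b hab
        exact hf (sub_left_injective hab)
      apply (ht.preimage hinj.injOn).subset
      intro S hS
      show k • (f S - f S₁) = 0
      have h2 : k • (Q + f S) = 0 := hS
      rw [← h1, smul_add, smul_add, add_right_inj] at h2
      rw [smul_sub, h2, sub_self]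
    · have he : {S : Pt W L | k • (Q + f S) = 0} = ∅ := by
        ext S
        constructor
        · intro hS
          exact absurd ⟨S, hS⟩ hn
        · intro hS
          exact absurd hS (Set.notMem_empty _)
      rw [he]
      exact Set.finite_empty
  have hbad : {S : Pt W L | ∃ k ∈ Finset.Icc 1 N, k • (Q + f S) = 0}.Finite := by
    apply (((Finset.Icc 1 N).finite_toSet).biUnion (fun k hk => hfib k (by
      have := Finset.mem_Icc.1 (Finset.mem_coe.1 hk)
      omega))).subset
    rintro S ⟨k, hk, hS⟩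
    rw [Set.mem_iUnion₂]
    exact ⟨k, Finset.mem_coe.2 hk, hS⟩
  obtain ⟨S, hS⟩ := hbad.exists_notMem
  refine ⟨f S, fun σ => H35Q.l1_fix W S σ, fun k h0 hk h => hS ⟨k, Finset.mem_Icc.2 ⟨h0, hk⟩, h⟩⟩

end SSG
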