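import Mathlib
import Pool.Agent.Lib.SSG.Z.B2
import Pool.Agent.Lib.SSG.Z.B3
import Pool.Agent.Lib.SSG.Z.C6
import Pool.Agent.Lib.SSG.Z.C7
import Pool.Agent.Lib.SSG.Z.C8
import Pool.Agent.Lib.H35Q.L5
import Pool.Agent.Lib.H16C.TR2

/-! Chunk B4 (M). loc_dec: LocTriv at all v implies TrivV for a cocycle with n c = 0. V ≠ ⊤: exists_iota gives v, ι. LocTriv for ι: Q₀ with ι(c g) = σ Q₀ - Q₀ whenever ι ∘ g = σ ∘ ι. avoid_tors (C8) with inf_pts (C7), N = 2n: Q = Q₀ + S has σ Q - Q = σ Q₀ - Q₀ and k Q ≠ 0 for 0 < k ≤ 2n.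
n Q is fixed by all σ (exists_restrict in H16C/TR2.lean gives g for σ; n(σ Q - Q) = ι(n c g) = 0). alg_pt (C6) with the instances of H16F/E7.lean (letI := Valued.toNontriviallyNormedField .., ultrametric, CharZero, H16F.dense_adic v): Q' with σ(ι Q') - ι Q' = σ Q - Q. For g in Dec V: ext_of_dec gives σ; ι(c g) = σ(ι Q') - ι Q' = ι(g Q' - Q')
(H35Q.act_map in H35Q/L5.lean), Point.map ι injective (WeierstrassCurve.Affine.Point.map_injective). P = Q'.
dec_loc: TrivV implies LocTriv at v: ι given, exists_val: V, P; Q = ι P; for ι ∘ g = σ ∘ ι: dec_of_ext: Dec V g, c g = g P - P, ι(c g) = σ Q - Q (act_map). -/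

open NumberField IsDedekindDomain WeierstrassCurve H16C
open scoped WithZero

namespace SSG

open Classical in
theorem loc_dec {K : Type} [Field K] [NumberField K] (W : WeierstrassCurve.Affine K) [W.IsShortNF] [W.IsElliptic] {Ω : Type} [Field Ω] [Algebra K Ω]
    [IsAlgClosed Ω] [Algebra.IsAlgebraic K Ω] [CharZero Ω] (c : (Ω ≃ₐ[K] Ω) → Pt W Ω) {n : ℕ} (hn : 0 < n) (hc : ∀ g, n • c g = 0)
    (h : ∀ v : HeightOneSpectrum (𝓞 K), LocTriv W Ω (v.adicCompletion K) c) : TrivV W Ω c := by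
  intro V hVt
  obtain ⟨v, ι, hV⟩ := exists_iota (K := K) V hVt
  obtain ⟨Q₀, hQ₀⟩ := h v ι
  have hchar : CharZero (v.adicCompletion K) :=
    charZero_of_injective_algebraMap (algebraMap K (v.adicCompletion K)).injective
  have hcharA : CharZero (AlgebraicClosure (v.adicCompletion K)) :=
    charZero_of_injective_algebraMap
      (algebraMap (v.adicCompletion K) (AlgebraicClosure (v.adicCompletion K))).injective
  have hinf : Infinite (Pt W (v.adicCompletion K)) := inf_pts W v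
  obtain ⟨S, hS, hS2⟩ := avoid_tors W (L := v.adicCompletion K)
    (Ω' := AlgebraicClosure (v.adicCompletion K)) hinf (2 * n) Q₀
  have hfix : ∀ σ : AlgebraicClosure (v.adicCompletion K) ≃ₐ[v.adicCompletion K]
      AlgebraicClosure (v.adicCompletion K),
      act W (AlgebraicClosure (v.adicCompletion K)) (σ.restrictScalars K) (n • (Q₀ + S)) =
        n • (Q₀ + S) := by
    intro σ
    obtain ⟨g, hg, -⟩ := exists_restrict ι σ
    have h1 := hQ₀ σ g hg
    have h2 : n • (WeierstrassCurve.Affine.Point.map ι (c g) :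
        Pt W (AlgebraicClosure (v.adicCompletion K))) = 0 := by
      rw [← map_nsmul, hc, map_zero]
    rw [h1, nsmul_sub, sub_eq_zero] at h2
    rw [map_nsmul, map_add, hS, nsmul_add, nsmul_add, h2]
  have halg : ∃ Q' : Pt W Ω, ∀ σ : AlgebraicClosure (v.adicCompletion K) ≃ₐ[v.adicCompletion K]
      AlgebraicClosure (v.adicCompletion K),
      act W (AlgebraicClosure (v.adicCompletion K)) (σ.restrictScalars K)
        (WeierstrassCurve.Affine.Point.map ι Q') - WeierstrassCurve.Affine.Point.map ι Q' =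
        act W (AlgebraicClosure (v.adicCompletion K)) (σ.restrictScalars K) (Q₀ + S) - (Q₀ + S) := by
    letI : NontriviallyNormedField (v.adicCompletion K) :=
      Valued.toNontriviallyNormedField (v.adicCompletion K) ℤᵐ⁰
    haveI : IsUltrametricDist (v.adicCompletion K) :=
      Valued.instIsUltrametricDist (v.adicCompletion K) ℤᵐ⁰
    exact alg_pt (H16F.dense_adic v) ι W n hn (Q₀ + S) hS2 hfix
  obtain ⟨Q', hQ'⟩ := halg
  refine ⟨Q', fun g hg => ?_⟩
  obtain ⟨σ, hσ⟩ := ext_of_dec hV hg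
  have h1 := hQ₀ σ g hσ
  have h2 := hQ' σ
  rw [H35Q.act_map W ι Q' σ g hσ, ← map_sub, map_add, hS σ, add_sub_add_right_eq_sub, ← h1] at h2
  exact (WeierstrassCurve.Affine.Point.map_injective ι h2).symm

open Classical in
theorem dec_loc {K : Type} [Field K] [NumberField K] (W : WeierstrassCurve.Affine K) {Ω : Type} [Field Ω] [Algebra K Ω]
    (c : (Ω ≃ₐ[K] Ω) → Pt W Ω) (h : TrivV W Ω c) (v : HeightOneSpectrum (𝓞 K)) : LocTriv W Ω (v.adicCompletion K) c := by
  intro ι
  obtain ⟨V, hVt, hV⟩ := exists_val v ι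
  obtain ⟨P, hP⟩ := h V hVt
  refine ⟨WeierstrassCurve.Affine.Point.map ι P, fun σ g hσ => ?_⟩
  rw [hP g (dec_of_ext hV σ hσ), H35Q.act_map W ι P σ g hσ, map_sub]

end SSG
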