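import Mathlib
import Pool.Agent.Lib.H35Q.L5

/-! Chunk B5 (S/M). Infinite places. Copy of loc_inf in H35Q/L5.lean (n = 3, Q = ι (c h)) for odd n: n = 2 m + 1, Q = ι (m • c h): h (c h) = -c h, so σ Q - Q = m (h c h - c h) = -2 m c h = c h since (2m + 1) c h = 0. In the case g = 1 the claim is 0 = σ Q - Q = ι (1 P - P). -/

open NumberField IsDedekindDomain H16C

namespace SSG

open Classical in
theorem loc_inf {K : Type} [Field K] [NumberField K] {Ω : Type} [Field Ω] [Algebra K Ω] [IsAlgClosure K Ω] [CharZero Ω]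
    (W : WeierstrassCurve.Affine K) (c : (Ω ≃ₐ[K] Ω) → Pt W Ω) (hc : IsCocycle W Ω c) {n : ℕ} (hn : Odd n) (h3 : ∀ g, n • c g = 0)
    (v : InfinitePlace K) : LocTriv W Ω v.Completion c := by
  intro ι
  have hcl : IsAlgClosed Ω := IsAlgClosure.isAlgClosed K
  obtain ⟨I, hI⟩ := IsAlgClosed.exists_pow_nat_eq (-1 : Ω) (n := 2) (by norm_num)
  have hneg : ∀ g : Ω ≃ₐ[K] Ω, g I ≠ I → g I = -I := by
    intro g hg
    have h1 : (g I) ^ 2 = I ^ 2 := by rw [← map_pow, hI, map_neg, map_one]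
    exact (sq_eq_sq_iff_eq_or_eq_neg.1 h1).resolve_left hg
  have e1 : ∀ P : Pt W Ω, act W Ω (1 : Ω ≃ₐ[K] Ω) P = P := by
    intro P
    change rho W (1 : Ω ≃ₐ[K] Ω) P = P
    rw [map_one]
    rfl
  have h10 : c 1 = 0 := by
    have h := hc.1 1 1
    rw [mul_one, e1] at h
    exact left_eq_add.1 h
  by_cases hex : ∃ (τ : AlgebraicClosure v.Completion ≃ₐ[v.Completion] AlgebraicClosure v.Completion)
      (h : Ω ≃ₐ[K] Ω), (∀ x, ι (h x) = τ (ι x)) ∧ h I ≠ I
  · obtain ⟨τ, h, hτ, hhI⟩ := hex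
    obtain ⟨m, hm⟩ := hn
    refine ⟨WeierstrassCurve.Affine.Point.map ι (m • c h), fun σ g hσ => ?_⟩
    rw [H35Q.act_map W ι (m • c h) σ g hσ]
    by_cases hg : g I = I
    · have hg1 : g = 1 := H16C.place_inf v ι I hI σ g hσ hg
      subst hg1
      rw [h10, e1, map_zero, sub_self]
    · have hinv : ∀ x, ι ((h⁻¹ * g) x) = (τ⁻¹ * σ) (ι x) := by
        intro x
        apply τ.injective
        have e1 : τ ((τ⁻¹ * σ) (ι x)) = σ (ι x) := τ.apply_symm_apply _
        have e2 : h ((h⁻¹ * g) x) = g x := h.apply_symm_apply _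
        rw [e1, ← hτ, e2, hσ]
      have hfix : (h⁻¹ * g) I = I := by
        apply h.injective
        have e2 : h ((h⁻¹ * g) I) = g I := h.apply_symm_apply _
        rw [e2, hneg h hhI, hneg g hg]
      have h1 := H16C.place_inf v ι I hI (τ⁻¹ * σ) (h⁻¹ * g) hinv hfix
      have hgh : g = h := (inv_mul_eq_one.1 h1).symm
      subst hgh
      have hgg : g * g = 1 := by
        refine H16C.place_inf v ι I hI (τ * τ) (g * g) (fun x => ?_) ?_
        · change ι (g (g x)) = τ (τ (ι x))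
          rw [hτ, hτ]
        · change g (g I) = I
          rw [hneg g hg, map_neg, hneg g hg, neg_neg]
      have h2 := hc.1 g g
      rw [hgg, h10] at h2
      have h4 : act W Ω g (c g) = -(c g) := (neg_eq_of_add_eq_zero_right h2.symm).symm
      rw [map_nsmul, h4, ← map_sub]
      congr 1
      have h5 := h3 g
      rw [hm, add_nsmul, one_nsmul, mul_nsmul, two_nsmul, nsmul_add] at h5
      rw [eq_sub_iff_add_eq, smul_neg, eq_neg_iff_add_eq_zero]
      rw [← h5]
      abel
  · push Not at hex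
    refine ⟨0, fun σ g hσ => ?_⟩
    have hg1 : g = 1 := H16C.place_inf v ι I hI σ g hσ (hex σ g hσ)
    subst hg1
    rw [h10, map_zero, map_zero, sub_zero]

end SSG
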