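import Mathlib
import Pool.Agent.Lib.SSG.Z.B4
import Pool.Agent.Lib.SSG.Z.B5
import Pool.Agent.Lib.H35Q.S1

/-! Chunk B6 (M). The bridge for short equations: H16C.Sha (completions, all places) and (galS W Ω).Sha (valuation rings) have the same p-primary part, p odd.
PROOF. Ω = AlgebraicClosure K. KEY: for a cocycle c (H16C.IsCocycle; the same as mul and cont of (galS W Ω).IsZ: act = H55P.ac up to rfl) and k with p^k c a coboundary: EverywhereTriv W Ω c iff TrivV W Ω c (iff the loc field of IsZ). Proof of KEY: p^k c(g) = g Q - Q, Q = p^k R (H16C.divisible), c' = c - (g R - R):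
p^k c' = 0; coboundaries satisfy both conditions (H35Q.cob_loc; trivial for TrivV), both conditions are additive (locTriv_add, locTriv_neg); for c': loc_dec, dec_loc (B4), loc_inf (B5, n = p^k odd).
EQUIVALENCE: PP p (Sha W Ω) ≃ PP p (galS W Ω).Sha: both are quotients of the same group of cocycles c with some p^k c in B (by KEY) by the group B ∩ .. : construct for instance: Z₀ = the subgroup of the cocycles c with exists k, p^k c coboundary, and locally trivial (either sense); map c to its class; it is surjective onto both PP groups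
(elements are classes of cocycles, p^k [c] = 0 iff p^k c is a coboundary) and two elements of Z₀ have the same class iff they differ by a coboundary, in both groups. So define the map PP → PP by choosing a representative (Quotient.out / surjectivity and Classical.choice), it is well defined, injective and surjective. See H35Q/S1.lean (sha_iff) for the
handling of H16C.Sha; LS.cl, cl_surj, cl_zero, cl_eq in ZD.lean, ZH.lean. ShaC p K W: B0.lean. -/

open NumberField IsDedekindDomain WeierstrassCurve H16C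

namespace SSG

/-- Two quotients by the same subgroup have the same p-primary part. -/
theorem b6_card {M : Type*} [AddCommGroup M] (Z₁ Z₂ B : AddSubgroup M) (p : ℕ)
    (key : ∀ c : M, (∃ k : ℕ, p ^ k • c ∈ B) → (c ∈ Z₁ ↔ c ∈ Z₂)) :
    Nat.card {z : Z₁ ⧸ B.addSubgroupOf Z₁ // ∃ k : ℕ, p ^ k • z = 0} =
      Nat.card {z : Z₂ ⧸ B.addSubgroupOf Z₂ // ∃ k : ℕ, p ^ k • z = 0} := by
  classical
  have hz : ∀ (Z : AddSubgroup M) (c : Z),
      (QuotientAddGroup.mk' (B.addSubgroupOf Z) c = 0 ↔ c.1 ∈ B) := by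
    intro Z c
    refine (QuotientAddGroup.eq_zero_iff (N := B.addSubgroupOf Z) c).trans ?_
    exact AddSubgroup.mem_addSubgroupOf
  have heq : ∀ (Z : AddSubgroup M) (c c' : Z),
      (QuotientAddGroup.mk' (B.addSubgroupOf Z) c = QuotientAddGroup.mk' (B.addSubgroupOf Z) c' ↔
        c.1 - c'.1 ∈ B) := by
    intro Z c c'
    rw [← sub_eq_zero, ← map_sub, hz]
    rfl
  have hp : ∀ (Z : AddSubgroup M) (c : Z) (k : ℕ),
      (p ^ k • QuotientAddGroup.mk' (B.addSubgroupOf Z) c = 0 ↔ p ^ k • c.1 ∈ B) := by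
    intro Z c k
    rw [← map_nsmul, hz]
    rfl
  have hex : ∀ z : {z : Z₁ ⧸ B.addSubgroupOf Z₁ // ∃ k : ℕ, p ^ k • z = 0},
      ∃ w : {z : Z₂ ⧸ B.addSubgroupOf Z₂ // ∃ k : ℕ, p ^ k • z = 0},
        ∃ (c : M) (h1 : c ∈ Z₁) (h2 : c ∈ Z₂),
          QuotientAddGroup.mk' (B.addSubgroupOf Z₁) ⟨c, h1⟩ = z.1 ∧
          QuotientAddGroup.mk' (B.addSubgroupOf Z₂) ⟨c, h2⟩ = w.1 := by
    rintro ⟨z, k, hk⟩
    obtain ⟨c, rfl⟩ := QuotientAddGroup.mk'_surjective _ z
    have h1 := (hp Z₁ c k).1 hk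
    have h2 : c.1 ∈ Z₂ := (key c.1 ⟨k, h1⟩).1 c.2
    exact ⟨⟨QuotientAddGroup.mk' (B.addSubgroupOf Z₂) ⟨c.1, h2⟩, k, (hp Z₂ ⟨c.1, h2⟩ k).2 h1⟩,
      c.1, c.2, h2, rfl, rfl⟩
  choose f c h1 h2 h3 h4 using hex
  refine Nat.card_congr (Equiv.ofBijective f ⟨fun z z' hzz => ?_, fun w => ?_⟩)
  · apply Subtype.ext
    rw [← h3 z, ← h3 z', heq]
    have h5 : (f z).1 = (f z').1 := by rw [hzz]
    rw [← h4 z, ← h4 z', heq] at h5
    exact h5
  · obtain ⟨w, k, hk⟩ := w
    obtain ⟨d, rfl⟩ := QuotientAddGroup.mk'_surjective _ w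
    have h5 := (hp Z₂ d k).1 hk
    have h6 : d.1 ∈ Z₁ := (key d.1 ⟨k, h5⟩).2 d.2
    obtain ⟨z, hzd⟩ : ∃ z : {z : Z₁ ⧸ B.addSubgroupOf Z₁ // ∃ k : ℕ, p ^ k • z = 0},
        z = ⟨QuotientAddGroup.mk' (B.addSubgroupOf Z₁) ⟨d.1, h6⟩, k, (hp Z₁ ⟨d.1, h6⟩ k).2 h5⟩ :=
      ⟨_, rfl⟩
    refine ⟨z, ?_⟩
    apply Subtype.ext
    rw [← h4 z, heq]
    have h7 := h3 z
    have h8 : z.1 = QuotientAddGroup.mk' (B.addSubgroupOf Z₁) ⟨d.1, h6⟩ := by rw [hzd]
    rw [h8, heq] at h7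
    exact h7

open Classical in
theorem b6_key {K : Type} [Field K] [NumberField K] (W : WeierstrassCurve.Affine K) [W.IsShortNF] [W.IsElliptic]
    {Ω : Type} [Field Ω] [Algebra K Ω] [IsAlgClosed Ω] [Algebra.IsAlgebraic K Ω] [CharZero Ω] [IsAlgClosure K Ω]
    (c : (Ω ≃ₐ[K] Ω) → Pt W Ω) (hc : IsCocycle W Ω c) {n : ℕ} (hn : Odd n)
    (hB : IsCoboundary W Ω (n • c)) : EverywhereTriv W Ω c ↔ TrivV W Ω c := by
  have hn0 : 0 < n := hn.pos
  obtain ⟨Q, hQ⟩ := hB
  obtain ⟨R, hR⟩ := divisible (W := WeierstrassCurve.Affine.baseChange W Ω) n hn0 Q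
  obtain ⟨d, hd⟩ : ∃ d : (Ω ≃ₐ[K] Ω) → Pt W Ω, d = fun g => rho W g R - R := ⟨_, rfl⟩
  have hdg : ∀ g, d g = act W Ω g R - R := by
    intro g
    rw [hd]
    rfl
  have hdc : IsCocycle W Ω d := by
    rw [hd]
    exact H35Q.cob_coc W R
  have hdl : ∀ (L : Type) [Field L] [Algebra K L], LocTriv W Ω L d := by
    intro L _ _
    rw [hd]
    exact H35Q.cob_loc W R L
  obtain ⟨c', hc'⟩ : ∃ c' : (Ω ≃ₐ[K] Ω) → Pt W Ω, c' = c + -d := ⟨_, rfl⟩
  have hcoc : IsCocycle W Ω c' := by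
    rw [hc']
    exact isCocycle_add W Ω hc (isCocycle_neg W Ω hdc)
  have hc'g : ∀ g, c' g = c g - d g := by
    intro g
    rw [hc']
    exact (sub_eq_add_neg _ _).symm
  have hn' : ∀ g, n • c' g = 0 := by
    intro g
    have h1 : n • c g = act W Ω g Q - Q := hQ g
    rw [hc'g, nsmul_sub, h1, hdg, nsmul_sub, ← map_nsmul, hR, sub_self]
  have hback : c = c' + d := by
    funext g
    have h1 : (c' + d) g = c' g + d g := rfl
    rw [h1, hc'g, sub_add_cancel]
  constructor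
  · intro h
    have h1 : TrivV W Ω c' := by
      refine loc_dec W c' hn0 hn' fun v => ?_
      rw [hc']
      exact locTriv_add W Ω _ (h.1 v) (locTriv_neg W Ω _ (hdl _))
    intro V hV
    obtain ⟨P, hP⟩ := h1 V hV
    refine ⟨P + R, fun g hg => ?_⟩
    have h2 : c g = c' g + d g := congrFun hback g
    rw [h2, hP g hg, hdg, map_add]
    abel
  · intro h
    have h1 : TrivV W Ω c' := by
      intro V hV
      obtain ⟨P, hP⟩ := h V hV
      refine ⟨P - R, fun g hg => ?_⟩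
      rw [hc'g, hP g hg, hdg, map_sub]
      abel
    refine ⟨fun v => ?_, fun v => ?_⟩
    · rw [hback]
      exact locTriv_add W Ω _ (dec_loc W c' h1 v) (hdl _)
    · rw [hback]
      exact locTriv_add W Ω _ (loc_inf W c' hcoc hn hn' v) (hdl _)

open Classical in
theorem bridge_short {K : Type} [Field K] [NumberField K] (W : WeierstrassCurve K) [W.IsShortNF] [W.IsElliptic] {p : ℕ} (hp : p.Prime)
    (hp2 : p ≠ 2) : Nat.card (ShaC p K W) = Nat.card (PP p (galS W (AlgebraicClosure K)).Sha) := by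
  have hodd : ∀ k : ℕ, Odd (p ^ k) := fun k => (hp.odd_of_ne_two hp2).pow
  refine b6_card (ZSha W.toAffine (AlgebraicClosure K)) (galS W (AlgebraicClosure K)).Z
    (BSha W.toAffine (AlgebraicClosure K)) p ?_
  rintro c ⟨k, hk⟩
  have hcoc : IsCocycle W.toAffine (AlgebraicClosure K) c →
      (EverywhereTriv W.toAffine (AlgebraicClosure K) c ↔
        TrivV W.toAffine (AlgebraicClosure K) c) :=
    fun h => b6_key W.toAffine c h (hodd k) hk
  constructor
  · rintro ⟨h1, h2⟩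
    have h3 := (hcoc h1).1 h2
    refine ⟨h1.1, ?_, ?_⟩
    · obtain ⟨L, hL, h4⟩ := h1.2
      exact ⟨_, ⟨L, hL, rfl⟩, h4⟩
    · rintro _ ⟨V, hV, rfl⟩
      obtain ⟨P, hP⟩ := h3 V hV
      exact ⟨P, fun g hg => hP g hg⟩
  · intro h
    have h' : (galS W (AlgebraicClosure K)).IsZ c := h
    have h1 : IsCocycle W.toAffine (AlgebraicClosure K) c := by
      refine ⟨h'.mul, ?_⟩
      obtain ⟨_, ⟨L, hL, rfl⟩, h4⟩ := h'.cont
      exact ⟨L, hL, h4⟩
    refine ⟨h1, (hcoc h1).2 ?_⟩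
    intro V hV
    obtain ⟨P, hP⟩ := h'.loc _ ⟨V, hV, rfl⟩
    exact ⟨P, fun g hg => hP g hg⟩

end SSG
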