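import Mathlib
import Pool.Agent.Lib.SSG.Z.B6
import Pool.Agent.Lib.H19Q.Tr

/-! Chunk B7 (S/M). General Weierstrass equations. K has characteristic 0, so W has a short form W' (WeierstrassCurve.exists_variableChange_isShortNF or as in H19Q/Main.lean, H19Q/SS.lean: the relation H19Z.ZL1_D W W' u r s t from ZL1_rel). H19Q.sha_iso: H16C.Sha W Ω ≃+ H16C.Sha W' Ω, so the ShaP have the same cardinality;
H19Q.fe D Ω : Pt W Ω ≃+ Pt W' Ω with fe_act: (galS W Ω) and (galS W' Ω) by Hom.card (ZH.lean) with e = id, m = 1. bridge_short (B6) for W'. -/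

open NumberField IsDedekindDomain WeierstrassCurve H16C

namespace SSG

open Classical in
theorem b7_hom {K : Type} [Field K] {W W' : WeierstrassCurve K} [W.IsElliptic] [W'.IsElliptic] {u r s t : K} (D : H19Z.ZL1_D W.toAffine W'.toAffine u r s t)
    {Ω : Type} [Field Ω] [Algebra K Ω] : Hom (galS W Ω) (galS W' Ω) (MonoidHom.id _) (H19Q.fe D Ω).toAddMonoidHom :=
  ⟨fun g a => H19Q.fe_act D Ω g a, fun u hu => ⟨u, hu, fun _ hg => hg⟩, fun d hd => ⟨d, hd, fun _ hg => hg⟩⟩

open Classical in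
theorem b7_hom' {K : Type} [Field K] {W W' : WeierstrassCurve K} [W.IsElliptic] [W'.IsElliptic] {u r s t : K} (D : H19Z.ZL1_D W.toAffine W'.toAffine u r s t)
    {Ω : Type} [Field Ω] [Algebra K Ω] : Hom (galS W' Ω) (galS W Ω) (MonoidHom.id _) (H19Q.fe D Ω).symm.toAddMonoidHom :=
  ⟨fun g a => H19Q.fe_act_symm D Ω g a, fun u hu => ⟨u, hu, fun _ hg => hg⟩, fun d hd => ⟨d, hd, fun _ hg => hg⟩⟩

theorem b7_res {G A A' : Type} [Group G] [AddCommGroup A] [AddCommGroup A'] {S : LS G A} {S' : LS G A'} {φ : A →+ A'}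
    (h : Hom S S' (MonoidHom.id G) φ) (H : Subgroup G) : Hom (S.res H) (S'.res H) (MonoidHom.id H) φ := by
  refine ⟨fun g a => h.eqv g a, ?_, ?_⟩
  · rintro _ ⟨u, hu, rfl⟩
    obtain ⟨u', hu', h1⟩ := h.U u hu
    exact ⟨_, ⟨u', hu', rfl⟩, fun g hg => h1 g hg⟩
  · rintro _ ⟨d, hd, rfl⟩
    obtain ⟨d', hd', h1⟩ := h.D d hd
    exact ⟨_, ⟨d', hd', rfl⟩, fun g hg => h1 g hg⟩

open Classical in
/-- The systems of isomorphic curves. -/
theorem iso_card {K : Type} [Field K] {W W' : WeierstrassCurve K} [W.IsElliptic] [W'.IsElliptic] {u r s t : K} (D : H19Z.ZL1_D W.toAffine W'.toAffine u r s t)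
    {Ω : Type} [Field Ω] [Algebra K Ω] (H : Subgroup (Ω ≃ₐ[K] Ω)) {p : ℕ} (hp : p.Prime) :
    Nat.card (PP p ((galS W Ω).res H).Sha) = Nat.card (PP p ((galS W' Ω).res H).Sha) := by
  refine (b7_res (b7_hom D (Ω := Ω)) H).card hp hp.not_dvd_one (b7_res (b7_hom' D (Ω := Ω)) H) (fun _ => rfl) (fun _ => rfl)
    (fun a => ?_) (fun a => ?_)
  · rw [one_nsmul]
    exact (H19Q.fe D Ω).symm_apply_apply a
  · rw [one_nsmul]
    exact (H19Q.fe D Ω).apply_symm_apply a

open Classical in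
theorem bridge {K : Type} [Field K] [NumberField K] (W : WeierstrassCurve K) [W.IsElliptic] {p : ℕ} (hp : p.Prime) (hp2 : p ≠ 2) :
    Nat.card (ShaC p K W) = Nat.card (PP p (galS W (AlgebraicClosure K)).Sha) := by
  haveI : Invertible (2 : K) := invertibleOfNonzero two_ne_zero
  haveI : Invertible (3 : K) := invertibleOfNonzero three_ne_zero
  obtain ⟨C, hC⟩ := W.exists_variableChange_isShortNF
  have D := H19Z.ZL1_rel W C
  haveI : (C • W).toAffine.IsElliptic := inferInstanceAs (C • W).IsElliptic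
  haveI : W.toAffine.IsElliptic := inferInstanceAs W.IsElliptic
  obtain ⟨f⟩ := H19Q.sha_iso (W := (C • W).toAffine) (W' := W.toAffine) D (AlgebraicClosure K)
  have h1 : Nat.card (ShaC p K (C • W)) = Nat.card (ShaC p K W) := by
    refine Nat.card_congr ⟨fun z => ⟨f z.1, ?_⟩, fun z => ⟨f.symm z.1, ?_⟩, fun z => ?_, fun z => ?_⟩
    · obtain ⟨k, hk⟩ := z.2
      exact ⟨k, by rw [← map_nsmul, hk, map_zero]⟩
    · obtain ⟨k, hk⟩ := z.2
      exact ⟨k, by rw [← map_nsmul, hk, map_zero]⟩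
    · exact Subtype.ext (f.symm_apply_apply z.1)
    · exact Subtype.ext (f.apply_symm_apply z.1)
  have h2 := bridge_short (C • W) hp hp2
  have h3 : Nat.card (PP p (galS (C • W) (AlgebraicClosure K)).Sha) = Nat.card (PP p (galS W (AlgebraicClosure K)).Sha) := by
    refine (b7_hom (W := C • W) (W' := W) D (Ω := AlgebraicClosure K)).card hp hp.not_dvd_one
      (b7_hom' (W := C • W) (W' := W) D (Ω := AlgebraicClosure K)) (fun _ => rfl) (fun _ => rfl) (fun a => ?_) (fun a => ?_)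
    · rw [one_nsmul]
      exact (H19Q.fe (W := (C • W).toAffine) (W' := W.toAffine) D (AlgebraicClosure K)).symm_apply_apply a
    · rw [one_nsmul]
      exact (H19Q.fe (W := (C • W).toAffine) (W' := W.toAffine) D (AlgebraicClosure K)).apply_symm_apply a
  rw [← h1, h2, h3]

end SSG
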