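import Mathlib
import Pool.Agent.Lib.SSG.Z.A0
import Pool.Agent.Lib.H55P.Z12

/-! Chunk L3 (M/L). Change of the algebraic closure and of the base field. K is a finite extension of k with an embedding ι in the algebraic closure Ω of k. The two systems (galS (W⁄K) (AlgebraicClosure K)) and (galS W Ω).res ι.fieldRange.fixingSubgroup are isomorphic.
PROOF. Copy of z12_core (H55P/Z12.lean), which constructs the isomorphism Φ of the points and the map hat : Gal(AlgebraicClosure K / K) → Gal(Ω/k), hat s = θk s θk⁻¹, injective, multiplicative, with image the fixing subgroup; but here both directions of U and D are needed, so do not use its statement, redo it with the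
explicit θ, θk, z12_pt, z12_hat (open H55P). Apply Hom.card (ZH.lean) with m = 1:
e₁ : Gal(AlgebraicClosure K/K) →* (fixing subgroup), s ↦ ⟨hat s, _⟩, its inverse e : (fixing subgroup) →* Gal(AlgebraicClosure K / K) (t ↦ θ⁻¹ t θ, a K-automorphism since t fixes ι K; or the MulEquiv.ofBijective of e₁), φ = Φ and Φ⁻¹ (AddEquiv.toAddMonoidHom).
U: finite extensions correspond under θ: L ↦ (L.restrictScalars k).map θk (finite over k, as in z12_core) and L' (finite over k) ↦ the intermediate field over K generated by θ⁻¹ L' (IntermediateField.adjoin K of the image, finite since generated by finitely many algebraic elements or since it is the image of the compositum;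
simplest: the fixing subgroup of L' contains elements t = hat s; take a finite set of generators of L' over k (or a basis) and adjoin K of their images under θ⁻¹, IntermediateField.finiteDimensional_adjoin).
D: V ↦ V.comap θk and V' ↦ V'.comap θk.symm, nontrivial, and Dec V (hat s) iff Dec (V.comap θk) s. -/

open WeierstrassCurve H55P

namespace SSG

/-- The isomorphisms. -/
theorem l3_core {k : Type} [Field k] (W : WeierstrassCurve k) (K : Type) [Field K] [Algebra k K] [FiniteDimensional k K] {Ω : Type} [Field Ω]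
    [DecidableEq Ω] [Algebra k Ω] [IsAlgClosed Ω] [Algebra.IsAlgebraic k Ω] (ι : K →ₐ[k] Ω) [DecidableEq (AlgebraicClosure K)] :
    ∃ (Φ : Pt (W⁄K) (AlgebraicClosure K) ≃+ Pt W Ω)
      (ε : (AlgebraicClosure K ≃ₐ[K] AlgebraicClosure K) ≃* ι.fieldRange.fixingSubgroup) (θ : AlgebraicClosure K ≃ₐ[k] Ω),
      (∀ s x, ((ε s : ι.fieldRange.fixingSubgroup) : Ω ≃ₐ[k] Ω) x = θ (s (θ.symm x))) ∧
      (∀ s P, Φ (ac (W⁄K) s P) = ac W ((ε s : ι.fieldRange.fixingSubgroup) : Ω ≃ₐ[k] Ω) (Φ P)) := by
  let algKΩ : Algebra K Ω := ι.toRingHom.toAlgebra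
  have htow : IsScalarTower k K Ω := IsScalarTower.of_algebraMap_eq fun x => (ι.commutes x).symm
  have halg : Algebra.IsAlgebraic K Ω := Algebra.IsAlgebraic.tower_top (K := k) K
  have hcl : IsAlgClosure K Ω := ⟨inferInstance, halg⟩
  let θ : AlgebraicClosure K ≃ₐ[K] Ω := IsAlgClosure.equiv K (AlgebraicClosure K) Ω
  let θk : AlgebraicClosure K ≃ₐ[k] Ω := θ.restrictScalars k
  obtain ⟨φ, hφ⟩ := base_iso (k := k) (F := K) (Ω := AlgebraicClosure K) W
  have hmem : ∀ s : AlgebraicClosure K ≃ₐ[K] AlgebraicClosure K, z12_hat θk s ∈ ι.fieldRange.fixingSubgroup := by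
    intro s
    rw [IntermediateField.mem_fixingSubgroup_iff]
    rintro x ⟨y, rfl⟩
    rw [z12_hat_apply]
    show θ (s (θ.symm (algebraMap K Ω y))) = algebraMap K Ω y
    rw [θ.symm.commutes, s.commutes, θ.commutes]
  let e₁ : (AlgebraicClosure K ≃ₐ[K] AlgebraicClosure K) →* ι.fieldRange.fixingSubgroup :=
    { toFun := fun s => ⟨z12_hat θk s, hmem s⟩
      map_one' := by
        apply Subtype.ext
        apply AlgEquiv.ext
        intro x
        show z12_hat θk 1 x = x
        rw [z12_hat_apply]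
        exact θk.apply_symm_apply x
      map_mul' := fun s t => by
        apply Subtype.ext
        apply AlgEquiv.ext
        intro x
        show z12_hat θk (s * t) x = z12_hat θk s (z12_hat θk t x)
        rw [z12_hat_apply, z12_hat_apply, z12_hat_apply, θk.symm_apply_apply, AlgEquiv.mul_apply] }
  have hinj : Function.Injective e₁ := by
    intro s t hst
    apply AlgEquiv.ext
    intro x
    have h0 : z12_hat θk s = z12_hat θk t := congrArg Subtype.val hst
    have h1 := DFunLike.congr_fun h0 (θk x)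
    rw [z12_hat_apply, z12_hat_apply, θk.symm_apply_apply] at h1
    exact θk.injective h1
  have hsur : Function.Surjective e₁ := by
    rintro ⟨t, ht⟩
    rw [IntermediateField.mem_fixingSubgroup_iff] at ht
    have h1 : ∀ x : K, t (algebraMap K Ω x) = algebraMap K Ω x := fun x => ht _ ⟨x, rfl⟩
    let tK : Ω ≃ₐ[K] Ω := AlgEquiv.ofRingEquiv (f := (t : Ω ≃+* Ω)) h1
    refine ⟨(θ.trans tK).trans θ.symm, Subtype.ext (AlgEquiv.ext fun x => ?_)⟩
    show z12_hat θk _ x = t x
    rw [z12_hat_apply]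
    show θ (θ.symm (t (θ (θ.symm x)))) = t x
    rw [θ.apply_symm_apply, θ.apply_symm_apply]
  refine ⟨φ.symm.trans (z12_pt W θk), MulEquiv.ofBijective e₁ ⟨hinj, hsur⟩, θk, fun s x => rfl, ?_⟩
  intro s P
  have h1 : φ.symm (ac (W⁄K) s P) = ac W (s.restrictScalars k) (φ.symm P) := by
    apply φ.injective
    rw [hφ, φ.apply_symm_apply, φ.apply_symm_apply]
  show z12_pt W θk (φ.symm (ac (W⁄K) s P)) = ac W (z12_hat θk s) (z12_pt W θk (φ.symm P))
  rw [h1]
  generalize φ.symm P = Q
  show Affine.Point.map (W' := W.toAffine) θk.toAlgHom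
    (Affine.Point.map (W' := W.toAffine) (s.restrictScalars k).toAlgHom Q) =
    Affine.Point.map (W' := W.toAffine) (z12_hat θk s).toAlgHom
      (Affine.Point.map (W' := W.toAffine) θk.toAlgHom Q)
  rw [Affine.Point.map_map, Affine.Point.map_map]
  congr 1
  congr 1
  ext x
  show θk (s x) = z12_hat θk s (θk x)
  rw [z12_hat_apply, θk.symm_apply_apply]

/-- The finite extensions. -/
theorem l3_up {k : Type} [Field k] (K : Type) [Field K] [Algebra k K] {Ω : Type} [Field Ω] [Algebra k Ω]
    (θ : AlgebraicClosure K ≃ₐ[k] Ω) (L' : IntermediateField k Ω) (hL' : FiniteDimensional k L') :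
    ∃ L : IntermediateField K (AlgebraicClosure K), FiniteDimensional K L ∧
      ∀ s : AlgebraicClosure K ≃ₐ[K] AlgebraicClosure K, s ∈ L.fixingSubgroup → ∀ x ∈ L', θ (s (θ.symm x)) = x := by
  let b := Module.finBasis k L'
  refine ⟨IntermediateField.adjoin K (Set.range fun i => θ.symm (b i : Ω)), ?_, ?_⟩
  · exact IntermediateField.finiteDimensional_adjoin fun x _ => Algebra.IsIntegral.isIntegral x
  · intro s hs x hx
    rw [IntermediateField.mem_fixingSubgroup_iff] at hs
    let f : L' →ₗ[k] Ω := (((θ.symm.trans (s.restrictScalars k)).trans θ).toLinearMap).comp L'.val.toLinearMap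
    have h1 : f = L'.val.toLinearMap := by
      refine b.ext fun i => ?_
      show θ (s (θ.symm (b i : Ω))) = (b i : Ω)
      rw [hs _ (IntermediateField.subset_adjoin K _ ⟨i, rfl⟩), θ.apply_symm_apply]
    exact DFunLike.congr_fun h1 (⟨x, hx⟩ : L')

theorem l3_down {k : Type} [Field k] (K : Type) [Field K] [Algebra k K] [FiniteDimensional k K] {Ω : Type} [Field Ω] [Algebra k Ω]
    (θ : AlgebraicClosure K ≃ₐ[k] Ω) (L : IntermediateField K (AlgebraicClosure K)) (hL : FiniteDimensional K L) :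
    ∃ L' : IntermediateField k Ω, FiniteDimensional k L' ∧
      ∀ s : AlgebraicClosure K ≃ₐ[K] AlgebraicClosure K, (∀ x ∈ L', θ (s (θ.symm x)) = x) → s ∈ L.fixingSubgroup := by
  have h1 : FiniteDimensional k (L.restrictScalars k) := FiniteDimensional.trans k K L
  let e := IntermediateField.intermediateFieldMap θ (L.restrictScalars k)
  refine ⟨(L.restrictScalars k).map θ.toAlgHom, Module.Finite.equiv e.toLinearEquiv, ?_⟩
  intro s hs
  rw [IntermediateField.mem_fixingSubgroup_iff]
  intro x hx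
  have h2 := hs (θ x) ⟨x, hx, rfl⟩
  rw [θ.symm_apply_apply] at h2
  exact θ.injective h2

/-- The valuation rings. -/
theorem l3_top {A B : Type} [Field A] [Field B] (θ : A ≃+* B) (V : ValuationSubring B) (hV : V ≠ ⊤) :
    V.comap (θ : A →+* B) ≠ ⊤ := by
  intro h
  apply hV
  refine eq_top_iff.2 fun x _ => ?_
  have h1 : θ.symm x ∈ V.comap (θ : A →+* B) := by
    rw [h]
    exact ValuationSubring.mem_top _
  have h2 : θ (θ.symm x) ∈ V := ValuationSubring.mem_comap.1 h1
  rwa [θ.apply_symm_apply] at h2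

open Classical in
theorem closure_card {k : Type} [Field k] [CharZero k] (W : WeierstrassCurve k) (K : Type) [Field K] [Algebra k K] [FiniteDimensional k K] {Ω : Type} [Field Ω]
    [Algebra k Ω] [IsAlgClosed Ω] [Algebra.IsAlgebraic k Ω] (ι : K →ₐ[k] Ω) {p : ℕ} (hp : p.Prime) :
    Nat.card (PP p (galS (W⁄K) (AlgebraicClosure K)).Sha) = Nat.card (PP p ((galS W Ω).res ι.fieldRange.fixingSubgroup).Sha) := by
  obtain ⟨Φ, ε, θ, h1, h2⟩ := l3_core W K ι
  have hA : Hom (galS (W⁄K) (AlgebraicClosure K)) ((galS W Ω).res ι.fieldRange.fixingSubgroup) ε.symm.toMonoidHom Φ.toAddMonoidHom := by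
    refine ⟨fun g a => ?_, ?_, ?_⟩
    · show Φ (ac (W⁄K) (ε.symm g) a) = ac W (g : Ω ≃ₐ[k] Ω) (Φ a)
      rw [h2, ε.apply_symm_apply]
    · rintro _ ⟨L, hL, rfl⟩
      obtain ⟨L', hL', h3⟩ := l3_down K θ L hL
      refine ⟨_, ⟨L'.fixingSubgroup, ⟨L', hL', rfl⟩, rfl⟩, fun g hg => ?_⟩
      apply h3
      intro x hx
      have h4 : (g : Ω ≃ₐ[k] Ω) ∈ L'.fixingSubgroup := hg
      rw [IntermediateField.mem_fixingSubgroup_iff] at h4
      have h5 := h1 (ε.symm g) x
      rw [ε.apply_symm_apply] at h5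
      exact h5.symm.trans (h4 x hx)
    · rintro _ ⟨_, ⟨V, hV, rfl⟩, rfl⟩
      refine ⟨_, ⟨V.comap ((θ : AlgebraicClosure K ≃+* Ω) : AlgebraicClosure K →+* Ω), l3_top _ V hV, rfl⟩, fun g hg => ?_⟩
      have hg' : Dec V (g : Ω ≃ₐ[k] Ω) := hg
      show Dec _ (ε.symm g)
      intro x
      have h5 := h1 (ε.symm g) (θ x)
      rw [ε.apply_symm_apply, θ.symm_apply_apply] at h5
      have h6 := hg' (θ x)
      rw [h5] at h6
      exact h6
  have hB : Hom ((galS W Ω).res ι.fieldRange.fixingSubgroup) (galS (W⁄K) (AlgebraicClosure K)) ε.toMonoidHom Φ.symm.toAddMonoidHom := by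
    refine ⟨fun g a => ?_, ?_, ?_⟩
    · show Φ.symm (ac W ((ε g : ι.fieldRange.fixingSubgroup) : Ω ≃ₐ[k] Ω) a) = ac (W⁄K) g (Φ.symm a)
      apply Φ.injective
      rw [h2, Φ.apply_symm_apply, Φ.apply_symm_apply]
    · rintro _ ⟨_, ⟨L', hL', rfl⟩, rfl⟩
      obtain ⟨L, hL, h3⟩ := l3_up K θ L' hL'
      refine ⟨_, ⟨L, hL, rfl⟩, fun g hg => ?_⟩
      show ((ε g : ι.fieldRange.fixingSubgroup) : Ω ≃ₐ[k] Ω) ∈ L'.fixingSubgroup
      rw [IntermediateField.mem_fixingSubgroup_iff]
      intro x hx
      rw [h1]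
      exact h3 g hg x hx
    · rintro _ ⟨V, hV, rfl⟩
      refine ⟨_, ⟨_, ⟨V.comap ((θ.symm : Ω ≃+* AlgebraicClosure K) : Ω →+* AlgebraicClosure K), l3_top _ V hV, rfl⟩, rfl⟩, fun g hg => ?_⟩
      have hg' : Dec V g := hg
      show Dec _ ((ε g : ι.fieldRange.fixingSubgroup) : Ω ≃ₐ[k] Ω)
      intro x
      have h6 := hg' (θ.symm x)
      rw [h1]
      rw [ValuationSubring.mem_comap, ValuationSubring.mem_comap]
      show θ.symm (θ (g (θ.symm x))) ∈ V ↔ θ.symm x ∈ V
      rw [θ.symm_apply_apply]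
      exact h6
  refine Hom.card hp (m := 1) hp.not_dvd_one hA hB (fun g => ε.symm_apply_apply g) (fun g => ε.apply_symm_apply g) (fun a => ?_) (fun a => ?_)
  · rw [one_nsmul]
    exact Φ.symm_apply_apply a
  · rw [one_nsmul]
    exact Φ.apply_symm_apply a

end SSG
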