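import Mathlib
import Pool.Agent.Lib.SSG.Z.A0
import Pool.Agent.Lib.H55P.Z11

/-! Chunk L4 (M). From k to F: N is an intermediate field of Ω/F, k ⊆ F. The groups N.fixingSubgroup (in Gal(Ω/F)) and (N.restrictScalars k).fixingSubgroup (in Gal(Ω/k)) are equal as sets of maps Ω → Ω.
PROOF. Hom.card (ZH.lean) with m = 1. e₁ : N.fixingSubgroup →* (N.restrictScalars k).fixingSubgroup, s ↦ s.restrictScalars k; e : back, t ↦ AlgEquiv.ofRingEquiv (t fixes N, hence the image of F). Points: base_iso in H55P/Z11.lean: φ : Pt W Ω ≃+ Pt (W⁄F) Ω with φ (ac W (s.restrictScalars k) P) = ac (W⁄F) s (φ P)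
(see its use in H55P/Z12.lean, Z11.lean: sel_base; there F is a number field or a general field: check its hypotheses). U: L finite over k, take IntermediateField.adjoin F of a finite set of generators of L (k-basis); fixing it implies fixing L. L finite over F, F finite over k: L.restrictScalars k. D: the same V. -/

open WeierstrassCurve H55P

namespace SSG

open Classical in
theorem base_card {k : Type} [Field k] [CharZero k] (W : WeierstrassCurve k) {F : Type} [Field F] [Algebra k F] [FiniteDimensional k F] {Ω : Type} [Field Ω]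
    [Algebra k Ω] [Algebra F Ω] [IsScalarTower k F Ω] [IsAlgClosed Ω] [Algebra.IsAlgebraic k Ω] (N : IntermediateField F Ω) {p : ℕ}
    (hp : p.Prime) : Nat.card (PP p ((galS (W⁄F) Ω).res N.fixingSubgroup).Sha) =
      Nat.card (PP p ((galS W Ω).res (N.restrictScalars k).fixingSubgroup).Sha) := by
  obtain ⟨φ₀, hφ₀⟩ := base_iso (F := F) (Ω := Ω) W
  obtain ⟨e₁, he₁⟩ : ∃ e₁ : N.fixingSubgroup →* (N.restrictScalars k).fixingSubgroup,
      ∀ s, ((e₁ s : (N.restrictScalars k).fixingSubgroup) : Ω ≃ₐ[k] Ω) = (s : Ω ≃ₐ[F] Ω).restrictScalars k :=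
    ⟨{ toFun := fun s => ⟨(s : Ω ≃ₐ[F] Ω).restrictScalars k, Z11_mem N s.1 s.2⟩
       map_one' := rfl
       map_mul' := fun s t => rfl }, fun s => rfl⟩
  have hbij : Function.Bijective e₁ := by
    constructor
    · intro s t hst
      have h1 : (s : Ω ≃ₐ[F] Ω).restrictScalars k = (t : Ω ≃ₐ[F] Ω).restrictScalars k := by
        rw [← he₁, ← he₁, hst]
      apply Subtype.ext
      exact AlgEquiv.ext fun x => congrArg (fun f : Ω ≃ₐ[k] Ω => f x) h1
    · intro t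
      obtain ⟨s, hs, hs'⟩ := Z11_lift N t.1 t.2
      exact ⟨⟨s, hs'⟩, Subtype.ext (by rw [he₁]; exact hs)⟩
  obtain ⟨E, hE⟩ : ∃ E : N.fixingSubgroup ≃* (N.restrictScalars k).fixingSubgroup, ∀ s, E s = e₁ s :=
    ⟨MulEquiv.ofBijective e₁ hbij, fun s => rfl⟩
  have hEs : ∀ t, e₁ (E.symm t) = t := fun t => by rw [← hE, MulEquiv.apply_symm_apply]
  have hsE : ∀ s, E.symm (e₁ s) = s := fun s => by rw [← hE, MulEquiv.symm_apply_apply]
  have hpt : ∀ t x, ((E.symm t : N.fixingSubgroup) : Ω ≃ₐ[F] Ω) x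
      = ((t : (N.restrictScalars k).fixingSubgroup) : Ω ≃ₐ[k] Ω) x := by
    intro t x
    conv_rhs => rw [← hEs t, he₁]
    rfl
  have hpt' : ∀ s x, ((e₁ s : (N.restrictScalars k).fixingSubgroup) : Ω ≃ₐ[k] Ω) x
      = ((s : N.fixingSubgroup) : Ω ≃ₐ[F] Ω) x := by
    intro s x
    rw [he₁]
    rfl
  have h : Hom ((galS (W⁄F) Ω).res N.fixingSubgroup) ((galS W Ω).res (N.restrictScalars k).fixingSubgroup)
      E.symm.toMonoidHom (φ₀.symm.toAddMonoidHom) := by
    refine ⟨fun g a => ?_, ?_, ?_⟩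
    · apply φ₀.injective
      show φ₀ (φ₀.symm (ac (W⁄F) ((E.symm g : N.fixingSubgroup) : Ω ≃ₐ[F] Ω) a))
        = φ₀ (ac W ((g : (N.restrictScalars k).fixingSubgroup) : Ω ≃ₐ[k] Ω) (φ₀.symm a))
      have e1 : ((g : (N.restrictScalars k).fixingSubgroup) : Ω ≃ₐ[k] Ω)
          = ((E.symm g : N.fixingSubgroup) : Ω ≃ₐ[F] Ω).restrictScalars k := by
        rw [← he₁, hEs]
      rw [AddEquiv.apply_symm_apply, e1, hφ₀, AddEquiv.apply_symm_apply]
    · rintro _ ⟨_, ⟨L, hL, rfl⟩, rfl⟩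
      haveI : FiniteDimensional F L := hL
      have hfin : FiniteDimensional k (L.restrictScalars k) := FiniteDimensional.trans k F L
      refine ⟨_, ⟨_, ⟨L.restrictScalars k, hfin, rfl⟩, rfl⟩, fun g hg => ?_⟩
      have hg' : ((g : (N.restrictScalars k).fixingSubgroup) : Ω ≃ₐ[k] Ω) ∈ (L.restrictScalars k).fixingSubgroup := hg
      show ((E.symm g : N.fixingSubgroup) : Ω ≃ₐ[F] Ω) ∈ L.fixingSubgroup
      rw [IntermediateField.mem_fixingSubgroup_iff] at hg' ⊢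
      intro x hx
      rw [hpt]
      exact hg' x hx
    · rintro _ ⟨_, ⟨V, hV, rfl⟩, rfl⟩
      refine ⟨_, ⟨_, ⟨V, hV, rfl⟩, rfl⟩, fun g hg => ?_⟩
      intro x
      show ((E.symm g : N.fixingSubgroup) : Ω ≃ₐ[F] Ω) x ∈ V ↔ x ∈ V
      rw [hpt]
      exact hg x
  have h' : Hom ((galS W Ω).res (N.restrictScalars k).fixingSubgroup) ((galS (W⁄F) Ω).res N.fixingSubgroup)
      e₁ (φ₀.toAddMonoidHom) := by
    refine ⟨fun g a => ?_, ?_, ?_⟩
    · show φ₀ (ac W ((e₁ g : (N.restrictScalars k).fixingSubgroup) : Ω ≃ₐ[k] Ω) a)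
        = ac (W⁄F) ((g : N.fixingSubgroup) : Ω ≃ₐ[F] Ω) (φ₀ a)
      rw [he₁, hφ₀]
    · rintro _ ⟨_, ⟨L, hL, rfl⟩, rfl⟩
      haveI : FiniteDimensional k L := hL
      obtain ⟨L', hL', hg⟩ := Z11_field (F := F) L
      refine ⟨_, ⟨_, ⟨L', hL', rfl⟩, rfl⟩, fun g hg' => ?_⟩
      show ((e₁ g : (N.restrictScalars k).fixingSubgroup) : Ω ≃ₐ[k] Ω) ∈ L.fixingSubgroup
      rw [he₁]
      exact hg _ hg'
    · rintro _ ⟨_, ⟨V, hV, rfl⟩, rfl⟩
      refine ⟨_, ⟨_, ⟨V, hV, rfl⟩, rfl⟩, fun g hg => ?_⟩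
      intro x
      show ((e₁ g : (N.restrictScalars k).fixingSubgroup) : Ω ≃ₐ[k] Ω) x ∈ V ↔ x ∈ V
      rw [hpt']
      exact hg x
  refine h.card hp hp.not_dvd_one h' (fun g => hsE g) (fun g => hEs g) (fun a => ?_) (fun a => ?_)
  · rw [one_nsmul]
    exact φ₀.apply_symm_apply a
  · rw [one_nsmul]
    exact φ₀.symm_apply_apply a

end SSG
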