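import Mathlib
import Pool.Agent.Lib.SSG.Z.A5

/-! Chunk A6 (S/M). The index two step. H is normal (Subgroup.normal_of_index_eq_two; have hN : H.Normal := ... puts it in the context). Choose τ not in H (index two: H is not ⊤). exists_cor (A5) gives k.
Apply two_card (A1) with X = S.Sha, Y = (S.res H).Sha, r = (res_hom S H).map, k, T = (conj_hom hS H τ).map, a = the map of the morphism h_a : Hom (S.res H) (S.res H) (MonoidHom.id H) α (eqv from hα; U, D trivial).
T T = 1: conj_twice (τ τ in H by index two). a a = -d: on cocycles (LS.cl_surj, Hom.map_cl, LS.cl_eq with P = 0). T a = -a T: on cocycles T(a c)(h) = τ α c(τ⁻¹ h τ) = -α τ c(τ⁻¹ h τ) (hα' for τ); no coboundary is needed. -/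

namespace SSG

variable {G A : Type} [Group G] [AddCommGroup A]

theorem index_two {S : LS G A} (hS : S.Conj) (H : Subgroup G) (hH : ∃ u ∈ S.U, u ≤ H) (hi : H.index = 2) {p d : ℕ} (hp : p.Prime)
    (hp2 : p ≠ 2) (hd : ¬ p ∣ d) (α : A →+ A) (hαα : ∀ P, α (α P) = -(d • P)) (hα : ∀ h ∈ H, ∀ P, α (S.act h P) = S.act h (α P))
    (hα' : ∀ g, g ∉ H → ∀ P, α (S.act g P) = -(S.act g (α P))) :
    Nat.card (PP p (S.res H).Sha) = Nat.card (PP p S.Sha) ^ 2 := by
  have hN : H.Normal := Subgroup.normal_of_index_eq_two hi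
  obtain ⟨τ, hτ⟩ : ∃ τ, τ ∉ H := by
    by_contra hc
    push Not at hc
    have h1 : H = ⊤ := (Subgroup.eq_top_iff' H).2 hc
    rw [h1, Subgroup.index_top] at hi
    omega
  obtain ⟨k, hk1, hk2⟩ := exists_cor hS H hH hi hτ
  have ha : Hom (S.res H) (S.res H) (MonoidHom.id H) α :=
    ⟨fun g a => hα g g.2 a, fun u hu => ⟨u, hu, fun g hg => hg⟩, fun d hd => ⟨d, hd, fun g hg => hg⟩⟩
  have hττ : τ * τ ∈ H := by rw [Subgroup.mul_mem_iff_of_index_two hi]
  refine two_card hp hp2 hd (res_hom S H).map k (conj_hom hS H τ).map ha.map hk1 hk2 (conj_twice hS H hττ) ?_ ?_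
  · intro y
    obtain ⟨c, rfl⟩ := (S.res H).cl_surj y
    rw [ha.map_cl, ha.map_cl, ← map_nsmul, ← map_neg]
    refine (LS.cl_eq _ _).2 ⟨0, fun g => ?_⟩
    rw [map_zero, sub_zero, add_zero]
    show α (α (c.1 g)) = -(d • c.1 g)
    exact hαα _
  · intro y
    obtain ⟨c, rfl⟩ := (S.res H).cl_surj y
    rw [ha.map_cl, Hom.map_cl, Hom.map_cl, ha.map_cl, ← map_neg]
    refine (LS.cl_eq _ _).2 ⟨0, fun g => ?_⟩
    rw [map_zero, sub_zero, add_zero]
    show S.act τ (α (c.1 (cj H τ g))) = -(α (S.act τ (c.1 (cj H τ g))))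
    rw [hα' τ hτ, neg_neg]

end SSG
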