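import Mathlib
import Pool.Agent.Lib.SSG.Z.A0

/-! Chunk L1 (S/M). Two formal statements.
conj_res: S.Conj implies (S.res H).Conj: for u = u'.subgroupOf H and g in H take u'' from hS.U u' g and u''.subgroupOf H. D similarly.
res_res: for H ≤ K: (S.res K).res (H.subgroupOf K) and S.res H: Hom.card (ZH.lean) with m = 1 (not divisible by p), e : the isomorphism Subgroup.subgroupOfEquivOfLe hle : H.subgroupOf K ≃* H (both directions), φ = identity (AddMonoidHom.id A). U: the sets (u.subgroupOf K).subgroupOf (H.subgroupOf K) and u.subgroupOf H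
correspond; D the same. Hom S S' e φ needs e : G' →* G. -/

namespace SSG

variable {G A : Type} [Group G] [AddCommGroup A]

theorem conj_res {S : LS G A} (hS : S.Conj) (H : Subgroup G) : (S.res H).Conj := by
  constructor
  · rintro _ ⟨u, hu, rfl⟩ g
    obtain ⟨u', hu', h⟩ := hS.U u hu g
    exact ⟨_, ⟨u', hu', rfl⟩, fun x hx => h x hx⟩
  · rintro _ ⟨d, hd, rfl⟩ g
    obtain ⟨d', hd', h⟩ := hS.D d hd g
    exact ⟨_, ⟨d', hd', rfl⟩, fun x hx => h x hx⟩

theorem res_res (S : LS G A) {H K : Subgroup G} (hle : H ≤ K) {p : ℕ} (hp : p.Prime) :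
    Nat.card (PP p ((S.res K).res (H.subgroupOf K)).Sha) = Nat.card (PP p (S.res H).Sha) := by
  have h : Hom ((S.res K).res (H.subgroupOf K)) (S.res H) (Subgroup.subgroupOfEquivOfLe hle).symm.toMonoidHom
      (AddMonoidHom.id A) := by
    refine ⟨fun g a => rfl, ?_, ?_⟩
    · rintro _ ⟨_, ⟨u, hu, rfl⟩, rfl⟩
      exact ⟨_, ⟨u, hu, rfl⟩, fun g hg => hg⟩
    · rintro _ ⟨d, hd, rfl⟩
      exact ⟨_, ⟨_, ⟨d, hd, rfl⟩, rfl⟩, fun g hg => hg⟩
  have h' : Hom (S.res H) ((S.res K).res (H.subgroupOf K)) (Subgroup.subgroupOfEquivOfLe hle).toMonoidHom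
      (AddMonoidHom.id A) := by
    refine ⟨fun g a => rfl, ?_, ?_⟩
    · rintro _ ⟨u, hu, rfl⟩
      exact ⟨_, ⟨_, ⟨u, hu, rfl⟩, rfl⟩, fun g hg => hg⟩
    · rintro _ ⟨_, ⟨d, hd, rfl⟩, rfl⟩
      exact ⟨_, ⟨d, hd, rfl⟩, fun g hg => hg⟩
  exact h.card hp hp.not_dvd_one h' (fun g => rfl) (fun g => rfl) (fun a => (one_nsmul a).symm)
    (fun a => (one_nsmul a).symm)

end SSG
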