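import Mathlib
import Pool.Agent.Lib.SSG.Z.A0

/-! Chunk L2 (M). The system galS W Ω (ZD.lean; G = Ω ≃ₐ[k] Ω, U = the fixing subgroups of the finite extensions L, D = the decomposition groups decS k V of the valuation rings V ≠ ⊤; H55P.Dec V s: s x in V iff x in V; decS in H55P/S1.lean) is stable under conjugation.
U: for u = L.fixingSubgroup and g take L' = L.map (g⁻¹ as an algebra homomorphism) = {g⁻¹ x | x in L} (finite: inferInstance): if x' fixes g⁻¹ L then g x' g⁻¹ fixes L (see the definition of tr in H35L/Ar.lean, field cont, for the same computation).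
D: for d = decS k V and g take V' = {x | g⁻¹ x in V} = V.comap (g⁻¹ as a ring homomorphism) (ValuationSubring.mem_comap): if x' in decS V then g x' g⁻¹ in decS V'. V' ≠ ⊤: otherwise V = ⊤ (for x: g x in V', so g⁻¹ (g x) = x in V). See GI_conj in H35L/Ar.lean. -/

open WeierstrassCurve

namespace SSG

open Classical in
theorem galS_conj {k : Type} [Field k] (W : WeierstrassCurve k) (Ω : Type) [Field Ω] [Algebra k Ω] : (galS W Ω).Conj := by
  refine ⟨?_, ?_⟩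
  · rintro _ ⟨L, hL, rfl⟩ g
    refine ⟨_, ⟨L.map (g⁻¹ : Ω ≃ₐ[k] Ω).toAlgHom, inferInstance, rfl⟩, fun h hm => ?_⟩
    rw [IntermediateField.mem_fixingSubgroup_iff] at hm ⊢
    intro x hx
    have h2 := hm ((g⁻¹ : Ω ≃ₐ[k] Ω) x) ⟨x, hx, rfl⟩
    show g (h ((g⁻¹ : Ω ≃ₐ[k] Ω) x)) = x
    rw [h2]
    show (g * g⁻¹) x = x
    rw [mul_inv_cancel]
    rfl
  · rintro _ ⟨V, hV, rfl⟩ g
    have hm : ∀ x, x ∈ V.comap ((g⁻¹ : Ω ≃ₐ[k] Ω) : Ω →+* Ω) ↔ (g⁻¹ : Ω ≃ₐ[k] Ω) x ∈ V := fun x => ValuationSubring.mem_comap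
    refine ⟨_, ⟨V.comap ((g⁻¹ : Ω ≃ₐ[k] Ω) : Ω →+* Ω), ?_, rfl⟩, fun s hs => ?_⟩
    · intro htop
      apply hV
      rw [eq_top_iff]
      intro x _
      have h1 : g x ∈ V.comap ((g⁻¹ : Ω ≃ₐ[k] Ω) : Ω →+* Ω) := by rw [htop]; trivial
      rw [hm] at h1
      have h2 : (g⁻¹ : Ω ≃ₐ[k] Ω) (g x) = x := g.symm_apply_apply x
      rwa [h2] at h1
    · rw [H55P.mem_decS] at hs ⊢
      intro z
      rw [hm, hm]
      have h2 : (g⁻¹ : Ω ≃ₐ[k] Ω) ((g * s * g⁻¹ : Ω ≃ₐ[k] Ω) z) = s ((g⁻¹ : Ω ≃ₐ[k] Ω) z) := by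
        rw [AlgEquiv.mul_apply, AlgEquiv.mul_apply]
        exact g.symm_apply_apply _
      rw [h2]
      exact hs _

end SSG
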