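import Mathlib
import Pool.Agent.Lib.H55K.NK2
import Pool.Agent.Lib.H55K.RP2
import Pool.Agent.Lib.H55K.RP3

/-! Chunk L6 (M). The fixing groups of ι K and of F ι K in Gal(Ω/ℚ), Ω = AlgebraicClosure F. G₁ = ι.fieldRange.fixingSubgroup, G₂ = ((KG F K ι).restrictScalars ℚ).fixingSubgroup, G₂ ≤ G₁ (kg_le).
An element s of G₁ is in G₂ iff it fixes F (KG is generated over F by ι K: adjoin induction, see H13R/J3.lean, selG_of_triv). CASE 1: F ⊆ ι K (kg_dich, first alternative: f : F →+* K with ι (f y) = y): s in G₁ fixes F, so G₂ = G₁; and KG = ι K as sets (ι K contains F), so the degrees over ℚ agree.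
CASE 2: not. The degree of KG over K is 2: kg_dich gives QuadG F K (KG F K ι) (with the algebra structure KGmap), see its definition (it contains the degree 2) or H55P.Z14; finrank ℚ KG = finrank ℚ K * 2 (Module.finrank_mul_finrank, or through ι.fieldRange).
The index: Subgroup.index_eq_two_iff: there is s₀ in G₁ not in G₂ (some element of F is not in ι K, Galois theory for Ω over ι K: IsGalois, IntermediateField.fixedField_fixingSubgroup or InfiniteGalois; or because the degree is not 1); for s, t in G₁ both not fixing F: s t fixes F (nk2_dich: they act on 𝓞 F as cj, cj (cj a) = a).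
The last clause is nk2_dich. -/

open NumberField IsDedekindDomain WeierstrassCurve

namespace SSG

open H55P (IQ)
open H55K H55K.TQ

theorem kg_index {F : Type} [Field F] [NumberField F] [IQ F] (K : Type) [Field K] [NumberField K] (ι : K →ₐ[ℚ] AlgebraicClosure F)
    [NumberField (KG F K ι)] :
    ((KG F K ι).restrictScalars ℚ).fixingSubgroup ≤ ι.fieldRange.fixingSubgroup ∧
    ((((KG F K ι).restrictScalars ℚ).fixingSubgroup = ι.fieldRange.fixingSubgroup ∧
        Module.finrank ℚ (KG F K ι) = Module.finrank ℚ K) ∨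
      ((((KG F K ι).restrictScalars ℚ).fixingSubgroup.subgroupOf ι.fieldRange.fixingSubgroup).index = 2 ∧
        Module.finrank ℚ (KG F K ι) = 2 * Module.finrank ℚ K ∧
        ∀ s ∈ ι.fieldRange.fixingSubgroup, (s ∈ ((KG F K ι).restrictScalars ℚ).fixingSubgroup →
            ∀ x : F, s (algebraMap F (AlgebraicClosure F) x) = algebraMap F (AlgebraicClosure F) x) ∧
          (s ∉ ((KG F K ι).restrictScalars ℚ).fixingSubgroup → ∀ a : 𝓞 F, s (ak (AlgebraicClosure F) a) = ak (AlgebraicClosure F) (cj a)))) := by
  have hm : ∀ s : AlgebraicClosure F ≃ₐ[ℚ] AlgebraicClosure F,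
      s ∈ ((KG F K ι).restrictScalars ℚ).fixingSubgroup ↔ ∀ x ∈ KG F K ι, s x = x := by
    intro s
    rw [IntermediateField.mem_fixingSubgroup_iff]
    exact Iff.rfl
  have hm1 : ∀ s : AlgebraicClosure F ≃ₐ[ℚ] AlgebraicClosure F,
      s ∈ ι.fieldRange.fixingSubgroup ↔ ∀ y : K, s (ι y) = ι y := by
    intro s
    rw [IntermediateField.mem_fixingSubgroup_iff]
    constructor
    · intro h y
      exact h _ ⟨y, rfl⟩
    · rintro h _ ⟨y, rfl⟩
      exact h y
  have hle : ((KG F K ι).restrictScalars ℚ).fixingSubgroup ≤ ι.fieldRange.fixingSubgroup := by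
    intro s hs
    rw [hm] at hs
    rw [hm1]
    intro y
    exact hs _ (IntermediateField.subset_adjoin F _ ⟨y, rfl⟩)
  have hF : ∀ s ∈ ((KG F K ι).restrictScalars ℚ).fixingSubgroup,
      ∀ x : F, s (algebraMap F (AlgebraicClosure F) x) = algebraMap F (AlgebraicClosure F) x := by
    intro s hs x
    rw [hm] at hs
    exact hs _ ((KG F K ι).algebraMap_mem x)
  have hF' : ∀ s ∈ ι.fieldRange.fixingSubgroup,
      (∀ x : F, s (algebraMap F (AlgebraicClosure F) x) = algebraMap F (AlgebraicClosure F) x) →
      s ∈ ((KG F K ι).restrictScalars ℚ).fixingSubgroup := by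
    intro s hs h
    rw [hm1] at hs
    rw [hm]
    intro x hx
    refine IntermediateField.adjoin_induction F (p := fun x _ => s x = x) ?_ ?_ ?_ ?_ ?_ hx
    · rintro _ ⟨y, rfl⟩
      exact hs y
    · exact h
    · intro x y _ _ h1 h2
      rw [map_add, h1, h2]
    · intro x _ h1
      rw [map_inv₀, h1]
    · intro x y _ _ h1 h2
      rw [map_mul, h1, h2]
  refine ⟨hle, ?_⟩
  rcases kg_dich F K ι with ⟨f, hf⟩ | hQ
  · left
    refine ⟨le_antisymm hle fun s hs => hF' s hs fun x => ?_, ?_⟩
    · rw [hm1] at hs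
      rw [← hf x, hs]
    · letI : Algebra F K := f.toAlgebra
      obtain ⟨e⟩ := kg_iso F K ι f hf
      let e' : K →+* KG F K ι := (e : K ≃+* KG F K ι)
      let g : K →ₗ[ℚ] KG F K ι :=
        { toFun := e'
          map_add' := map_add e'
          map_smul' := fun q x => by
            rw [RingHom.id_apply, Rat.smul_def, map_mul, map_ratCast, Rat.smul_def] }
      exact (LinearEquiv.finrank_eq (LinearEquiv.ofBijective g ⟨e.injective, e.surjective⟩)).symm
  · right
    letI : Algebra K (KG F K ι) := (KGmap F K ι).toAlgebra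
    have hd : Module.finrank ℚ (KG F K ι) = 2 * Module.finrank ℚ K := by
      have h1 := Module.finrank_mul_finrank ℚ K (KG F K ι)
      rw [hQ.rank] at h1
      rw [← h1, mul_comm]
    have hpos : 0 < Module.finrank ℚ K := Module.finrank_pos
    have hne : ∃ s₀ ∈ ι.fieldRange.fixingSubgroup, s₀ ∉ ((KG F K ι).restrictScalars ℚ).fixingSubgroup := by
      by_contra hcon
      push Not at hcon
      have h1 : ((KG F K ι).restrictScalars ℚ).fixingSubgroup = ι.fieldRange.fixingSubgroup :=
        le_antisymm hle hcon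
      have halg : Algebra.IsAlgebraic ℚ (AlgebraicClosure F) := Algebra.IsAlgebraic.trans ℚ F (AlgebraicClosure F)
      have hcl : IsAlgClosure ℚ (AlgebraicClosure F) := ⟨inferInstance, halg⟩
      have hgal : IsGalois ℚ (AlgebraicClosure F) := IsAlgClosure.isGalois ℚ (AlgebraicClosure F)
      have h2 := congrArg IntermediateField.fixedField h1
      rw [InfiniteGalois.fixedField_fixingSubgroup, InfiniteGalois.fixedField_fixingSubgroup] at h2
      -- every element of KG is in the range of ι
      have hsurj : Function.Surjective (KGmap F K ι) := by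
        rintro ⟨x, hx⟩
        have h3 : x ∈ ι.fieldRange := by
          rw [← h2]
          exact hx
        obtain ⟨y, hy⟩ := h3
        exact ⟨y, Subtype.ext hy⟩
      let g : K →ₗ[ℚ] KG F K ι :=
        { toFun := KGmap F K ι
          map_add' := map_add _
          map_smul' := fun q x => by
            rw [RingHom.id_apply, Rat.smul_def, map_mul, map_ratCast, Rat.smul_def] }
      have h3 := LinearEquiv.finrank_eq (LinearEquiv.ofBijective g ⟨(KGmap F K ι).injective, hsurj⟩)
      omega
    have hc : ∀ s ∈ ι.fieldRange.fixingSubgroup, s ∉ ((KG F K ι).restrictScalars ℚ).fixingSubgroup →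
        ∀ a : 𝓞 F, s (ak (AlgebraicClosure F) a) = ak (AlgebraicClosure F) (cj a) := by
      intro s hs hs'
      rcases nk2_dich (F := F) s with h | h
      · exact absurd (hF' s hs h) hs'
      · exact h
    refine ⟨?_, hd, fun s hs => ⟨hF s, hc s hs⟩⟩
    obtain ⟨s₀, h0, h0'⟩ := hne
    rw [Subgroup.index_eq_two_iff]
    refine ⟨⟨s₀, h0⟩, ?_⟩
    rintro ⟨t, ht⟩
    rw [Subgroup.mem_subgroupOf, Subgroup.mem_subgroupOf]
    show Xor (t * s₀ ∈ ((KG F K ι).restrictScalars ℚ).fixingSubgroup) (t ∈ ((KG F K ι).restrictScalars ℚ).fixingSubgroup)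
    by_cases h : t ∈ ((KG F K ι).restrictScalars ℚ).fixingSubgroup
    · right
      exact ⟨h, fun h' => h0' ((Subgroup.mul_mem_cancel_left _ h).1 h')⟩
    · left
      refine ⟨hF' _ (mul_mem ht h0) ?_, h⟩
      have h1 := hc t ht h
      have h2 := hc s₀ h0 h0'
      have h3 : ∀ a : 𝓞 F, (t * s₀) (algebraMap F (AlgebraicClosure F) (a : F)) = algebraMap F (AlgebraicClosure F) (a : F) := by
        intro a
        have h4 : (t * s₀) (ak (AlgebraicClosure F) a) = ak (AlgebraicClosure F) a := by
          rw [AlgEquiv.mul_apply, h2, h1, cj_cj]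
        exact h4
      intro x
      obtain ⟨a, b, hb, rfl⟩ := IsFractionRing.div_surjective (A := 𝓞 F) x
      rw [map_div₀, map_div₀]
      congr 1
      · exact h3 a
      · exact h3 b

end SSG
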