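import Mathlib
import Pool.Agent.Lib.SSG.Z.A6
import Pool.Agent.Lib.SSG.Z.L1
import Pool.Agent.Lib.SSG.Z.L2
import Pool.Agent.Lib.SSG.Z.L3
import Pool.Agent.Lib.SSG.Z.L4
import Pool.Agent.Lib.SSG.Z.L6
import Pool.Agent.Lib.SSG.Z.B7
import Pool.Agent.Lib.H55K.NK3
import Pool.Agent.Lib.H55K.FB9B
import Pool.Agent.Lib.H13R.K0

/-! Chunk L7 (M). Assembly: Sha over K and over F K. Ω = AlgebraicClosure F, G₁, G₂ as in L6. ((W⁄ℚ)⁄K) = W⁄K, ((W⁄ℚ)⁄F) = (W⁄(𝓞 F))⁄F (fb9b_map in H55K/FB9B.lean, or ext <;> simp, see H13R/J3.lean).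
card ShaC = card PP (galS (W⁄K) (AlgebraicClosure K)).Sha (bridge, B7) = card PP ((galS (W⁄ℚ) Ω).res G₁).Sha (closure_card, L3, k = ℚ). card PP ((galS ((W⁄(𝓞 F))⁄F) Ω).res N.fixingSubgroup).Sha = card PP ((galS (W⁄ℚ) Ω).res G₂).Sha (base_card, L4).
CASE 1 of kg_index (L6): d = 1. CASE 2: d = 2: index_two (A6) for S = (galS (W⁄ℚ) Ω).res G₁ (conj_res, galS_conj: L1, L2), H = G₂.subgroupOf G₁ (hH: the fixing subgroup of the finite extension (KG F K ι).restrictScalars ℚ is in U: take its subgroupOf), α = the S of exists_sd (H55K/NK3.lean) for δ of nk2_delta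
(cj δ = -δ, p does not divide Nm δ = d): S (S P) = -(Nm δ • P), commutes with the elements fixing F, anticommutes with the others: ac s (S P) = -S (ac s P), so S (ac s P) = -(ac s (S P)). Then res_res (L1). W⁄ℚ, W⁄K are elliptic (Δ ≠ 0 in characteristic 0, see H13R/J3.lean). -/

open NumberField IsDedekindDomain WeierstrassCurve

namespace SSG

open H55P (IQ UnrP ac)
open H55K H55K.TQ

open Classical in
theorem card_KG {F : Type} [Field F] [NumberField F] [IQ F] {W : WeierstrassCurve ℤ} {Om : ℂ} {m : Ideal (𝓞 F)} {ψ : Ideal (𝓞 F) →*₀ 𝓞 F}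
    (hH : BaseH F (W⁄(𝓞 F)) Om m ψ) {p : ℕ} (hp : p.Prime) (hp2 : p ≠ 2) (hU : UnrP p F) (K : Type) [Field K] [NumberField K]
    (ι : K →ₐ[ℚ] AlgebraicClosure F) [NumberField (KG F K ι)] :
    ∃ d : ℕ, 0 < d ∧ Module.finrank ℚ (KG F K ι) = d * Module.finrank ℚ K ∧ Nat.card (ShaC p K (W⁄K)) ^ d =
      Nat.card (PP p ((galS ((W⁄(𝓞 F))⁄F) (AlgebraicClosure F)).res (KG F K ι).fixingSubgroup).Sha) := by
  have hQF := tower_QFF F
  have hQA := alg_QFF F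
  have hd0 : W.Δ ≠ 0 := by
    intro h
    apply hH.data.ell
    have e := WeierstrassCurve.map_Δ W (algebraMap ℤ (𝓞 F))
    rw [h, map_zero] at e
    exact e
  have hellK : (W⁄K).IsElliptic := by
    rw [WeierstrassCurve.isElliptic_iff]
    have e := WeierstrassCurve.map_Δ W (algebraMap ℤ K)
    refine IsUnit.mk0 _ ?_
    intro h
    apply hd0
    have h1 : (algebraMap ℤ K) W.Δ = 0 := e.symm.trans h
    rw [eq_intCast] at h1
    exact_mod_cast h1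
  have e1 : ((W⁄ℚ)⁄F) = ((W⁄(𝓞 F))⁄F) := by
    rw [fb9b_map, fb9b_map]
  have e2 : ((W⁄ℚ)⁄K) = (W⁄K) := fb9b_map W
  have c1 := bridge (W⁄K) hp hp2
  have c2 := closure_card (k := ℚ) (W⁄ℚ) K ι hp
  rw [e2] at c2
  have c3 := base_card (k := ℚ) (W⁄ℚ) (KG F K ι) hp
  rw [e1] at c3
  obtain ⟨hle, ⟨hG, hf⟩ | ⟨hi, hf, hs⟩⟩ := kg_index K ι
  · refine ⟨1, one_pos, by rw [one_mul, hf], ?_⟩
    rw [pow_one, c1, c2, c3, hG]
  · refine ⟨2, two_pos, hf, ?_⟩
    have hKQ : FiniteDimensional ℚ ((KG F K ι).restrictScalars ℚ) := by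
      have : FiniteDimensional F (KG F K ι) := FiniteDimensional.right ℚ F (KG F K ι)
      have : FiniteDimensional ℚ (KG F K ι) := Module.Finite.trans F (KG F K ι)
      exact this
    obtain ⟨δ, hδ, hδp⟩ := nk2_delta (F := F) hp hp2 hU
    obtain ⟨α, a1, a2, a3⟩ := exists_sd hH δ hδ
    have h3 := index_two (S := (galS (W⁄ℚ) (AlgebraicClosure F)).res ι.fieldRange.fixingSubgroup)
      (conj_res (galS_conj (W⁄ℚ) (AlgebraicClosure F)) _)
      (((KG F K ι).restrictScalars ℚ).fixingSubgroup.subgroupOf ι.fieldRange.fixingSubgroup)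
      ⟨_, ⟨_, ⟨(KG F K ι).restrictScalars ℚ, hKQ, rfl⟩, rfl⟩, le_rfl⟩ hi hp hp2 hδp α a1
      (fun h hh P => (a2 _ ((hs _ h.2).1 hh) P).symm)
      (fun g hg P => by
        have h4 := a3 _ ((hs _ g.2).2 hg) P
        show α (ac (W⁄ℚ) (g : AlgebraicClosure F ≃ₐ[ℚ] AlgebraicClosure F) P) =
          -(ac (W⁄ℚ) (g : AlgebraicClosure F ≃ₐ[ℚ] AlgebraicClosure F) (α P))
        rw [h4, neg_neg])
    rw [c1, c2, c3, ← h3]
    exact res_res (galS (W⁄ℚ) (AlgebraicClosure F)) hle hp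

end SSG
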