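import Mathlib
import Pool.Agent.Lib.H55Z.Q8
import Pool.Agent.Lib.H35L.Ar
import Pool.Agent.Lib.H55K.FB1

/-! Chunk L10 (M). The fixing group of a layer. H55Z.Layer p n M K: K = M Q, Q a subfield of K of degree p^n over ℚ with an embedding f : Q → CyclotomicField (p^(n+1)) ℚ. Gc p n s: the exponent a of s on the p^(n+1)-th roots of unity satisfies a^(p-1) = 1 mod p^(n+1).
PROOF. s fixes K iff s fixes M and Q (Algebra.adjoin M Q = ⊤: adjoin induction; conversely clear). Let ζ be a primitive p^(n+1)-th root of unity in Ω, C = ℚ(ζ) (IntermediateField.adjoin ℚ {ζ} in Ω; cyclotomic, Galois over ℚ with cyclic group (ZMod (p^(n+1)))ˣ of order p^n (p-1), p odd). The image Q' of Q in Ω is contained in C: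
f and C ≅ CyclotomicField give an embedding of Q in Ω with image in C, and Q is normal over ℚ (H55Z.p3_gal f), so the image of the inclusion is the same (AlgHom.fieldRange_of_normal; see H55Z.q1_mem in Q1.lean for exactly this: algebraMap N L x ∈ Algebra.adjoin ℚ {ζ}; it can be applied with L = a number field in Ω containing K and ζ).
s ζ = ζ^a with a prime to p; s restricted to C is σ_a. Gal(C/Q') has order (p-1) (degree p^n (p-1) over ℚ, degree p^n of Q'), in the cyclic group of order p^n (p-1) it is the set of the x with x^(p-1) = 1 (a cyclic group has exactly (p-1) elements x with x^(p-1) = 1 since (p-1) divides the order: IsCyclic.card_pow_eq_one_eq_gcd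
or IsCyclic.card_powMonoidHom_ker; inclusion by Lagrange, equality by cardinality). So s fixes Q' iff σ_a in Gal(C/Q') iff a^(p-1) = 1 mod p^(n+1) (H55Z.q2_order, Q2.lean, with K = ℚ or M may give this at once: (restriction of σ to N)^k = 1 iff q^(k (p-1)) = 1; take k = 1).
∀ z with z^(p^(n+1)) = 1: z is a power of ζ, so s z = z^a. In the direction from Gc: the a of Gc agrees with the exponent modulo p^(n+1). -/

open NumberField IsDedekindDomain WeierstrassCurve

namespace SSG

open H55P (IQ)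

/-- The ranges of two embeddings of a normal field agree. -/
theorem l10_range {k Q Ω : Type} [Field k] [Field Q] [Field Ω] [Algebra k Q] [Algebra k Ω] (hn : Normal k Q) (g h : Q →ₐ[k] Ω) :
    ∀ x : Q, ∃ y : Q, g y = h x := by
  let eh : Q ≃ₐ[k] h.fieldRange := AlgEquiv.ofInjectiveField h
  have hn' : Normal k h.fieldRange := Normal.of_algEquiv eh
  have h2 := AlgHom.fieldRange_of_normal (E := h.fieldRange) (g.comp (eh.symm : h.fieldRange →ₐ[k] Q))
  intro x
  have h3 : h x ∈ h.fieldRange := ⟨x, rfl⟩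
  rw [← h2] at h3
  obtain ⟨y, hy⟩ := h3
  exact ⟨eh.symm y, hy⟩

/-- The automorphisms fixing a subfield of degree p^n of the cyclotomic field. -/
theorem l10_fix {p : ℕ} [Fact p.Prime] {n : ℕ} {Q Ω : Type} [Field Q] [NumberField Q] [Field Ω] [CharZero Ω] [Algebra ℚ Ω] [IsAlgClosed Ω]
    (hQ : Module.finrank ℚ Q = p ^ n) (f : Q →ₐ[ℚ] CyclotomicField (p ^ (n + 1)) ℚ) (g : Q →ₐ[ℚ] Ω) (s : Ω ≃ₐ[ℚ] Ω) :
    (∀ x, s (g x) = g x) ↔ ∃ a : ℕ, a ^ (p - 1) ≡ 1 [MOD p ^ (n + 1)] ∧ ∀ z : Ω, z ^ p ^ (n + 1) = 1 → s z = z ^ a := by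
  have := H55Z.p3_ne (p := p) n
  have hcyc := H55Z.p3_cyc (p := p) n
  have hab := H55Z.p3_gal f
  have hGQ : IsGalois ℚ Q := hab.toIsGalois
  obtain ⟨C, i1, i2, hC, ⟨f⟩⟩ : ∃ (C : Type) (_ : Field C) (_ : NumberField C), IsCyclotomicExtension {p ^ (n + 1)} ℚ C ∧ Nonempty (Q →ₐ[ℚ] C) :=
    ⟨CyclotomicField (p ^ (n + 1)) ℚ, inferInstance, inferInstance, hcyc, ⟨f⟩⟩
  have hGC : IsGalois ℚ C := IsCyclotomicExtension.isGalois {p ^ (n + 1)} ℚ C
  have halg : Algebra.IsAlgebraic ℚ C := Algebra.IsAlgebraic.of_finite ℚ C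
  let c : C →ₐ[ℚ] Ω := IsAlgClosed.lift
  let _ : Algebra C Ω := c.toRingHom.toAlgebra
  have hto : IsScalarTower ℚ C Ω := IsScalarTower.of_algebraMap_eq fun x => (c.commutes x).symm
  let _ : Algebra Q C := f.toRingHom.toAlgebra
  have hto' : IsScalarTower ℚ Q C := IsScalarTower.of_algebraMap_eq fun x => (f.commutes x).symm
  let σ : Gal(C/ℚ) := s.restrictNormal C
  have hσ : ∀ y : C, c (σ y) = s (c y) := fun y => AlgEquiv.restrictNormal_commutes s C y
  obtain ⟨ζ, hζ⟩ : ∃ ζ : C, IsPrimitiveRoot ζ (p ^ (n + 1)) := ⟨_, IsCyclotomicExtension.zeta_spec (p ^ (n + 1)) ℚ C⟩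
  have hζΩ : IsPrimitiveRoot (c ζ) (p ^ (n + 1)) := hζ.map_of_injective c.injective
  have h1 : (∀ x, s (g x) = g x) ↔ AlgEquiv.restrictNormalHom Q σ ^ 1 = 1 := by
    have h2 : (∀ x, s (g x) = g x) ↔ ∀ x, s (c (f x)) = c (f x) := by
      constructor
      · intro h x
        obtain ⟨y, hy⟩ := l10_range hGQ.to_normal g (c.comp f) x
        have hy' : g y = c (f x) := hy
        rw [← hy', h]
      · intro h x
        obtain ⟨y, hy⟩ := l10_range hGQ.to_normal (c.comp f) g x
        have hy' : c (f y) = g x := hy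
        rw [← hy', h]
    rw [h2, pow_one]
    constructor
    · intro h
      apply AlgEquiv.ext
      intro x
      have h3 := AlgEquiv.restrictNormal_commutes σ Q x
      have h4 : f ((AlgEquiv.restrictNormalHom Q σ) x) = σ (f x) := h3
      have h5 : c (σ (f x)) = c (f x) := by rw [hσ, h]
      exact f.injective (h4.trans (c.injective h5))
    · intro h x
      have h3 := AlgEquiv.restrictNormal_commutes σ Q x
      have h4 : f ((AlgEquiv.restrictNormalHom Q σ) x) = σ (f x) := h3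
      rw [h] at h4
      rw [← hσ, ← h4]
      rfl
  have key : ∀ a : ℕ, s (c ζ) = (c ζ) ^ a → ((∀ x, s (g x) = g x) ↔ a ^ (p - 1) ≡ 1 [MOD p ^ (n + 1)]) := by
    intro a ha
    have h2 : σ ζ = ζ ^ a := by
      have h5 : c (σ ζ) = c (ζ ^ a) := by rw [hσ, ha, map_pow]
      exact c.injective h5
    rw [h1, H55Z.q2_order hQ hGQ hζ σ h2 1, one_mul, ← ZMod.natCast_eq_natCast_iff, Nat.cast_pow, Nat.cast_one]
  constructor
  · intro h
    have h3 : (s (c ζ)) ^ p ^ (n + 1) = 1 := by rw [← map_pow, hζΩ.pow_eq_one, map_one]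
    obtain ⟨a, -, ha⟩ := hζΩ.eq_pow_of_pow_eq_one h3
    refine ⟨a, (key a ha.symm).1 h, fun z hz => ?_⟩
    obtain ⟨i, -, rfl⟩ := hζΩ.eq_pow_of_pow_eq_one hz
    rw [map_pow, ← ha, ← pow_mul, ← pow_mul, mul_comm]
  · rintro ⟨a, ha, h⟩
    exact (key a (h _ hζΩ.pow_eq_one)).2 ha

theorem layer_fix {p : ℕ} [Fact p.Prime] (h2 : p ≠ 2) {n : ℕ} {F : Type} [Field F] [NumberField F] [IQ F]
    (M K : IntermediateField F (AlgebraicClosure F)) [NumberField M] [NumberField K] (hle : M ≤ K)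
    (h : letI : Algebra M K := (IntermediateField.inclusion hle).toRingHom.toAlgebra
      H55Z.Layer p n M K) (s : AlgebraicClosure F ≃ₐ[F] AlgebraicClosure F) :
    s ∈ K.fixingSubgroup ↔ s ∈ M.fixingSubgroup ∧ H35L.Gc p n s := by
  let _ : Algebra M K := (IntermediateField.inclusion hle).toRingHom.toAlgebra
  obtain ⟨Q, hQ, ⟨f⟩, htop⟩ := h
  have hQF := H55K.TQ.tower_QFF F
  let g : Q →ₐ[ℚ] AlgebraicClosure F := ((algebraMap K (AlgebraicClosure F)).comp (algebraMap Q K)).toRatAlgHom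
  have h1 := l10_fix hQ f g (s.restrictScalars ℚ)
  rw [IntermediateField.mem_fixingSubgroup_iff, IntermediateField.mem_fixingSubgroup_iff]
  constructor
  · intro h
    exact ⟨fun x hx => h x (hle hx), h1.1 fun x => h _ (x : K).2⟩
  · rintro ⟨h2, h3⟩ x hx
    have h4 := h1.2 h3
    have h5 : (⟨x, hx⟩ : K) ∈ Algebra.adjoin M (Q : Set K) := htop ▸ Algebra.mem_top
    refine Algebra.adjoin_induction (p := fun (y : K) _ => s (y : AlgebraicClosure F) = y) ?_ ?_ ?_ ?_ h5
    · intro y hy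
      exact h4 ⟨y, hy⟩
    · intro r
      exact h2 _ r.2
    · intro a b _ _ ha hb
      show s ((a : AlgebraicClosure F) + b) = (a : AlgebraicClosure F) + b
      rw [map_add, ha, hb]
    · intro a b _ _ ha hb
      show s ((a : AlgebraicClosure F) * b) = (a : AlgebraicClosure F) * b
      rw [map_mul, ha, hb]

end SSG
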