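import Mathlib
import Pool.Agent.Lib.SSG.Z.A0
import Pool.Agent.Lib.H28I.D

/-! Chunk L5 (S). Isogenous curves. H28I.Iso6 W₁ W₂ Ω: Φ, Ψ equivariant with Ψ Φ = 6, Φ Ψ = 6. Hom.card (ZH.lean) with e = e₁ = the identity (MonoidHom.id), m = 6, φ = Φ, φ₁ = Ψ; U, D are the same for both curves (rfl up to unfolding galS, res). DecidableEq instances: open Classical in; if Iso6 carries another instance, Subsingleton.elim. -/

open WeierstrassCurve H55P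

namespace SSG

open Classical in
theorem iso6_card {K : Type} [Field K] {W₁ W₂ : WeierstrassCurve K} {Ω : Type} [Field Ω] [Algebra K Ω] (h : H28I.Iso6 W₁ W₂ Ω) {p : ℕ} (hp : p.Prime)
    (h5 : 5 ≤ p) : Nat.card (PP p (galS W₁ Ω).Sha) = Nat.card (PP p (galS W₂ Ω).Sha) := by
  obtain ⟨Φ, Ψ, h1, h2, h3, h4⟩ := h
  have hm : ¬ p ∣ 6 := by
    intro hd
    have h6 := Nat.le_of_dvd (by norm_num) hd
    interval_cases p <;> revert hp hd <;> decide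
  have H1 : Hom (galS W₁ Ω) (galS W₂ Ω) (MonoidHom.id (Ω ≃ₐ[K] Ω)) Φ :=
    ⟨fun g a => h3 g a, fun u hu => ⟨u, hu, fun g hg => hg⟩, fun d hd => ⟨d, hd, fun g hg => hg⟩⟩
  have H2 : Hom (galS W₂ Ω) (galS W₁ Ω) (MonoidHom.id (Ω ≃ₐ[K] Ω)) Ψ :=
    ⟨fun g a => h4 g a, fun u hu => ⟨u, hu, fun g hg => hg⟩, fun d hd => ⟨d, hd, fun g hg => hg⟩⟩
  exact H1.card hp hm H2 (fun g => rfl) (fun g => rfl) h1 h2

end SSG
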