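import Mathlib
import Pool.Agent.Lib.H55K.FB9B
import Pool.Agent.Lib.H55K.RP2
import Pool.Agent.Lib.H55P.S6
import Pool.Agent.Lib.H55P.Z11

/-! Chunk L8 (S/M). The points over K from the points over F K. The points of W over ι K (fb9b_pts in H55K/FB9B.lean reduces K to ι.fieldRange; finite and order not divisible by p) embed in Pt (W⁄ℚ) Ω (Point.map of the inclusion, injective), hence (base_iso in H55P/Z11.lean: Pt (W⁄ℚ) Ω ≃+ Pt ((W⁄(𝓞 F))⁄F) Ω, compatible with the actions) in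
the set of the points fixed by (KG F K ι).fixingSubgroup (an element fixing KG fixes ι K). The set is finite, so Pt is finite; if p divides its order then there is a point of order p (exists_prime_addOrderOf_dvd_card), contradiction. See H13R/J3.lean (sel_absR) for the same transports. -/

open NumberField IsDedekindDomain WeierstrassCurve

namespace SSG

open H55P (IQ Pt ac)
open H55K H55K.TQ

open Classical in
/-- The same with a general set of fixed points. -/
theorem l8_main {F : Type} [Field F] [NumberField F] [IQ F] (W : WeierstrassCurve ℚ) {p : ℕ} (hp : p.Prime) (K : Type) [Field K] [NumberField K]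
    (ι : K →ₐ[ℚ] AlgebraicClosure F)
    (h1 : {P : Pt (W⁄F) (AlgebraicClosure F) | ∀ s ∈ (KG F K ι).fixingSubgroup, ac (W⁄F) s P = P}.Finite)
    (h2 : ∀ P : Pt (W⁄F) (AlgebraicClosure F), (∀ s ∈ (KG F K ι).fixingSubgroup, ac (W⁄F) s P = P) → p • P = 0 → P = 0) :
    Finite (Pt W K) ∧ ¬ p ∣ Nat.card (Pt W K) := by
  have hQF := tower_QFF F
  obtain ⟨φ, hφ⟩ := H55P.base_iso (k := ℚ) (F := F) (Ω := AlgebraicClosure F) W
  let f : Pt W K →+ Pt W (AlgebraicClosure F) := Affine.Point.map (W' := W.toAffine) ι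
  have hf : Function.Injective f := Affine.Point.map_injective _
  have hfix : ∀ P : Pt W K, ∀ s ∈ (KG F K ι).fixingSubgroup, ac (W⁄F) s (φ (f P)) = φ (f P) := by
    intro P s hs
    rw [← hφ]
    congr 1
    have hs1 : ∀ x : K, s (ι x) = ι x := fun x =>
      (IntermediateField.mem_fixingSubgroup_iff _ _).1 hs _
        (IntermediateField.subset_adjoin F _ ⟨x, rfl⟩)
    have e : (s.restrictScalars ℚ).toAlgHom.comp ι = ι := AlgHom.ext hs1
    have e2 := Affine.Point.map_map (W' := W.toAffine) ι (s.restrictScalars ℚ).toAlgHom P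
    rw [e] at e2
    exact e2
  have hfin : Finite (Pt W K) := by
    have h3 := h1.to_subtype
    refine Finite.of_injective (fun P : Pt W K =>
      (⟨φ (f P), hfix P⟩ : {P : Pt (W⁄F) (AlgebraicClosure F) |
        ∀ s ∈ (KG F K ι).fixingSubgroup, ac (W⁄F) s P = P})) ?_
    intro P Q hPQ
    exact hf (φ.injective (congrArg Subtype.val hPQ))
  refine ⟨hfin, ?_⟩
  intro hdvd
  haveI : Fact p.Prime := ⟨hp⟩
  haveI := Fintype.ofFinite (Pt W K)
  obtain ⟨x, hx⟩ := exists_prime_addOrderOf_dvd_card' (G := Pt W K) p hdvd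
  have hx0 : x ≠ 0 := by
    intro h0
    rw [h0, addOrderOf_zero] at hx
    exact hp.one_lt.ne hx
  apply hx0
  have h3 : φ (f x) = 0 := by
    refine h2 _ (hfix x) ?_
    rw [← map_nsmul, ← map_nsmul, ← hx, addOrderOf_nsmul_eq_zero, map_zero, map_zero]
  have h4 : f x = 0 := by
    rw [← map_zero φ] at h3
    exact φ.injective h3
  rw [← map_zero f] at h4
  exact hf h4

open Classical in
theorem pts_KG {F : Type} [Field F] [NumberField F] [IQ F] (W : WeierstrassCurve ℤ) {p : ℕ} (hp : p.Prime) (K : Type) [Field K] [NumberField K]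
    (ι : K →ₐ[ℚ] AlgebraicClosure F)
    (h1 : {P : Pt ((W⁄(𝓞 F))⁄F) (AlgebraicClosure F) | ∀ s ∈ (KG F K ι).fixingSubgroup, ac ((W⁄(𝓞 F))⁄F) s P = P}.Finite)
    (h2 : ∀ P : Pt ((W⁄(𝓞 F))⁄F) (AlgebraicClosure F), (∀ s ∈ (KG F K ι).fixingSubgroup, ac ((W⁄(𝓞 F))⁄F) s P = P) → p • P = 0 → P = 0) :
    Finite (W⁄K).toAffine.Point ∧ ¬ p ∣ Nat.card (W⁄K).toAffine.Point := by
  have e1 : ((W⁄ℚ)⁄F) = ((W⁄(𝓞 F))⁄F) := by
    rw [fb9b_map, fb9b_map]
  rw [← e1] at h1 h2
  have h3 := l8_main (W⁄ℚ) hp K ι h1 h2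
  have e2 : ((W⁄ℚ)⁄K) = (W⁄K) := fb9b_map W
  change Finite ((W⁄ℚ)⁄K).toAffine.Point ∧ ¬ p ∣ Nat.card ((W⁄ℚ)⁄K).toAffine.Point at h3
  rw [e2] at h3
  exact h3

end SSG
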