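import Mathlib
import Pool.Agent.Lib.SSG.Z.L5
import Pool.Agent.Lib.SSG.Z.L7
import Pool.Agent.Lib.SSG.Z.L8
import Pool.Agent.Lib.SSG.Z.L9
import Pool.Agent.Lib.SSG.Z.L10
import Pool.Agent.Lib.H55Z.Q9
import Pool.Agent.Lib.H55Z.X1
import Pool.Agent.Lib.H19A.Stm

/-! # SSG/Z: the theorem for the maximal order and for isogenous curves, from the interfaces (AL) and (E) -/

open NumberField IsDedekindDomain WeierstrassCurve

namespace SSG

open H55P (IQ embF eF LF Per IsHecke Pt ac Inert Dec Nm UnitP UnrP PExt)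
open H35P (WAB Ker tt GoodW IntW)
open H55K H55K.TQ
open H55Z (Layer Spl ValK)

open Classical in
/-- Interface (AL): the algebraic side over the fields between F and its algebraic closure. -/
def ALc (F : Type) [Field F] [NumberField F] [IQ F] (p : ℕ) (W : WeierstrassCurve ℤ) : Prop :=
  ∀ (M K : IntermediateField F (AlgebraicClosure F)) [NumberField M] [NumberField K] (hle : M ≤ K) (n : ℕ),
    Spl F p M → UnrP p M → H13R.BadM (W⁄(𝓞 F)) M → H55P.SelG p (W⁄(𝓞 F)) M →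
    (letI : Algebra M K := (IntermediateField.inclusion hle).toRingHom.toAlgebra; Layer p n M K) →
    Nat.card (PP p ((galS ((W⁄(𝓞 F))⁄F) (AlgebraicClosure F)).res K.fixingSubgroup).Sha) = p ^ (2 * Module.finrank F M * H19A.JS p n) ∧
      {P : Pt ((W⁄(𝓞 F))⁄F) (AlgebraicClosure F) | ∀ s ∈ K.fixingSubgroup, ac ((W⁄(𝓞 F))⁄F) s P = P}.Finite

/-- Interface (E): the analytic side. -/
def Ec (F : Type) [Field F] [NumberField F] [IQ F] (p : ℕ) [Fact p.Prime] (W : WeierstrassCurve ℤ) (Om : ℂ) (ψ : Ideal (𝓞 F) →*₀ 𝓞 F) : Prop :=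
  ∀ (M : IntermediateField F (AlgebraicClosure F)) [NumberField M],
    Spl F p M → UnrP p M → H13R.BadM (W⁄(𝓞 F)) M → H55P.ValG p Om ψ M →
    ∀ k, 1 ≤ k → ∀ χ : DirichletCharacter ℂ (p ^ (k + 1)), orderOf χ = p ^ k → ValK F M p Om ψ k χ

theorem JS_eq (p n : ℕ) : H19A.JS p n = ∑ k ∈ Finset.range n, H35K.J p (k + 1) := rfl

variable {F : Type} [Field F] [NumberField F] [IQ F] {W : WeierstrassCurve ℤ} {Om : ℂ} {m : Ideal (𝓞 F)}
    {ψ : Ideal (𝓞 F) →*₀ 𝓞 F} {p : ℕ}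

open Classical in
/-- THE THEOREM for complex multiplication by the integers of F. -/
theorem tower_max [Fact p.Prime] (hH : BaseH F (W⁄(𝓞 F)) Om m ψ) (hp : PrimeH F (W⁄(𝓞 F)) p) (hI : H19A.InertQ F p)
    (hAL : ALc F p W) (hE : Ec F p W Om ψ) : H19A.TowerThm F p W := by
  intro M _ _ ιM hB n K _ _ _ hLay
  have h5 := hp.five
  have h2 : p ≠ 2 := by omega
  have hpp : p.Prime := hp.prime
  obtain ⟨hS, hUG, hUM⟩ := H55Z.q10_main (F := F) hpp h2 hI hB.split ιM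
  have hdM := H55P.pl1_discr p hpp hUM
  have hdG := H55P.pl1_discr p hpp hUG
  have hLay' : Layer p n M K := H55Z.q7_conv h2 hdM hLay.1 hLay.2.some
  have hLU : H13R.LUnitG p W M := by
    obtain ⟨⟨-, -, -, h1⟩, h3⟩ := hB.unit
    exact (H13R.an_iff hpp h1).1 h3
  have hI0 := H13R.gen_intR hH hp hUG (H13R.pext_self p (KG F M ιM)) le_rfl le_rfl hUG
  have hV := (H13R.lunit_iff hH hp M (KG F M ιM) (H13R.lrelM hH M ιM hB.bad) hUM hI0).1 hLU
  obtain ⟨Λ, hΛa, hΛs, hΛ1, hΛv⟩ := H55Z.q9_main hH hp ιM hUM hUG hB.bad hLU hLay' (fun k h1 _ χ hχ => hE (KG F M ιM) hS hUG hB.bad hV k h1 χ hχ)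
  obtain ⟨ιK, hι⟩ := H55Z.q8_ext (K := K) ιM
  have hle := H55Z.q8_le ιM ιK hι
  have hlay := H55Z.q8_layer hLay' ιM ιK hι hle
  have hSel : H55P.SelG p (W⁄(𝓞 F)) (KG F M ιM) := H13R.selG_of_triv hH hpp h2 hp.unr M ιM hB.unit.1.1
  obtain ⟨hc, hf⟩ := hAL (KG F M ιM) (KG F K ιK) hle n hS hUG hB.bad hSel hlay
  letI i : Algebra (KG F M ιM) (KG F K ιK) := (IntermediateField.inclusion hle).toRingHom.toAlgebra
  have hnG : Module.finrank (KG F M ιM) (KG F K ιK) = p ^ n := (H55Z.layer_disc h2 hdG hlay).1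
  have hpx : PExt p (KG F M ιM) (KG F K ιK) := H55Z.q9_pext hle hnG hlay
  have hpts := pts_KG (F := F) W hpp K ιK hf (fun P hP hpP => H13R.tors_KR hH hp hUG hpx le_rfl P hpP hP)
  obtain ⟨d, hd0, hdeg, hd⟩ := card_KG hH hpp h2 hp.unr K ιK
  have hcard : Nat.card (ShaC p K (W⁄K)) = p ^ (Module.finrank ℚ M * H19A.JS p n) := by
    rw [hc] at hd
    have e1 : Module.finrank ℚ K = Module.finrank ℚ M * p ^ n := by
      rw [← hLay.1]
      exact (Module.finrank_mul_finrank ℚ M K).symm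
    have e2 : Module.finrank ℚ (KG F K ιK) = 2 * Module.finrank F (KG F M ιM) * p ^ n := by
      have hst : IsScalarTower F (KG F M ιM) (KG F K ιK) := IsScalarTower.of_algebraMap_eq fun x => rfl
      have e3 : Module.finrank F (KG F K ιK) = Module.finrank F (KG F M ιM) * p ^ n := by
        rw [← hnG]
        exact (Module.finrank_mul_finrank F (KG F M ιM) (KG F K ιK)).symm
      rw [← Module.finrank_mul_finrank ℚ F (KG F K ιK), e3, IQ.deg, mul_assoc]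
    rw [e2, e1, ← mul_assoc] at hdeg
    have e4 := Nat.eq_of_mul_eq_mul_right (pow_pos hpp.pos n) hdeg
    rw [e4, mul_assoc, mul_comm d, pow_mul] at hd
    exact Nat.pow_left_injective hd0.ne' hd
  have hsha : Finite (H19A.ShaP p K (W⁄K)) ∧ Nat.card (H19A.ShaP p K (W⁄K)) = p ^ (Module.finrank ℚ M * H19A.JS p n) := by
    have h1 : Nat.card (H19A.ShaP p K (W⁄K)) = p ^ (Module.finrank ℚ M * H19A.JS p n) := hcard
    refine ⟨Nat.finite_of_card_ne_zero ?_, h1⟩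
    rw [h1]
    exact (pow_pos hpp.pos _).ne'
  refine ⟨hpts, hsha, exists_perZ (perW_of hH), Λ, hΛa, hΛs, hΛ1, fun L hL V hV => ?_⟩
  rw [shaG_lG, map_mul, map_pow, H55P.val_nat p hpp V hV _ hpts.2, one_pow, mul_one, hΛv L hL V hV, hsha.2, Nat.cast_pow, map_pow]
  rfl

variable {W' : WeierstrassCurve ℤ} {kap : ℤ} {e t u lam : ℚ}

theorem fin_ell {W : WeierstrassCurve ℤ} (hW : W.Δ ≠ 0) (K : Type) [Field K] [NumberField K] : (W⁄K).IsElliptic := by
  rw [WeierstrassCurve.isElliptic_iff]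
  have e : (W⁄K).Δ = algebraMap ℤ K W.Δ := W.map_Δ (algebraMap ℤ K)
  rw [e]
  refine IsUnit.mk0 _ ?_
  rw [eq_intCast]
  exact_mod_cast hW

open Classical in
/-- THE THEOREM for isogenous curves. -/
theorem tower_iso [Fact p.Prime] (h : H28I.TW F W W' Om m ψ kap e t u lam) (hp' : PrimeH F (W'⁄(𝓞 F)) p) (hI : H19A.InertQ F p)
    (hAL : ALc F p W) (hE : Ec F p W Om ψ) : H19A.TowerThm F p W' := by
  intro M _ _ ιM hB n K _ _ _ hLay
  have hp := (H28I.tw_prime h).1 hp'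
  have h5 := hp.five
  have h2 : p ≠ 2 := by omega
  have hpp : p.Prime := hp.prime
  obtain ⟨hS, hUG, hUM⟩ := H55Z.q10_main (F := F) hpp h2 hI hB.split ιM
  have hdM := H55P.pl1_discr p hpp hUM
  have hdG := H55P.pl1_discr p hpp hUG
  have hLay' : Layer p n M K := H55Z.q7_conv h2 hdM hLay.1 hLay.2.some
  have hbad : H13R.BadM (W⁄(𝓞 F)) (KG F M ιM) := (H13R.i1_bad h _).1 hB.bad
  have hSM := H13R.i1_same h hp M (H13R.i1_lfun h M ιM (H13R.bad_of h.base hbad))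
  have hB1 : H19A.Base F p W M ιM := by
    refine ⟨hB.split, hbad, ?_⟩
    rw [H13R.bsd_iff h.base hp (H13R.pext_self p (KG F M ιM)) hUG M ιM le_rfl, ← H13R.i1_sel hpp h5 hSM, ← H13R.i1_lunit hSM]
    exact ⟨hB.unit.1.1, (H13R.an_iff hpp hB.unit.1.2.2.2).1 hB.unit.2⟩
  have hT := tower_max h.base hp hI hAL hE M ιM hB1 n K hLay
  obtain ⟨ιK, hι⟩ := H55Z.q8_ext (K := K) ιM
  have hle := H55Z.q8_le ιM ιK hι
  have hlay := H55Z.q8_layer hLay' ιM ιK hι hle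
  letI i : Algebra (KG F M ιM) (KG F K ιK) := (IntermediateField.inclusion hle).toRingHom.toAlgebra
  have hnG : Module.finrank (KG F M ιM) (KG F K ιK) = p ^ n := (H55Z.layer_disc h2 hdG hlay).1
  have hpx : PExt p (KG F M ιM) (KG F K ιK) := H55Z.q9_pext hle hnG hlay
  have hSK := H13R.i1_same h hp K (H13R.i1_lfun h K ιK fun w hw => H13R.bad_KR h.base hp hpx hle le_rfl hbad w hw)
  obtain ⟨q1, q2⟩ := H28I.pts_iso hpp h5 (H28I.a0_disc hSK.disc' K) hSK.iso hT.pts.1 hT.pts.2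
  have hWK : (W⁄K).IsElliptic := fin_ell hSK.disc K
  have hWK' : (W'⁄K).IsElliptic := fin_ell hSK.disc' K
  have hcard : Nat.card (H19A.ShaP p K (W'⁄K)) = Nat.card (H19A.ShaP p K (W⁄K)) := by
    have e1 : Nat.card (ShaC p K (W⁄K)) = _ := bridge (W⁄K) hpp h2
    have e2 : Nat.card (ShaC p K (W'⁄K)) = _ := bridge (W'⁄K) hpp h2
    have e3 := iso6_card hSK.iso hpp h5
    exact e2.trans (e3.symm.trans e1.symm)
  have hsha : Finite (H19A.ShaP p K (W'⁄K)) ∧ Nat.card (H19A.ShaP p K (W'⁄K)) = p ^ (Module.finrank ℚ M * H19A.JS p n) := by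
    rw [hT.sha.2] at hcard
    refine ⟨Nat.finite_of_card_ne_zero ?_, hcard⟩
    rw [hcard]
    exact (pow_pos hpp.pos _).ne'
  obtain ⟨Λ, hΛa, hΛs, hΛ1, hΛv⟩ := hT.bsd
  refine ⟨⟨q1, q2⟩, hsha, hSK.ex', Λ, hΛa, (H28I.a0_ser hSK Λ).2 hΛs, hΛ1, fun L hL V hV => ?_⟩
  obtain ⟨L₀, hL₀⟩ := hSK.ex
  have e1 := hΛv L₀ hL₀ V hV
  rw [shaG_lG, map_mul, map_pow, H55P.val_nat p hpp V hV _ hT.pts.2, one_pow, mul_one, hT.sha.2] at e1
  rw [shaG_lG, map_mul, map_pow, H55P.val_nat p hpp V hV _ q2, one_pow, mul_one, hsha.2, hSK.per L₀ L hL₀ hL V hV]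
  exact e1

end SSG
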