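import Mathlib
import Pool.Agent.Lib.H55Z.Q10
import Pool.Agent.Lib.H55P.S13
import Pool.Agent.Lib.H55P.GenStm

/-! # SSG/Z, A8: a totally split prime and the decomposition groups -/

open NumberField IsDedekindDomain WeierstrassCurve

namespace SSG

open H55P (UnrP Dec Below)

/-- Every integer of M is congruent to an integer of F modulo a prime of degree one. -/
theorem a8_res {F M : Type} [Field F] [NumberField F] [Field M] [NumberField M] [Algebra F M] (w : HeightOneSpectrum (𝓞 M))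
    (hf : w.asIdeal.inertiaDeg (𝓞 F) = 1) (x : 𝓞 M) : ∃ y : 𝓞 F, x - algebraMap (𝓞 F) (𝓞 M) y ∈ w.asIdeal := by
  have hwm := w.isMaximal
  have hm : (w.asIdeal.under (𝓞 F)).IsMaximal := inferInstance
  rw [Ideal.inertiaDeg_eq_of_isMaximal (w.asIdeal.under (𝓞 F)) w.asIdeal] at hf
  let _ : Field (𝓞 F ⧸ w.asIdeal.under (𝓞 F)) := Ideal.Quotient.field _
  let _ : Field (𝓞 M ⧸ w.asIdeal) := Ideal.Quotient.field _
  obtain ⟨y, hy⟩ := (finrank_eq_one_iff_of_nonzero' (1 : 𝓞 M ⧸ w.asIdeal) one_ne_zero).1 hf (Ideal.Quotient.mk w.asIdeal x)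
  obtain ⟨y, rfl⟩ := Ideal.Quotient.mk_surjective y
  refine ⟨y, ?_⟩
  rw [← Ideal.Quotient.eq, ← hy, Algebra.smul_def, mul_one]
  rfl

/-- If p is unramified at w and w of degree one over F then F is dense. -/
theorem a8_dense {F M : Type} [Field F] [NumberField F] [Field M] [NumberField M] [Algebra F M] {p : ℕ} (w : HeightOneSpectrum (𝓞 M))
    (hp : (p : 𝓞 M) ∈ w.asIdeal) (hu : (p : 𝓞 M) ∉ w.asIdeal ^ 2)
    (hf : w.asIdeal.inertiaDeg (𝓞 F) = 1) (n : ℕ) (x : 𝓞 M) :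
    ∃ (y : 𝓞 F) (c z : 𝓞 M), c ∉ w.asIdeal ∧ c * (x - algebraMap (𝓞 F) (𝓞 M) y) = (p : 𝓞 M) ^ n * z := by
  have hwm := w.isMaximal
  have hwp := w.isPrime
  -- a multiplier
  obtain ⟨a, ha, hab⟩ : ∃ a : 𝓞 M, a ∉ w.asIdeal ∧ ∀ t ∈ w.asIdeal, ∃ z, a * t = p * z := by
    have h1 : w.asIdeal ∣ Ideal.span {(p : 𝓞 M)} := by
      rw [Ideal.dvd_span_singleton]
      exact hp
    obtain ⟨J, hJ⟩ := h1
    have h2 : ¬ J ≤ w.asIdeal := by
      intro h3
      apply hu
      have h4 : Ideal.span {(p : 𝓞 M)} ≤ w.asIdeal ^ 2 := by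
        rw [hJ, pow_two]
        exact Ideal.mul_mono_right h3
      exact h4 (Ideal.mem_span_singleton_self _)
    obtain ⟨a, ha, ha'⟩ := Set.not_subset.1 h2
    refine ⟨a, ha', fun t ht => ?_⟩
    have h5 : a * t ∈ Ideal.span {(p : 𝓞 M)} := by
      rw [hJ, mul_comm a t]
      exact Ideal.mul_mem_mul ht ha
    obtain ⟨z, hz⟩ := Ideal.mem_span_singleton.1 h5
    exact ⟨z, hz⟩
  induction n generalizing x with
  | zero => exact ⟨0, 1, x, fun h => hwp.ne_top ((Ideal.eq_top_iff_one _).2 h), by rw [map_zero, sub_zero, pow_zero, mul_comm]⟩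
  | succ n ih =>
    obtain ⟨y, c, z, hc, hz⟩ := ih x
    obtain ⟨d, hd⟩ : ∃ d : 𝓞 F, c * algebraMap (𝓞 F) (𝓞 M) d - 1 ∈ w.asIdeal := by
      obtain ⟨c', hc'⟩ := Ideal.Quotient.exists_inv (I := w.asIdeal) (a := Ideal.Quotient.mk _ c) (fun h => hc (Ideal.Quotient.eq_zero_iff_mem.1 h))
      obtain ⟨c', rfl⟩ := Ideal.Quotient.mk_surjective c'
      have h1 : c * c' - 1 ∈ w.asIdeal := by
        rw [← Ideal.Quotient.eq, map_mul, map_one]
        exact hc'
      obtain ⟨d, hd⟩ := a8_res w hf c'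
      refine ⟨d, ?_⟩
      have e1 : c * algebraMap (𝓞 F) (𝓞 M) d - 1 = (c * c' - 1) - c * (c' - algebraMap (𝓞 F) (𝓞 M) d) := by ring
      rw [e1]
      exact Ideal.sub_mem _ h1 (Ideal.mul_mem_left _ _ hd)
    obtain ⟨e, he⟩ := a8_res w hf z
    have ht : z - c * algebraMap (𝓞 F) (𝓞 M) (d * e) ∈ w.asIdeal := by
      have e1 : z - c * algebraMap (𝓞 F) (𝓞 M) (d * e) = (z - algebraMap (𝓞 F) (𝓞 M) e) -
          (c * algebraMap (𝓞 F) (𝓞 M) d - 1) * algebraMap (𝓞 F) (𝓞 M) e := by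
        rw [map_mul]
        ring
      rw [e1]
      exact Ideal.sub_mem _ he (Ideal.mul_mem_right _ _ hd)
    obtain ⟨z', hz'⟩ := hab _ ht
    refine ⟨y + (p : 𝓞 F) ^ n * (d * e), a * c, z', fun h => ?_, ?_⟩
    · exact (hwp.mem_or_mem h).elim ha hc
    · have e1 : a * c * (x - algebraMap (𝓞 F) (𝓞 M) (y + (p : 𝓞 F) ^ n * (d * e))) =
          a * (c * (x - algebraMap (𝓞 F) (𝓞 M) y)) - (p : 𝓞 M) ^ n * (a * (c * algebraMap (𝓞 F) (𝓞 M) (d * e))) := by
        rw [map_add, map_mul, map_pow, map_natCast]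
        ring
      rw [e1, hz, pow_succ, mul_assoc ((p : 𝓞 M) ^ n) (p : 𝓞 M) z', ← hz']
      ring

/-- If p is totally split in M/F the decomposition groups above p fix M. -/
theorem spl_dec {F : Type} [Field F] [NumberField F] {p : ℕ} (hp : p.Prime) {Ω : Type} [Field Ω] [Algebra F Ω] [IsAlgClosure F Ω]
    (M : IntermediateField F Ω) [NumberField M] (hS : H55Z.Spl F p M) (hU : UnrP p M)
    (V : ValuationSubring Ω) (hV : V.valuation (p : Ω) < 1) (s : Ω ≃ₐ[F] Ω) (hs : Dec V s) : s ∈ M.fixingSubgroup := by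
  have hac : IsAlgClosed Ω := IsAlgClosure.isAlgClosed F
  have hal : Algebra.IsAlgebraic F Ω := IsAlgClosure.isAlgebraic
  have hchar : CharZero Ω := charZero_of_injective_algebraMap (algebraMap F Ω).injective
  have hfd : FiniteDimensional F M := Module.Finite.of_restrictScalars_finite ℚ F M
  have hp0 : V.valuation (p : Ω) ≠ 0 := (Valuation.ne_zero_iff _).2 (Nat.cast_ne_zero.2 hp.ne_zero)
  -- the place of M
  obtain ⟨w, hw⟩ : ∃ w : HeightOneSpectrum (𝓞 M), Below V M w.asIdeal := by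
    refine ⟨⟨H16C.plc M V, inferInstance, fun h => ?_⟩, fun x => Iff.rfl⟩
    have h1 : ((p : ℕ) : 𝓞 M) ∈ H16C.plc M V := by
      rw [H16C.mem_plc]
      have e1 : ((((p : ℕ) : 𝓞 M) : M) : Ω) = (p : Ω) := by simp
      rw [e1]
      exact hV
    rw [h, Ideal.mem_bot] at h1
    exact hp.ne_zero (by exact_mod_cast h1)
  have hpw : (p : 𝓞 M) ∈ w.asIdeal := by
    rw [hw]
    have e1 : ((((p : ℕ) : 𝓞 M) : M) : Ω) = (p : Ω) := by simp
    rw [e1]
    exact hV
  have hpw2 : (p : 𝓞 M) ∉ w.asIdeal ^ 2 := by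
    intro h
    have h1 : w.asIdeal * w.asIdeal ∣ Ideal.span {(p : 𝓞 M)} := by
      rw [← pow_two, Ideal.dvd_span_singleton]
      exact h
    exact w.isPrime.ne_top (Ideal.isUnit_iff.1 (hU _ h1))
  -- valuations
  have hle : ∀ z : 𝓞 M, V.valuation ((z : M) : Ω) ≤ 1 := fun z => H16C.FR_le_one V (H16C.FR_isIntegral M z)
  have hone : ∀ z : 𝓞 M, z ∉ w.asIdeal → V.valuation ((z : M) : Ω) = 1 := fun z hz =>
    le_antisymm (hle z) (not_lt.1 fun h => hz ((hw z).2 h))
  -- the difference is divisible by all powers of p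
  have key : ∀ (x : 𝓞 M) (n : ℕ), V.valuation (s ((x : M) : Ω) - ((x : M) : Ω)) ≤ V.valuation (p : Ω) ^ n := by
    intro x n
    obtain ⟨y, c, z, hc, hz⟩ := a8_dense w hpw hpw2 (hS w hpw).2 n x
    obtain ⟨u, hu⟩ : ∃ u : Ω, u = ((x : M) : Ω) - algebraMap F Ω (y : F) := ⟨_, rfl⟩
    have h1 : ((c : M) : Ω) * u = (p : Ω) ^ n * ((z : M) : Ω) := by
      have h2 := congrArg (fun t : 𝓞 M => ((t : M) : Ω)) hz
      have h3 : (((algebraMap (𝓞 F) (𝓞 M) y : 𝓞 M) : M) : Ω) = algebraMap F Ω (y : F) := by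
        have h4 : ((algebraMap (𝓞 F) (𝓞 M) y : 𝓞 M) : M) = algebraMap F M (y : F) := rfl
        rw [h4]
        rfl
      simp only [map_mul, map_sub, map_pow, map_natCast, MulMemClass.coe_mul, AddSubgroupClass.coe_sub, SubmonoidClass.coe_pow, SubringClass.coe_natCast, h3] at h2
      rw [hu]
      exact h2
    have hpn : (p : Ω) ^ n ≠ 0 := pow_ne_zero _ (Nat.cast_ne_zero.2 hp.ne_zero)
    have h2 : u / (p : Ω) ^ n ∈ V := by
      rw [← V.valuation_le_one_iff, map_div₀]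
      have h3 := congrArg V.valuation h1
      rw [map_mul, map_mul, hone c hc, one_mul] at h3
      rw [h3, mul_div_assoc, mul_comm, div_mul_cancel₀ _ (by rw [map_pow]; exact pow_ne_zero _ hp0)]
      exact hle z
    have h4 : s (u / (p : Ω) ^ n) ∈ V := (hs _).2 h2
    have h5 : V.valuation u ≤ V.valuation (p : Ω) ^ n := by
      have h6 := (V.valuation_le_one_iff _).2 h2
      rw [map_div₀, map_pow] at h6
      exact (div_le_one₀ (zero_lt_iff.2 (pow_ne_zero _ hp0))).1 h6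
    have h5' : V.valuation (s u) ≤ V.valuation (p : Ω) ^ n := by
      have h6 := (V.valuation_le_one_iff _).2 h4
      rw [map_div₀ s, map_pow s, map_natCast s, map_div₀, map_pow] at h6
      exact (div_le_one₀ (zero_lt_iff.2 (pow_ne_zero _ hp0))).1 h6
    have h7 : s ((x : M) : Ω) - ((x : M) : Ω) = s u - u := by
      rw [hu, map_sub, s.commutes]
      ring
    rw [h7]
    exact (V.valuation.map_sub _ _).trans (max_le h5' h5)
  -- so it is zero
  have hzero : ∀ d : Ω, (∀ n : ℕ, V.valuation d ≤ V.valuation (p : Ω) ^ n) → d = 0 := by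
    intro d hd
    by_contra hd0
    have halg : IsAlgebraic ℤ d⁻¹ := by
      have h1 : Algebra.IsAlgebraic ℚ F := inferInstance
      have h2 : Algebra.IsAlgebraic ℚ Ω := Algebra.IsAlgebraic.trans ℚ F Ω
      exact (IsFractionRing.isAlgebraic_iff ℤ ℚ Ω).2 (h2.isAlgebraic d⁻¹)
    obtain ⟨m, hm0, hm⟩ := halg.exists_integral_multiple
    have h1 : V.valuation (m • d⁻¹) ≤ 1 := H16C.FR_le_one V hm
    rw [zsmul_eq_mul, map_mul, map_inv₀] at h1
    have hvd : V.valuation d ≠ 0 := (Valuation.ne_zero_iff _).2 hd0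
    have h2 : V.valuation (m : Ω) ≤ V.valuation d := by
      have h3 := mul_le_mul_left h1 (V.valuation d)
      rw [mul_assoc, inv_mul_cancel₀ hvd, mul_one, one_mul] at h3
      exact h3
    obtain ⟨k, m', hm', hmk⟩ : ∃ (k : ℕ) (m' : ℤ), ¬ (p : ℤ) ∣ m' ∧ m = (p : ℤ) ^ k * m' := by
      have h3 : FiniteMultiplicity (p : ℤ) m := by
        rw [Int.finiteMultiplicity_iff]
        refine ⟨?_, hm0⟩
        rw [Int.natAbs_natCast]
        exact hp.one_lt.ne'
      obtain ⟨c, hc1, hc2⟩ := h3.exists_eq_pow_mul_and_not_dvd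
      exact ⟨_, c, hc2, hc1⟩
    have hm1 : V.valuation (m' : Ω) = 1 := by
      have hint : ∀ k : ℤ, V.valuation (k : Ω) ≤ 1 := fun k => by
        have h := V.valuation_le_one (k : V)
        exact_mod_cast h
      refine le_antisymm (hint m') (not_lt.1 fun hlt => ?_)
      have h3 : IsCoprime (p : ℤ) m' := (Nat.prime_iff_prime_int.1 hp).coprime_iff_not_dvd.2 hm'
      obtain ⟨a, b, hab⟩ := h3
      have h4 : (1 : Ω) = (a : Ω) * (p : Ω) + (b : Ω) * (m' : Ω) := by exact_mod_cast hab.symm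
      have h5 : V.valuation (1 : Ω) < 1 := by
        rw [h4]
        refine (V.valuation.map_add _ _).trans_lt (max_lt ?_ ?_)
        · rw [map_mul]
          exact (mul_le_of_le_one_left' (hint a)).trans_lt hV
        · rw [map_mul]
          exact (mul_le_of_le_one_left' (hint b)).trans_lt hlt
      rw [map_one] at h5
      exact lt_irrefl _ h5
    have h3 := h2.trans (hd (k + 1))
    rw [hmk, Int.cast_mul, Int.cast_pow, Int.cast_natCast, map_mul, map_pow, hm1, mul_one, pow_succ] at h3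
    have h4 : V.valuation (p : Ω) ^ k * V.valuation (p : Ω) < V.valuation (p : Ω) ^ k * 1 :=
      mul_lt_mul_of_pos_left hV (zero_lt_iff.2 (pow_ne_zero _ hp0))
    rw [mul_one] at h4
    exact absurd h3 (not_le.2 h4)
  rw [IntermediateField.mem_fixingSubgroup_iff]
  intro x hx
  obtain ⟨a, b, hb, hab⟩ := IsFractionRing.div_surjective (A := 𝓞 M) (⟨x, hx⟩ : M)
  have ea := sub_eq_zero.1 (hzero _ (key a))
  have eb := sub_eq_zero.1 (hzero _ (key b))
  have ex : x = ((a : M) : Ω) / ((b : M) : Ω) := by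
    have h1 := congrArg (fun t : M => (t : Ω)) hab
    exact h1.symm
  rw [ex]
  show s (((a : M) : Ω) / ((b : M) : Ω)) = _
  rw [map_div₀, ea, eb]

end SSG
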