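import Mathlib
import Pool.Agent.Lib.SSG.Z.Fin
import Pool.Agent.Lib.H55W.Main
import Pool.Agent.Lib.H55W.PR
import Pool.Agent.Lib.H55Y.Y5
import Pool.Agent.Lib.H55Y.Y6
import Pool.Agent.Lib.H55W.C4

/-! # SSG/Z: the theorem for all orders of class number one, from the interfaces (AL) and (E) -/

open NumberField IsDedekindDomain WeierstrassCurve

namespace SSG

open H55P (IQ embF eF LF Per IsHecke Pt ac Inert Dec Nm UnitP UnrP PExt)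
open H55K H55K.TQ

/-- The conclusions for the prime p. -/
structure AtP (F : Type) [Field F] [NumberField F] [IQ F] (p : ℕ) (W : WeierstrassCurve ℤ) : Prop where
  tower : H19A.TowerThm F p W
  exist : AnUnitG p W ℚ → H19A.Exist F p W
  real : AnUnitG p W ℚ → H19A.ExistReal F p W

/-- The interface (AL) for all F, W, p. -/
def ALAll : Prop := ∀ (F : Type) [Field F] [NumberField F] [IQ F] (W : WeierstrassCurve ℤ) (Om : ℂ) (m : Ideal (𝓞 F)) (ψ : Ideal (𝓞 F) →*₀ 𝓞 F)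
  (p : ℕ), BaseH F (W⁄(𝓞 F)) Om m ψ → PrimeH F (W⁄(𝓞 F)) p → H19A.InertQ F p → ALc F p W

/-- The interface (E) for all F, W, p. -/
def EcAll : Prop := ∀ (F : Type) [Field F] [NumberField F] [IQ F] (W : WeierstrassCurve ℤ) (Om : ℂ) (m : Ideal (𝓞 F)) (ψ : Ideal (𝓞 F) →*₀ 𝓞 F)
  (p : ℕ) [Fact p.Prime], BaseH F (W⁄(𝓞 F)) Om m ψ → PrimeH F (W⁄(𝓞 F)) p → H19A.InertQ F p → Ec F p W Om ψ

theorem final (hAL : ALAll) (hE : EcAll) (F : Type) [Field F] [NumberField F] [IQ F] (W' : WeierstrassCurve ℤ) (hC : H55Y.CMO F W')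
    (p : ℕ) (hp : p.Prime) (h5 : 5 ≤ p) (hI : H19A.InertQ F p) (hd : ¬ (p : ℤ) ∣ W'.Δ) : AtP F p W' := by
  have hpf : Fact p.Prime := ⟨hp⟩
  have hcub : ∀ w : 𝓞 F, w ^ 2 + w + 1 = 0 → ∀ n : ℤ, n ≠ 0 →
      ∃ κ : 𝓞 F → 𝓞 F, H55W.PRC (𝓞 F) 3 n (3 * n) (27 * n) κ := fun w hw n hn => H55W.cub_F F IQ.deg w hw n hn
  have hcub' : ∀ (F : Type) [Field F] [NumberField F] [IQ F], ∀ w : 𝓞 F, w ^ 2 + w + 1 = 0 → ∀ n : ℤ, n ≠ 0 →
      ∃ κ : 𝓞 F → 𝓞 F, H55W.PRC (𝓞 F) 3 n (3 * n) (27 * n) κ := fun F _ _ _ w hw n hn => H55W.cub_F F IQ.deg w hw n hn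
  rcases H55Y.y5_cases hC hcub with ⟨Om, hper⟩ | ⟨W, Om, m, ψ, kap, e, t, u, lam, hΔ, hper, h⟩
  · obtain ⟨hΔ, hmin, -⟩ := hC
    obtain ⟨ψ, hH⟩ := H55W.base_all0 hcub W' Om hΔ hper hmin
    have hP := H55W.prime_simple hΔ hper hp h5 hd
    exact ⟨tower_max hH hP hI (hAL F W' Om _ ψ p hH hP hI) (hE F W' Om _ ψ p hH hP hI), H55Z.x1_exist hH hP hI, H55Z.x1_real hH hP hI⟩
  · have hP0 := H55W.prime_simple hΔ hper hp h5 fun h' => hd (H55Y.y6_dvd h hp h')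
    have hP := (H28I.tw_prime h).2 hP0
    exact ⟨tower_iso h hP hI (hAL F W Om m ψ p h.base hP0 hI) (hE F W Om m ψ p h.base hP0 hI), H55Z.x1_exist_iso h hP hI,
      H55Z.x1_real_iso h hP hI⟩

end SSG
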