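import Mathlib
import Pool.Agent.Lib.SSG.Z.A8
import Pool.Agent.Lib.SSG.Z.Z5
import Pool.Agent.Lib.H35L.S7

/-! # SSG/Z: the algebraic side, from the local facts -/

open NumberField IsDedekindDomain WeierstrassCurve

namespace SSG

open H55P (IQ embF eF LF Per IsHecke Pt ac Inert Dec Nm UnitP UnrP PExt)
open H35P (WAB Ker tt GoodW IntW)
open H55K H55K.TQ

open Classical in
/-- Interface (L): the local facts at p for the short equation. -/
def LocC (F : Type) [Field F] [NumberField F] [IQ F] (p : ℕ) (W : WeierstrassCurve ℤ) (Om : ℂ) (m : Ideal (𝓞 F))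
    (ψ : Ideal (𝓞 F) →*₀ 𝓞 F) : Prop :=
  ∀ (A B : F) (j : AlgebraicClosure F →+* ℂ) (act : 𝓞 F →+* AddMonoid.End (Pt (WAB A B) (AlgebraicClosure F))),
    A = -(algebraMap (𝓞 F) F (W⁄(𝓞 F)).c₄) / 48 → B = -(algebraMap (𝓞 F) F (W⁄(𝓞 F)).c₆) / 864 → Dta A B Om j act m ψ p →
    ∀ (hc : H35L.Cm act) (V : ValuationSubring (AlgebraicClosure F)), V.valuation (p : AlgebraicClosure F) < 1 →
      ∀ (γ : AlgebraicClosure F ≃ₐ[F] AlgebraicClosure F) (hγ : γ ∈ H35L.dV V), H35L.Gen p γ → H35L.LocP act hc p (p ^ 2) V hγ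

/-- The interface (L) for all F, W, p. -/
def LocAll : Prop := ∀ (F : Type) [Field F] [NumberField F] [IQ F] (W : WeierstrassCurve ℤ) (Om : ℂ) (m : Ideal (𝓞 F)) (ψ : Ideal (𝓞 F) →*₀ 𝓞 F)
  (p : ℕ), BaseH F (W⁄(𝓞 F)) Om m ψ → PrimeH F (W⁄(𝓞 F)) p → H19A.InertQ F p → LocC F p W Om m ψ

variable {F : Type} [Field F] [NumberField F] [IQ F] {W : WeierstrassCurve ℤ} {Om : ℂ} {m : Ideal (𝓞 F)}
    {ψ : Ideal (𝓞 F) →*₀ 𝓞 F} {p : ℕ}

theorem alc_of (hH : BaseH F (W⁄(𝓞 F)) Om m ψ) (hp : PrimeH F (W⁄(𝓞 F)) p) (hI : H19A.InertQ F p) (hL : LocC F p W Om m ψ) : ALc F p W := by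
  classical
  intro M K _ _ hle n hS hU _ hSel hlay
  have hpf : Fact p.Prime := ⟨hp.prime⟩
  have h5 := hp.five
  have hin : Prime (p : 𝓞 F) := (Ideal.span_singleton_prime (Nat.cast_ne_zero.2 hp.prime.ne_zero)).1 hI
  obtain ⟨A, B, j, act, hA, hB, d⟩ := exists_dtaAB (p := p) hH hp
  obtain ⟨Θ, hΘ⟩ := short_iso (W⁄(𝓞 F)) hA hB hH.data.ell (Ω := AlgebraicClosure F)
  have hfd : FiniteDimensional F M := Module.Finite.of_restrictScalars_finite ℚ F M
  have hΘ' : ∀ (s : AlgebraicClosure F ≃ₐ[F] AlgebraicClosure F) (P : Pt (WAB A B) (AlgebraicClosure F)),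
      Θ.symm (ac (WAB A B) s P) = ac ((W⁄(𝓞 F))⁄F) s (Θ.symm P) := by
    intro s P
    apply Θ.injective
    rw [Θ.apply_symm_apply, hΘ, Θ.apply_symm_apply]
  have sel : H55P.SelZero (WAB A B) p M := y6_transport p M Θ.symm hΘ' hSel
  obtain ⟨h1, -, -, h4⟩ := H35L.al_main d hin M (fun V' hV' s hs => spl_dec hp.prime M hS hU V' hV' s hs) sel (hL A B j act hA hB d) n
    K.fixingSubgroup (layer_fix (by omega) M K hle hlay)
  refine ⟨?_, ?_⟩
  · rw [equiv_card Θ hΘ K.fixingSubgroup hp.prime, h4, mul_assoc]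
    rfl
  · refine (h1.preimage Θ.injective.injOn).subset fun P hP => ?_
    intro s hs
    rw [← hΘ, hP s hs]

theorem al_all (hL : LocAll) : ALAll := fun F _ _ _ W Om m ψ p hH hp hI => alc_of hH hp hI (hL F W Om m ψ p hH hp hI)

end SSG
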