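import Mathlib
import Pool.Agent.Lib.H55K.D0
import Pool.Agent.Lib.SSG.F.Defs

/-! # SSG/Z, module GAL: the closure of F in the algebraic closure of the p-adic numbers and its Galois group: definitions -/

open NumberField

namespace SSG

/-- The closure of F: the field generated by F over the p-adic numbers. -/
noncomputable def kF {F : Type} [Field F] {p : ℕ} [Fact p.Prime] (i : F →+* PadicAlgCl p) : IntermediateField ℚ_[p] (PadicAlgCl p) :=
  IntermediateField.adjoin ℚ_[p] (Set.range i)

/-- The group of the automorphisms over the closure of F. -/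
def GF {F : Type} [Field F] {p : ℕ} [Fact p.Prime] (i : F →+* PadicAlgCl p) : Subgroup (RingAut (PadicAlgCl p)) where
  carrier := {σ | ∀ x ∈ kF i, σ x = x}
  one_mem' := fun _ _ => rfl
  mul_mem' := by
    intro σ τ hσ hτ x hx
    show σ (τ x) = x
    rw [hτ x hx, hσ x hx]
  inv_mem' := by
    intro σ hσ x hx
    have h1 := hσ x hx
    show σ.symm x = x
    rw [RingEquiv.symm_apply_eq]
    exact h1.symm

theorem mem_GF {F : Type} [Field F] {p : ℕ} [Fact p.Prime] {i : F →+* PadicAlgCl p} {σ : RingAut (PadicAlgCl p)} :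
    σ ∈ GF i ↔ ∀ x ∈ kF i, σ x = x := Iff.rfl

end SSG
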