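import Mathlib
import Pool.Agent.Lib.SSG.Z.G0

/-! Chunk G1 (M). F is dense in its closure, and the values are powers of |p|, p inert.
kF_dense: kF i = adjoin of the range of i; all elements are algebraic, so it is the subalgebra Algebra.adjoin ℚ_[p] (range i) (IntermediateField.adjoin_toSubalgebra_of_integral or similar / IntermediateField.adjoin_algebraic_toSubalgebra). Algebra.adjoin_induction for the property
D x = for all ε > 0 there is y in F with ‖x - i y‖ < ε: range i clear; ℚ_[p]: the rational numbers are dense (Padic.rat_dense, norm_extends, i r = r for rational r); sums and products (ultrametric or ordinary norm estimates; i y bounded).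
norm_F: y in F, y ≠ 0: y = a/b with a, b in 𝓞 F (IsFractionRing.div_surjective). For a ≠ 0 in 𝓞 F: a = p^k a', p not dividing a' (multiplicity is finite, FiniteMultiplicity / WfDvdMonoid.max_power_factor), a' is a unit modulo the maximal ideal (p) (IsPrime nonzero: IsMaximal in a Dedekind domain): a' b' = 1 + p c. Elements of 𝓞 F have
‖i _‖ ≤ 1 (integral over ℤ: a root of a monic polynomial with integral coefficients, ultrametric; for instance the set ‖x‖ ≤ 1 is a valuation ring, integrally closed). ‖p i c‖ < 1 so ‖1 + p i c‖ = 1 = ‖i a'‖ ‖i b'‖, hence ‖i a'‖ = 1.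
kF_val: x in kF i, x ≠ 0: choose y with ‖x - i y‖ < ‖x‖, then ‖i y‖ = ‖x‖ (ultrametric), y ≠ 0, norm_F. -/

open NumberField

namespace SSG

theorem g1_norm_ext {p : ℕ} [Fact p.Prime] (r : ℚ_[p]) : ‖algebraMap ℚ_[p] (PadicAlgCl p) r‖ = ‖r‖ := PadicAlgCl.norm_extends p r

theorem kF_dense {F : Type} [Field F] [NumberField F] {p : ℕ} [Fact p.Prime] (i : F →+* PadicAlgCl p) (x : PadicAlgCl p) (hx : x ∈ kF i)
    {ε : ℝ} (hε : 0 < ε) : ∃ y : F, ‖x - i y‖ < ε := by
  have h1 : x ∈ Algebra.adjoin ℚ_[p] (Set.range i) := by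
    rw [← IntermediateField.adjoin_toSubalgebra_of_isAlgebraic (F := ℚ_[p]) (S := Set.range i) fun y _ => Algebra.IsAlgebraic.isAlgebraic y]
    exact hx
  have h2 : ∀ ε : ℝ, 0 < ε → ∃ y : F, ‖x - i y‖ < ε := by
    clear hx
    induction h1 using Algebra.adjoin_induction with
    | mem x hx =>
      intro ε hε
      obtain ⟨y, rfl⟩ := hx
      exact ⟨y, by rw [sub_self, norm_zero]; exact hε⟩
    | algebraMap r =>
      intro ε hε
      obtain ⟨q, hq⟩ := Padic.rat_dense p r hε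
      refine ⟨(q : F), ?_⟩
      have h3 : i (q : F) = algebraMap ℚ_[p] (PadicAlgCl p) (q : ℚ_[p]) := by
        rw [map_ratCast, map_ratCast]
      rw [h3, ← map_sub, g1_norm_ext]
      exact hq
    | add x y _ _ hx hy =>
      intro ε hε
      obtain ⟨a, ha⟩ := hx (ε / 2) (half_pos hε)
      obtain ⟨b, hb⟩ := hy (ε / 2) (half_pos hε)
      refine ⟨a + b, ?_⟩
      have h3 : x + y - i (a + b) = (x - i a) + (y - i b) := by rw [map_add]; ring
      rw [h3]
      exact (norm_add_le _ _).trans_lt (by linarith)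
    | mul x y _ _ hx hy =>
      intro ε hε
      have hd1 : 0 < min 1 (ε / (2 * (‖x‖ + ‖y‖ + 1))) := by positivity
      set δ := min 1 (ε / (2 * (‖x‖ + ‖y‖ + 1))) with hδ
      obtain ⟨a, ha⟩ := hx δ hd1
      obtain ⟨b, hb⟩ := hy δ hd1
      refine ⟨a * b, ?_⟩
      have hδ1 : δ ≤ 1 := min_le_left _ _
      have hδ2 : δ * (2 * (‖x‖ + ‖y‖ + 1)) ≤ ε := by
        have h4 : δ ≤ ε / (2 * (‖x‖ + ‖y‖ + 1)) := min_le_right _ _
        rwa [le_div_iff₀ (by positivity)] at h4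
      have h3 : x * y - i (a * b) = x * (y - i b) + y * (x - i a) - (x - i a) * (y - i b) := by rw [map_mul]; ring
      rw [h3]
      have h5 : ‖x * (y - i b) + y * (x - i a) - (x - i a) * (y - i b)‖ ≤
          ‖x‖ * ‖y - i b‖ + ‖y‖ * ‖x - i a‖ + ‖x - i a‖ * ‖y - i b‖ := by
        refine (norm_sub_le _ _).trans ?_
        rw [norm_mul (x - i a)]
        refine add_le_add_left ((norm_add_le _ _).trans ?_) _
        rw [norm_mul, norm_mul]
      refine h5.trans_lt ?_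
      have hx0 := norm_nonneg x
      have hy0 := norm_nonneg y
      have ha0 := norm_nonneg (x - i a)
      have hb0 := norm_nonneg (y - i b)
      have h6 : ‖x - i a‖ * ‖y - i b‖ ≤ δ * 1 := mul_le_mul ha.le (hb.le.trans hδ1) hb0 hd1.le
      have h7 : ‖x‖ * ‖y - i b‖ ≤ ‖x‖ * δ := mul_le_mul_of_nonneg_left hb.le hx0
      have h8 : ‖y‖ * ‖x - i a‖ ≤ ‖y‖ * δ := mul_le_mul_of_nonneg_left ha.le hy0
      have h9 : 0 < δ * (‖x‖ + ‖y‖ + 1) := by positivity
      nlinarith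
  exact h2 ε hε

theorem g1_int {F : Type} [Field F] {p : ℕ} [Fact p.Prime] (i : F →+* PadicAlgCl p) (a : 𝓞 F) : ‖i (a : F)‖ ≤ 1 := by
  have h1 : IsIntegral ℤ (i (a : F)) := by
    have h2 : IsIntegral ℤ (a : F) := a.isIntegral_coe
    exact h2.map i.toIntAlgHom
  let v : Valuation (PadicAlgCl p) NNReal := NormedField.valuation
  have h3 : IsIntegral v.integer (i (a : F)) := h1.tower_top
  have h4 := Valuation.Integers.mem_of_integral (Valuation.integer.integers v) h3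
  have h5 : v (i (a : F)) ≤ 1 := h4
  exact_mod_cast h5

theorem g1_p {p : ℕ} [Fact p.Prime] : ‖(p : PadicAlgCl p)‖ < 1 := by
  have h1 : ((p : ℕ) : PadicAlgCl p) = algebraMap ℚ_[p] (PadicAlgCl p) (p : ℚ_[p]) := (map_natCast _ p).symm
  rw [h1, g1_norm_ext]
  exact Padic.norm_p_lt_one

theorem g1_unit {F : Type} [Field F] [NumberField F] {p : ℕ} [Fact p.Prime] (hin : (Ideal.span {(p : 𝓞 F)}).IsPrime) (i : F →+* PadicAlgCl p)
    (a : 𝓞 F) (ha : ¬ (p : 𝓞 F) ∣ a) : ‖i (a : F)‖ = 1 := by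
  have hp0 : (p : 𝓞 F) ≠ 0 := Nat.cast_ne_zero.2 (Fact.out : p.Prime).ne_zero
  have hmax : (Ideal.span {(p : 𝓞 F)}).IsMaximal := hin.isMaximal (by
    rw [Ne, Ideal.span_singleton_eq_bot]
    exact hp0)
  have h1 : a ∉ Ideal.span {(p : 𝓞 F)} := fun h => ha (Ideal.mem_span_singleton.1 h)
  obtain ⟨x, y, hy, hxy⟩ := hmax.exists_inv h1
  rw [Ideal.mem_span_singleton] at hy
  obtain ⟨z, hz⟩ := hy
  have h2 : i (x : F) * i (a : F) = 1 - (p : PadicAlgCl p) * i (z : F) := by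
    have h3 : (x : F) * (a : F) = 1 - (p : F) * (z : F) := by
      have h4 : (x * a : 𝓞 F) = 1 - (p : 𝓞 F) * z := by
        rw [← hxy, hz]
        ring
      have h5 := congrArg (algebraMap (𝓞 F) F) h4
      rw [map_mul, map_sub, map_one, map_mul, map_natCast] at h5
      exact h5
    rw [← map_mul, h3, map_sub, map_one, map_mul, map_natCast]
  have h6 : ‖(p : PadicAlgCl p) * i (z : F)‖ < 1 := by
    rw [norm_mul]
    exact (mul_le_of_le_one_right (norm_nonneg _) (g1_int i z)).trans_lt g1_p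
  have h7 : ‖(1 : PadicAlgCl p) - (p : PadicAlgCl p) * i (z : F)‖ = 1 := by
    rw [sub_eq_add_neg, IsUltrametricDist.norm_add_eq_max_of_norm_ne_norm (by rw [norm_one, norm_neg]; exact h6.ne'), norm_one, norm_neg]
    exact max_eq_left h6.le
  have h8 : ‖i (x : F)‖ * ‖i (a : F)‖ = 1 := by rw [← norm_mul, h2, h7]
  have h9 := g1_int i x
  have h10 := g1_int i a
  nlinarith [norm_nonneg (i (x : F)), norm_nonneg (i (a : F))]

theorem g1_O {F : Type} [Field F] [NumberField F] {p : ℕ} [Fact p.Prime] (hin : (Ideal.span {(p : 𝓞 F)}).IsPrime) (i : F →+* PadicAlgCl p)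
    (a : 𝓞 F) (ha : a ≠ 0) : ∃ n : ℕ, ‖i (a : F)‖ = ‖(p : PadicAlgCl p)‖ ^ n := by
  have hp0 : (p : 𝓞 F) ≠ 0 := Nat.cast_ne_zero.2 (Fact.out : p.Prime).ne_zero
  have hirr : Irreducible (p : 𝓞 F) := ((Ideal.span_singleton_prime hp0).1 hin).irreducible
  obtain ⟨n, b, hb, hab⟩ := WfDvdMonoid.max_power_factor ha hirr
  refine ⟨n, ?_⟩
  have h1 : (a : F) = (p : F) ^ n * (b : F) := by
    have h5 := congrArg (algebraMap (𝓞 F) F) hab
    rw [map_mul, map_pow, map_natCast] at h5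
    exact h5
  rw [h1, map_mul, map_pow, map_natCast, norm_mul, norm_pow, g1_unit hin i b hb, mul_one]

theorem norm_F {F : Type} [Field F] [NumberField F] {p : ℕ} [Fact p.Prime] (hin : (Ideal.span {(p : 𝓞 F)}).IsPrime) (i : F →+* PadicAlgCl p)
    (y : F) (hy : y ≠ 0) : ∃ n : ℤ, ‖i y‖ = ‖(p : PadicAlgCl p)‖ ^ n := by
  obtain ⟨a, b, hb, hab⟩ := IsFractionRing.div_surjective (A := 𝓞 F) y
  have hb0 : b ≠ 0 := nonZeroDivisors.ne_zero hb
  have ha0 : a ≠ 0 := by
    rintro rfl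
    rw [map_zero, zero_div] at hab
    exact hy hab.symm
  obtain ⟨m, hm⟩ := g1_O hin i a ha0
  obtain ⟨n, hn⟩ := g1_O hin i b hb0
  refine ⟨(m : ℤ) - n, ?_⟩
  have hp1 : ‖(p : PadicAlgCl p)‖ ≠ 0 := by
    rw [norm_ne_zero_iff]
    exact Nat.cast_ne_zero.2 (Fact.out : p.Prime).ne_zero
  rw [← hab, map_div₀, norm_div, zpow_sub₀ hp1, zpow_natCast, zpow_natCast]
  exact congrArg₂ (· / ·) hm hn

theorem kF_val {F : Type} [Field F] [NumberField F] {p : ℕ} [Fact p.Prime] (hin : (Ideal.span {(p : 𝓞 F)}).IsPrime) (i : F →+* PadicAlgCl p) :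
    ∀ x ∈ kF i, x ≠ 0 → ∃ n : ℤ, ‖x‖ = ‖(p : PadicAlgCl p)‖ ^ n := by
  intro x hx hx0
  obtain ⟨y, hy⟩ := kF_dense i x hx (norm_pos_iff.2 hx0)
  have h1 : ‖i y‖ = ‖x‖ := by
    have h2 : i y = x + -(x - i y) := by ring
    rw [h2, IsUltrametricDist.norm_add_eq_max_of_norm_ne_norm (by rw [norm_neg]; exact hy.ne'), norm_neg]
    exact max_eq_left hy.le
  have hy0 : y ≠ 0 := by
    rintro rfl
    rw [map_zero, norm_zero] at h1
    exact hx0 (norm_eq_zero.1 h1.symm)
  obtain ⟨n, hn⟩ := norm_F hin i y hy0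
  exact ⟨n, by rw [← h1, hn]⟩

end SSG
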