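import Mathlib
import Pool.Agent.Lib.SSG.Z.G0
import Pool.Agent.Lib.H16C.TR2
import Pool.Agent.Lib.H55P.Sel

/-! Chunk G2 (M). Galois theory. GF_iso: σ in GF i fixes ℚ_[p], so it is an element of Gal(PadicAlgCl p / ℚ_[p]) (AlgEquiv.ofRingEquiv) and the norm is the spectral norm: spectralNorm_eq_of_equiv, PadicAlgCl.spectralNorm_eq.
GF_fix: PadicAlgCl p is Galois over kF i (algebraic closure, characteristic 0: IsAlgClosure.isGalois); every automorphism over kF i is in GF i; so x is fixed by all of them and lies in the image of kF i (InfiniteGalois.mem_range_algebraMap_iff_fixed).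
restr: PadicAlgCl p = AlgebraicClosure ℚ_[p]; H16C.exists_restrict with K = ℚ, L = ℚ_[p], ι = i as ℚ-algebra homomorphism (RingHom.toRatAlgHom), σ as above: g : Ω ≃ₐ[ℚ] Ω with i (g x) = σ (i x). σ fixes i(F) (in kF), i is injective: g fixes F: an automorphism over F (AlgEquiv.ofRingEquiv).
Dec V s: s x in V iff x in V, since ‖i (s x)‖ = ‖σ (i x)‖ = ‖i x‖. -/

open NumberField

namespace SSG

/-- An element of GF i as an automorphism over the p-adic numbers. -/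
noncomputable def g2_alg {F : Type} [Field F] {p : ℕ} [Fact p.Prime] (i : F →+* PadicAlgCl p) {σ : RingAut (PadicAlgCl p)} (hσ : σ ∈ GF i) :
    PadicAlgCl p ≃ₐ[ℚ_[p]] PadicAlgCl p :=
  AlgEquiv.ofRingEquiv (f := (σ : PadicAlgCl p ≃+* PadicAlgCl p)) fun r => hσ _ ((kF i).algebraMap_mem r)

theorem g2_alg_apply {F : Type} [Field F] {p : ℕ} [Fact p.Prime] (i : F →+* PadicAlgCl p) {σ : RingAut (PadicAlgCl p)} (hσ : σ ∈ GF i)
    (x : PadicAlgCl p) : g2_alg i hσ x = σ x := rfl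

theorem GF_iso {F : Type} [Field F] {p : ℕ} [Fact p.Prime] (i : F →+* PadicAlgCl p) : ∀ σ ∈ GF i, ∀ x : PadicAlgCl p, ‖σ x‖ = ‖x‖ := by
  intro σ hσ x
  have h1 := spectralNorm_eq_of_equiv (g2_alg i hσ) x
  rw [g2_alg_apply] at h1
  exact h1.symm

theorem GF_fix {F : Type} [Field F] {p : ℕ} [Fact p.Prime] (i : F →+* PadicAlgCl p) (x : PadicAlgCl p) (h : ∀ σ ∈ GF i, σ x = x) : x ∈ kF i := by
  have : Algebra.IsAlgebraic (kF i) (PadicAlgCl p) :=
    Algebra.IsAlgebraic.tower_top (K := ℚ_[p]) (kF i)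
  have : IsAlgClosure (kF i) (PadicAlgCl p) := ⟨inferInstance, inferInstance⟩
  have : CharZero (kF i) := charZero_of_injective_algebraMap (algebraMap ℚ_[p] (kF i)).injective
  have hG : IsGalois (kF i) (PadicAlgCl p) := inferInstance
  have h1 := (InfiniteGalois.mem_range_algebraMap_iff_fixed (k := kF i) (K := PadicAlgCl p) x).2 fun f => by
    refine h (f : PadicAlgCl p ≃+* PadicAlgCl p) ?_
    intro y hy
    exact f.commutes ⟨y, hy⟩
  obtain ⟨y, hy⟩ := h1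
  rw [← hy]
  exact y.2

theorem restr {F : Type} [Field F] [NumberField F] {Ω : Type} [Field Ω] [Algebra F Ω] [IsAlgClosed Ω] [Algebra.IsAlgebraic F Ω] [CharZero Ω] {p : ℕ}
    [Fact p.Prime] (i : Ω →+* PadicAlgCl p) (V : ValuationSubring Ω) (hi : ∀ x : Ω, x ∈ V ↔ ‖i x‖ ≤ 1) (σ : RingAut (PadicAlgCl p))
    (hσ : σ ∈ GF (i.comp (algebraMap F Ω))) : ∃ s : Ω ≃ₐ[F] Ω, H55P.Dec V s ∧ ∀ x : Ω, i (s x) = σ (i x) := by
  have : Algebra.IsAlgebraic ℚ F := inferInstance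
  have : Algebra.IsAlgebraic ℚ Ω := Algebra.IsAlgebraic.trans ℚ F Ω
  obtain ⟨g, hg, -⟩ := H16C.exists_restrict (K := ℚ) (Ω := Ω) (L := ℚ_[p]) i.toRatAlgHom (g2_alg _ hσ)
  have hg' : ∀ x : Ω, i (g x) = σ (i x) := fun x => hg x
  have hF : ∀ r : F, g (algebraMap F Ω r) = algebraMap F Ω r := by
    intro r
    apply i.injective
    rw [hg']
    exact hσ _ (IntermediateField.subset_adjoin _ _ ⟨r, rfl⟩)
  refine ⟨AlgEquiv.ofRingEquiv (f := (g : Ω ≃+* Ω)) hF, ?_, fun x => hg' x⟩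
  intro x
  rw [hi, hi]
  have h1 : ‖i (g x)‖ = ‖i x‖ := by
    rw [hg', GF_iso _ σ hσ]
  show ‖i (g x)‖ ≤ 1 ↔ ‖i x‖ ≤ 1
  rw [h1]

end SSG
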