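import Mathlib
import Pool.Agent.Lib.H55K.D0

/-! Chunk G3 (S/M). Galois action on the cyclic module of the points of order p^N. T with act a T = 0 iff p^N divides a. b = p^N: CMA.gen (H55K/D0.lean) gives T₀ in Tor act b generating it with act a T₀ = 0 iff b divides a. T = act c T₀; c is a unit modulo p^N: for N ≥ 1, p does not divide c
(otherwise act (p^(N-1)) T = 0), (p) is maximal, so c c' = 1 modulo p^N (coprime to p: IsCoprime.pow_right); T₀ = act c' T. s : ac s T is killed by p^N (gal), so ac s T = act x T₀ = act u T with u = x c'. p does not divide u: otherwise act (p^(N-1)) (ac s T) = 0, hence act (p^(N-1)) T = 0 (ac s injective), contradiction.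
N = 0: T = 0 (act 1 T = 0), u = 1. -/

open NumberField WeierstrassCurve

namespace SSG

open H55P (IQ Pt ac)
open H35P (WAB)
open H55K

theorem g3_mul {F : Type} [Field F] {A B : F} {Ω : Type} [Field Ω] [DecidableEq Ω] [Algebra F Ω] (a b : Ω ≃ₐ[F] Ω)
    (P : Pt (WAB A B) Ω) : ac (WAB A B) (a * b) P = ac (WAB A B) a (ac (WAB A B) b P) := by
  cases P <;> rfl

theorem g3_one {F : Type} [Field F] {A B : F} {Ω : Type} [Field Ω] [DecidableEq Ω] [Algebra F Ω]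
    (P : Pt (WAB A B) Ω) : ac (WAB A B) (1 : Ω ≃ₐ[F] Ω) P = P := by
  cases P <;> rfl

theorem gal_T {F : Type} [Field F] [NumberField F] [IQ F] {A B : F} {Om : ℂ} {Ω : Type} [Field Ω] [DecidableEq Ω] [Algebra F Ω] {j : Ω →+* ℂ}
    {act : 𝓞 F →+* AddMonoid.End (Pt (WAB A B) Ω)} (c : CMA F A B Om j act) {p : ℕ} (hp : p.Prime) (hin : (Ideal.span {(p : 𝓞 F)}).IsPrime)
    {N : ℕ} {T : Pt (WAB A B) Ω} (hT : ∀ a : 𝓞 F, act a T = 0 ↔ (p : 𝓞 F) ^ N ∣ a) (s : Ω ≃ₐ[F] Ω) :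
    ∃ u : 𝓞 F, ¬ (p : 𝓞 F) ∣ u ∧ ∀ a : 𝓞 F, ac (WAB A B) s (act a T) = act (u * a) T := by
  have hp0 : (p : 𝓞 F) ≠ 0 := Nat.cast_ne_zero.2 hp.ne_zero
  have hnu : ¬ IsUnit (p : 𝓞 F) := by
    intro h
    exact hin.ne_top (Ideal.span_singleton_eq_top.2 h)
  have hmul : ∀ (a b : 𝓞 F) (P : Pt (WAB A B) Ω), act a (act b P) = act (a * b) P := by
    intro a b P
    rw [map_mul]
    rfl
  rcases Nat.eq_zero_or_pos N with hN | hN
  · subst hN
    have h1 : T = 0 := by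
      have h2 := (hT 1).2 (by rw [pow_zero])
      rw [map_one] at h2
      exact h2
    refine ⟨1, fun h => hnu (isUnit_of_dvd_one h), fun a => ?_⟩
    rw [h1, map_zero, map_zero, map_zero]
  · obtain ⟨n, rfl⟩ : ∃ n, N = n + 1 := ⟨N - 1, by omega⟩
    have hb0 : (p : 𝓞 F) ^ (n + 1) ≠ 0 := pow_ne_zero _ hp0
    have hnd : ¬ (p : 𝓞 F) ^ (n + 1) ∣ (p : 𝓞 F) ^ n := by
      rintro ⟨w, hw⟩
      have h1 : (p : 𝓞 F) ^ n * 1 = (p : 𝓞 F) ^ n * (p * w) := by
        rw [mul_one, ← mul_assoc, ← pow_succ]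
        exact hw
      exact hnu (isUnit_of_dvd_one ⟨w, mul_left_cancel₀ (pow_ne_zero _ hp0) h1⟩)
    obtain ⟨T₀, hT₀, hgen, hker, -⟩ := c.gen _ hb0
    have hbT : act ((p : 𝓞 F) ^ (n + 1)) T = 0 := (hT _).2 dvd_rfl
    have hbT₀ : act ((p : 𝓞 F) ^ (n + 1)) T₀ = 0 := (hker _).2 dvd_rfl
    obtain ⟨c0, hc0⟩ := hgen T hbT
    have hpc : ¬ (p : 𝓞 F) ∣ c0 := by
      rintro ⟨c1, hc1⟩
      apply hnd
      rw [← hT, hc0, hmul, hc1]
      have h1 : (p : 𝓞 F) ^ n * (p * c1) = c1 * (p : 𝓞 F) ^ (n + 1) := by ring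
      rw [h1, ← hmul, hbT₀, map_zero]
    have hmax : (Ideal.span {(p : 𝓞 F)}).IsMaximal := hin.isMaximal (by
      rw [Ne, Ideal.span_singleton_eq_bot]
      exact hp0)
    have hco : IsCoprime c0 (p : 𝓞 F) := by
      have h1 : c0 ∉ Ideal.span {(p : 𝓞 F)} := fun h => hpc (Ideal.mem_span_singleton.1 h)
      obtain ⟨x, y, hy, hxy⟩ := hmax.exists_inv h1
      rw [Ideal.mem_span_singleton] at hy
      obtain ⟨z, hz⟩ := hy
      exact ⟨x, z, by rw [mul_comm z, ← hz]; exact hxy⟩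
    obtain ⟨c', d, hcd⟩ := hco.pow_right (n := n + 1)
    have hT0 : T₀ = act c' T := by
      have h1 : act (c' * c0 + d * (p : 𝓞 F) ^ (n + 1)) T₀ = T₀ := by
        rw [hcd, map_one]
        rfl
      have h2 : act (c' * c0 + d * (p : 𝓞 F) ^ (n + 1)) T₀ = act (c' * c0) T₀ + act (d * (p : 𝓞 F) ^ (n + 1)) T₀ := by
        rw [map_add]
        rfl
      rw [h2, ← hmul d, hbT₀, map_zero, add_zero, ← hmul, ← hc0] at h1
      exact h1.symm
    obtain ⟨x, hx⟩ := hgen (ac (WAB A B) s T) (by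
      show act ((p : 𝓞 F) ^ (n + 1)) (ac (WAB A B) s T) = 0
      rw [← c.gal, hbT, map_zero])
    have hx' : ac (WAB A B) s T = act (x * c') T := by rw [hx, hT0, hmul]
    refine ⟨x * c', ?_, fun a => ?_⟩
    · rintro ⟨u1, hu1⟩
      apply hnd
      rw [← hT]
      have h1 : act ((p : 𝓞 F) ^ n) (ac (WAB A B) s T) = 0 := by
        rw [hx', hu1, hmul]
        have h2 : (p : 𝓞 F) ^ n * (p * u1) = u1 * (p : 𝓞 F) ^ (n + 1) := by ring
        rw [h2, ← hmul, hbT, map_zero]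
      rw [← c.gal] at h1
      have h2 : Function.Injective (ac (WAB A B) s) := by
        intro P Q hPQ
        have h3 : ∀ P : Pt (WAB A B) Ω, ac (WAB A B) s⁻¹ (ac (WAB A B) s P) = P := by
          intro P
          rw [← g3_mul, inv_mul_cancel, g3_one]
        rw [← h3 P, ← h3 Q, hPQ]
      exact h2 (h1.trans (map_zero _).symm)
    · rw [c.gal, hx', hmul, mul_comm a]

end SSG
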