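import Mathlib
import Pool.Agent.Lib.H55K.SPA1
import Pool.Agent.Lib.SSG.F.Defs

/-! Chunk G4 (M/L). The determinant of the Galois action is the cyclotomic character: ac s T = act u T implies s ζ = ζ^(norm u), for T of exact order p^N and ζ a primitive p^N-th root of unity. Copy of the proof in H55K/SPA1.lean (there a prime l which splits and two points T₀, T₀'; here one point T and the norm):
K = the set of the t in Gal(Ω/F) such that for all x in 𝓞 F and n in ℕ with ac t T = act x T, t ζ = ζ^n: p^N divides Algebra.norm ℤ x - n in ℤ. For every t such x, n exist (CMA.gen as in chunk G3: T generates the points killed by p^N; ζ^n: IsPrimitiveRoot.autToPow or eq_pow_of_pow_eq_one) and x is unique modulo p^N, n unique modulo p^N; if x ≡ y mod p^N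
then norm x ≡ norm y mod p^N (in ℤ; norm x = x * conj x, or Nm of H55P/H55K, cj: see H55K/NK2.lean mul_cj; p^N is a rational integer). So t ↦ norm(x_t) and t ↦ n_t are two homomorphisms to (ZMod (p^N))ˣ (x_(t t') = x_t x_t' since act commutes with the action) and K is their equalizer, a normal subgroup (commutative target) which contains the fixing
subgroup of the finite extension generated by the coordinates of T and by ζ. H13S.PA1_top: it is enough to treat the Frobenius elements t at V above v, absNorm v = q prime, v outside the finite set of frob, not dividing p, not containing the modulus m: Dta.frob with n = p^N: ac t T = act (ψ v) T; span {ψ v} = v (hecke.gen), so |norm (ψ v)| = absNorm v = q and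
the norm is positive (imaginary quadratic); t ζ - ζ^q is in the maximal ideal of V, t ζ is a p^N-th root of unity and differences of distinct p^N-th roots of unity are units at V (V(p) = 1): t ζ = ζ^q. (All these steps are in SPA1.lean.) Finally nrm u = |norm u| = norm u. -/

open NumberField WeierstrassCurve

namespace SSG

open H55P (IQ Pt ac)
open H35P (WAB)
open H55K

section g4

open IsDedekindDomain
open H55P (embF eF LF Per IsHecke Inert Dec Nm)
open H55K.S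

variable {F : Type} [Field F] [NumberField F] [IQ F] {A B : F} {Om : ℂ} {Ω : Type} [Field Ω] [DecidableEq Ω]
  [Algebra F Ω] {j : Ω →+* ℂ} {act : 𝓞 F →+* AddMonoid.End (Pt (WAB A B) Ω)} {mo : Ideal (𝓞 F)}
  {ψ : Ideal (𝓞 F) →*₀ 𝓞 F}

/-- Roots of unity at a Frobenius element. -/
theorem g4_zeta (l : ℕ) (hl : l ≠ 0) (ζ : Ω) (hζ : IsPrimitiveRoot ζ l) (V : ValuationSubring Ω)
    (hV : ¬ V.valuation (l : Ω) < 1) (q : ℕ) (s : Ω ≃ₐ[F] Ω)
    (hs : ∀ x ∈ V, V.valuation (s x - x ^ q) < 1) : s ζ = ζ ^ q := by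
  have hl0 : NeZero l := ⟨hl⟩
  have hz1 : V.valuation ζ = 1 := by
    have h1 : V.valuation ζ ^ l = 1 := by rw [← map_pow, hζ.pow_eq_one, map_one]
    exact (pow_eq_one_iff_of_nonneg zero_le hl).1 h1
  have hzV : ζ ∈ V := (V.valuation_le_one_iff ζ).1 hz1.le
  by_contra hne
  have hz0 : ζ ^ q ≠ 0 := pow_ne_zero _ (hζ.ne_zero hl)
  let ξ : Ω := s ζ / ζ ^ q
  have hξ1 : ξ ≠ 1 := fun h => hne ((div_eq_one_iff_eq hz0).1 h)
  have hξl : ξ ^ l = 1 := by
    show (s ζ / ζ ^ q) ^ l = 1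
    rw [div_pow, ← map_pow, hζ.pow_eq_one, map_one, ← pow_mul, mul_comm, pow_mul, hζ.pow_eq_one,
      one_pow, div_one]
  have hξv : V.valuation (ξ - 1) < 1 := by
    have h1 : ξ - 1 = (s ζ - ζ ^ q) / ζ ^ q := by
      show s ζ / ζ ^ q - 1 = _
      field_simp
    rw [h1, map_div₀, map_pow, hz1, one_pow, div_one]
    exact hs ζ hzV
  have hξV : ξ ∈ V := by
    have h1 : ξ - 1 ∈ V := (V.valuation_le_one_iff _).1 hξv.le
    have h2 := V.add_mem _ _ h1 V.one_mem
    rwa [sub_add_cancel] at h2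
  let x : V := ⟨ξ, hξV⟩
  have hr : IsLocalRing.residue V x = 1 := by
    have h1 : x - 1 ∈ IsLocalRing.maximalIdeal V := by
      rw [ValuationSubring.valuation_lt_one_iff]
      exact hξv
    have h2 := (IsLocalRing.residue_eq_zero_iff _).2 h1
    rw [map_sub, map_one, sub_eq_zero] at h2
    exact h2
  have hsum : ∑ i ∈ Finset.range l, x ^ i = 0 := by
    apply Subtype.ext
    have h1 := geom_sum_mul ξ l
    rw [hξl, sub_self] at h1
    have h2 := (mul_eq_zero.1 h1).resolve_right (sub_ne_zero.2 hξ1)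
    rw [ZeroMemClass.coe_zero, ← h2]
    push_cast
    rfl
  have h1 : IsLocalRing.residue V (l : V) = 0 := by
    have h2 := congrArg (IsLocalRing.residue V) hsum
    rw [map_sum, map_zero] at h2
    simp only [map_pow, hr, one_pow, Finset.sum_const, Finset.card_range, nsmul_eq_mul, mul_one] at h2
    rw [map_natCast]
    exact h2
  apply hV
  have h2 := (IsLocalRing.residue_eq_zero_iff _).1 h1
  have h4 := (ValuationSubring.valuation_lt_one_iff V (l : V)).1 h2
  exact h4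

/-- The point T generates the points killed by p^N. -/
theorem g4_gen (c : CMA F A B Om j act) {p : ℕ} (hp : p.Prime) (hin : (Ideal.span {(p : 𝓞 F)}).IsPrime)
    {N : ℕ} (hN : N ≠ 0) {T : Pt (WAB A B) Ω} (hT : ∀ a : 𝓞 F, act a T = 0 ↔ (p : 𝓞 F) ^ N ∣ a)
    (T' : Pt (WAB A B) Ω) (hT' : act ((p : 𝓞 F) ^ N) T' = 0) : ∃ a : 𝓞 F, T' = act a T := by
  have hp0 : (p : 𝓞 F) ≠ 0 := Nat.cast_ne_zero.2 hp.ne_zero
  obtain ⟨T₀, h1, hgen, hz, -⟩ := c.gen ((p : 𝓞 F) ^ N) (pow_ne_zero _ hp0)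
  obtain ⟨x, hx⟩ := hgen T ((hT _).2 dvd_rfl)
  have hnx : ¬ (p : 𝓞 F) ∣ x := by
    rintro ⟨y, rfl⟩
    obtain ⟨M, rfl⟩ := Nat.exists_eq_succ_of_ne_zero hN
    have h2 : act ((p : 𝓞 F) ^ M) T = 0 := by
      rw [hx, ← act_mul, hz]
      exact ⟨y, by rw [Nat.succ_eq_add_one, pow_succ]; ring⟩
    have h3 := (hT _).1 h2
    have h4 : (p : 𝓞 F) ∣ 1 := by
      obtain ⟨z, hz'⟩ := h3
      refine ⟨z, ?_⟩
      have h5 : (p : 𝓞 F) ^ M ≠ 0 := pow_ne_zero _ hp0
      apply mul_left_cancel₀ h5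
      rw [mul_one]
      conv_lhs => rw [hz', Nat.succ_eq_add_one, pow_succ]
      ring
    exact hin.ne_top ((Ideal.span_singleton_eq_top).2 (isUnit_of_dvd_one h4))
  have hmax : (Ideal.span {(p : 𝓞 F)}).IsMaximal := by
    refine hin.isMaximal ?_
    rw [Ne, Ideal.span_singleton_eq_bot]
    exact hp0
  have hcop : IsCoprime (p : 𝓞 F) x := by
    have h2 : Ideal.span {(p : 𝓞 F)} ⊔ Ideal.span {x} = ⊤ := by
      refine hmax.1.2 _ (left_lt_sup.2 fun h => hnx ?_)
      exact Ideal.mem_span_singleton.1 (h (Ideal.mem_span_singleton_self _))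
    have h3 : (1 : 𝓞 F) ∈ Ideal.span {(p : 𝓞 F)} ⊔ Ideal.span {x} := by
      rw [h2]
      exact Submodule.mem_top
    obtain ⟨a, ha, b, hb, hab⟩ := Submodule.mem_sup.1 h3
    obtain ⟨a', rfl⟩ := Ideal.mem_span_singleton.1 ha
    obtain ⟨b', rfl⟩ := Ideal.mem_span_singleton.1 hb
    exact ⟨a', b', by rw [← hab]; ring⟩
  obtain ⟨w, u, huw⟩ := hcop.pow_left (m := N)
  obtain ⟨y, hy⟩ := hgen T' hT'
  refine ⟨y * u, ?_⟩
  rw [hx, ← act_mul, hy]
  have h1' : y = y * u * x + y * w * (p : 𝓞 F) ^ N := by linear_combination (-y) * huw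
  conv_lhs => rw [h1']
  rw [act_add, act_mul (y * w) _, mem_Tor.1 h1, map_zero, add_zero]

/-- Divisibility of rational integers by p^N. -/
theorem g4_int (M : ℕ) (k : ℤ) (h : (M : 𝓞 F) ∣ (k : 𝓞 F)) : (M : ℤ) ∣ k := by
  obtain ⟨z, hz⟩ := h
  have h1 : Nm (k : 𝓞 F) = Nm (M : 𝓞 F) * Nm z := by rw [hz, Nm_mul]
  have h2 : Nm (k : 𝓞 F) = k.natAbs ^ 2 := by
    rcases Int.natAbs_eq k with h | h
    · rw [h]
      simp only [Int.cast_natCast, Int.natAbs_natCast]
      exact Nm_nat _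
    · have h3 : (k : 𝓞 F) = -((k.natAbs : ℕ) : 𝓞 F) := by
        have h4 := congrArg (fun z : ℤ => (z : 𝓞 F)) h
        simp only [Int.cast_neg] at h4
        rw [h4, Int.cast_natCast]
      rw [h3]
      unfold Nm
      rw [Ideal.span_singleton_neg]
      exact Nm_nat _
  rw [h2, Nm_nat] at h1
  have h3 : M ^ 2 ∣ k.natAbs ^ 2 := ⟨_, h1⟩
  have h4 := (Nat.pow_dvd_pow_iff two_ne_zero).1 h3
  exact Int.natCast_dvd.2 h4

theorem g4_main [IsAlgClosure F Ω] {p : ℕ} [Fact p.Prime]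
    (d : Dta A B Om j act mo ψ p) (hin : (Ideal.span {(p : 𝓞 F)}).IsPrime) {N : ℕ} (hN : N ≠ 0) {T : Pt (WAB A B) Ω}
    (hT : ∀ a : 𝓞 F, act a T = 0 ↔ (p : 𝓞 F) ^ N ∣ a) {ζ : Ω} (hζ : IsPrimitiveRoot ζ (p ^ N)) (s : Ω ≃ₐ[F] Ω) (u : 𝓞 F)
    (hu : ac (WAB A B) s T = act u T) : s ζ = ζ ^ nrm u := by
  classical
  have hp : p.Prime := Fact.out
  have hac : IsAlgClosed Ω := IsAlgClosure.isAlgClosed F
  have halg : Algebra.IsAlgebraic F Ω := IsAlgClosure.isAlgebraic
  obtain ⟨M, hM⟩ : ∃ M : ℕ, M = p ^ N := ⟨_, rfl⟩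
  rw [← hM] at hζ
  have hM0 : M ≠ 0 := by
    rw [hM]
    exact pow_ne_zero _ hp.ne_zero
  have hMn : NeZero M := ⟨hM0⟩
  have hMc : ((M : ℕ) : 𝓞 F) = (p : 𝓞 F) ^ N := by rw [hM, Nat.cast_pow]
  have hz : ∀ a : 𝓞 F, act a T = 0 ↔ (M : 𝓞 F) ∣ a := by
    rw [hMc]
    exact hT
  have hA := d.cma
  have hT0 : T ≠ 0 := by
    intro h
    have h1 := (hT 1).1 (by rw [h, map_zero])
    have h2 : (p : 𝓞 F) ∣ 1 := (dvd_pow_self _ hN).trans h1
    exact hin.ne_top ((Ideal.span_singleton_eq_top).2 (isUnit_of_dvd_one h2))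
  have hTM : T ∈ Tor act (M : 𝓞 F) := (hz _).2 dvd_rfl
  have hex : ∀ t : Ω ≃ₐ[F] Ω, ∃ q : 𝓞 F × ℕ, ac (WAB A B) t T = act q.1 T ∧ t ζ = ζ ^ q.2 := by
    intro t
    obtain ⟨x, hx⟩ := g4_gen hA hp hin hN hT _ (by rw [← hMc]; exact ac_mem hA t hTM)
    have h1 : (t ζ) ^ M = 1 := by rw [← map_pow, hζ.pow_eq_one, map_one]
    obtain ⟨i, _, hi⟩ := hζ.eq_pow_of_pow_eq_one h1
    exact ⟨⟨x, i⟩, hx, hi.symm⟩
  choose q hq using hex
  let mk : 𝓞 F →+* 𝓞 F ⧸ Ideal.span {(M : 𝓞 F)} := Ideal.Quotient.mk (Ideal.span {(M : 𝓞 F)})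
  have hmk : ∀ x y : 𝓞 F, mk x = mk y ↔ (M : 𝓞 F) ∣ x - y := by
    intro x y
    rw [← Ideal.mem_span_singleton]
    exact Ideal.Quotient.mk_eq_mk_iff_sub_mem _ _
  have uniq1 : ∀ (t : Ω ≃ₐ[F] Ω) (x : 𝓞 F), ac (WAB A B) t T = act x T →
      mk (cj x * x) = mk (cj (q t).1 * (q t).1) := by
    intro t x hx
    have h1 : (M : 𝓞 F) ∣ x - (q t).1 := by
      rw [← hz, act_sub, ← hx, ← (hq t).1, sub_self]
    have h2 : (M : 𝓞 F) ∣ cj x - cj (q t).1 := by
      rw [← map_sub, ← cj_dvd, cj_nat]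
      exact h1
    rw [map_mul mk, map_mul mk, (hmk _ _).2 h1, (hmk _ _).2 h2]
  have uniq2 : ∀ (t : Ω ≃ₐ[F] Ω) (n : ℕ), t ζ = ζ ^ n → mk (n : 𝓞 F) = mk ((q t).2 : 𝓞 F) := by
    intro t n hn
    have h1 : ζ ^ n = ζ ^ (q t).2 := by rw [← hn, (hq t).2]
    have h2 : n ≡ (q t).2 [MOD M] := by
      rw [← pow_mod_orderOf, ← pow_mod_orderOf ζ (q t).2, ← hζ.eq_orderOf] at h1
      exact hζ.pow_inj (Nat.mod_lt _ (Nat.pos_of_ne_zero hM0)) (Nat.mod_lt _ (Nat.pos_of_ne_zero hM0)) h1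
    rw [hmk]
    have h4 : (M : ℤ) ∣ ((n : ℤ) - ((q t).2 : ℤ)) := (Nat.modEq_iff_dvd.1 h2.symm)
    obtain ⟨m, hm⟩ := h4
    have h6 : (n : 𝓞 F) - ((q t).2 : 𝓞 F) = (M : 𝓞 F) * (m : 𝓞 F) := by
      exact_mod_cast congrArg (fun z : ℤ => (z : 𝓞 F)) hm
    rw [h6]
    exact dvd_mul_right _ _
  let D : (Ω ≃ₐ[F] Ω) →* (𝓞 F ⧸ Ideal.span {(M : 𝓞 F)}) :=
    { toFun := fun t => mk (cj (q t).1 * (q t).1)
      map_one' := by
        rw [← uniq1 1 1 (by rw [S.ac_one, S.act_one])]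
        simp
      map_mul' := fun t t' => by
        rw [← uniq1 (t * t') ((q t').1 * (q t).1)
          (by rw [S.ac_mul, (hq t').1, ac_act hA, (hq t).1, ← act_mul]), ← map_mul, map_mul cj]
        congr 1
        ring }
  let C : (Ω ≃ₐ[F] Ω) →* (𝓞 F ⧸ Ideal.span {(M : 𝓞 F)}) :=
    { toFun := fun t => mk ((q t).2 : 𝓞 F)
      map_one' := by
        rw [← uniq2 1 1 (by rw [pow_one]; rfl)]
        simp
      map_mul' := fun t t' => by
        rw [← uniq2 (t * t') ((q t).2 * (q t').2) (by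
          rw [AlgEquiv.mul_apply, (hq t').2, map_pow, (hq t).2, pow_mul]), ← map_mul]
        congr 1
        push_cast
        rfl }
  have hH : ∀ (t : Ω ≃ₐ[F] Ω) (x : 𝓞 F) (n : ℕ), ac (WAB A B) t T = act x T →
      t ζ = ζ ^ n → (t ∈ MonoidHom.eqLocus D C ↔ (M : 𝓞 F) ∣ cj x * x - (n : 𝓞 F)) := by
    intro t x n hx hn
    rw [← hmk, uniq1 t x hx, uniq2 t n hn]
    exact Iff.rfl
  have key : MonoidHom.eqLocus D C = ⊤ := by
    have hint : ∀ x : Ω, IsIntegral F x := fun x => (Algebra.IsAlgebraic.isAlgebraic x).isIntegral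
    let A₁ : Set Ω := {xc T, yc T, ζ}
    have hAf : A₁.Finite := Set.toFinite A₁
    have hAf' : Finite A₁ := hAf
    have hLf : FiniteDimensional F (IntermediateField.adjoin F A₁) :=
      IntermediateField.finiteDimensional_adjoin fun x _ => hint x
    obtain ⟨S₀, hS₀, hfr⟩ := d.frob
    refine H13S.PA1_top (F₀ := F) (MonoidHom.eqLocus D C) ?_ (IntermediateField.adjoin F A₁) ?_
      (S₀ ∪ {v | (M : 𝓞 F) ∈ v.asIdeal} ∪ {v | mo ≤ v.asIdeal}) ?_ ?_
    · constructor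
      intro t ht g
      show D (g * t * g⁻¹) = C (g * t * g⁻¹)
      have h1 : D t = C t := ht
      rw [map_mul, map_mul, map_mul, map_mul, mul_right_comm, mul_right_comm (C g), h1, ← map_mul,
        ← map_mul, mul_inv_cancel, map_one, map_one]
    · intro t ht
      have hfix : ∀ x ∈ A₁, t x = x := fun x hx =>
        ht ⟨x, IntermediateField.subset_adjoin F A₁ hx⟩
      have hacne : ∀ P : Pt (WAB A B) Ω, P ≠ 0 → ac (WAB A B) t P ≠ 0 := fun P hP => ac_ne t hP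
      have e1 : ac (WAB A B) t T = act 1 T := by
        rw [act_one]
        refine S.pt_ext (hacne _ hT0) hT0 ?_ ?_
        · rw [S.xc_ac]
          exact hfix _ (by simp [A₁])
        · rw [S.yc_ac]
          exact hfix _ (by simp [A₁])
      rw [hH t 1 1 e1 (by rw [pow_one]; exact hfix _ (by simp [A₁]))]
      simp
    · have hf : ∀ n : ℕ, n ≠ 0 → {v : HeightOneSpectrum (𝓞 F) | (n : 𝓞 F) ∈ v.asIdeal}.Finite := by
        intro n hn
        have h1 : Ideal.span {(n : 𝓞 F)} ≠ 0 := by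
          rw [Ideal.zero_eq_bot, Ne, Ideal.span_singleton_eq_bot]
          exact Nat.cast_ne_zero.2 hn
        refine (Ideal.finite_factors h1).subset ?_
        intro v hv
        exact Ideal.dvd_span_singleton.2 hv
      have hm : {v : HeightOneSpectrum (𝓞 F) | mo ≤ v.asIdeal}.Finite := by
        refine (Ideal.finite_factors d.hecke.ne).subset ?_
        intro v hv
        exact Ideal.dvd_iff_le.2 hv
      exact (hS₀.union (hf M hM0)).union hm
    · intro v hv hqp V hV t ht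
      rw [Set.mem_union, Set.mem_union, not_or, not_or] at hv
      obtain ⟨⟨hvS, hvl⟩, hvm⟩ := hv
      change (M : 𝓞 F) ∉ v.asIdeal at hvl
      change ¬ mo ≤ v.asIdeal at hvm
      have hcop : IsCoprime v.asIdeal mo := by
        rw [Ideal.isCoprime_iff_sup_eq]
        exact v.isMaximal.1.2 _ (left_lt_sup.2 hvm)
      have hspan := d.hecke.gen v.asIdeal hcop
      have hNm : Nm (ψ v.asIdeal) = Ideal.absNorm v.asIdeal := by
        unfold Nm
        rw [hspan]
      have hVl : ¬ V.valuation (M : Ω) < 1 := by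
        intro hlt
        have h1 : Ideal.span {(M : 𝓞 F)} ⊔ v.asIdeal = ⊤ := by
          rw [sup_comm]
          refine v.isMaximal.1.2 _ (left_lt_sup.2 fun h => hvl (h (Ideal.mem_span_singleton_self _)))
        have h2 : (1 : 𝓞 F) ∈ Ideal.span {(M : 𝓞 F)} ⊔ v.asIdeal := by
          rw [h1]
          exact Submodule.mem_top
        obtain ⟨x, hx, y, hy, hxy⟩ := Submodule.mem_sup.1 h2
        obtain ⟨z, rfl⟩ := Ideal.mem_span_singleton.1 hx
        have h3 : vo V ((M : 𝓞 F) * z) < 1 := by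
          rw [vo_mul, vo_nat]
          exact lt_of_le_of_lt (mul_le_of_le_one_right' (vo_le V z)) hlt
        have h4 := vo_add V h3 (hV y hy)
        rw [hxy, vo_one] at h4
        exact lt_irrefl _ h4
      have hV1 : V.valuation (M : Ω) = 1 := by
        refine le_antisymm ?_ (not_lt.1 hVl)
        rw [← vo_nat (F := F)]
        exact vo_le V _
      have hk : M • T = 0 := by
        rw [← act_nat (act := act)]
        exact (hz _).2 dvd_rfl
      have f1 := hfr v hvS hqp V hV t ht M hV1 T hk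
      have f3 := g4_zeta M hM0 ζ hζ V hVl _ t ht
      rw [hH t _ _ f1 f3, mul_comm, mul_cj, hNm, sub_self]
      exact dvd_zero _
  have h1 : s ∈ MonoidHom.eqLocus D C := by
    rw [key]
    exact Subgroup.mem_top s
  have h2 := (hH s u (q s).2 hu (hq s).2).1 h1
  rw [mul_comm, mul_cj] at h2
  have h3 : (M : ℤ) ∣ (Nm u : ℤ) - ((q s).2 : ℤ) := by
    apply g4_int (F := F)
    push_cast
    exact h2
  have h4 : (q s).2 ≡ Nm u [MOD M] := Nat.modEq_iff_dvd.2 h3
  have h5 : nrm u = Nm u := by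
    unfold nrm Nm
    rw [Ideal.absNorm_span_singleton]
  rw [h5, (hq s).2]
  rw [← pow_mod_orderOf, ← pow_mod_orderOf ζ (Nm u), ← hζ.eq_orderOf]
  exact congrArg (fun k => ζ ^ k) h4

end g4

theorem gal_zeta {F : Type} [Field F] [NumberField F] [IQ F] {A B : F} {Om : ℂ} {Ω : Type} [Field Ω] [DecidableEq Ω] [Algebra F Ω] [IsAlgClosure F Ω]
    {j : Ω →+* ℂ} {act : 𝓞 F →+* AddMonoid.End (Pt (WAB A B) Ω)} {m : Ideal (𝓞 F)} {ψ : Ideal (𝓞 F) →*₀ 𝓞 F} {p : ℕ} [Fact p.Prime]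
    (d : Dta A B Om j act m ψ p) (hin : (Ideal.span {(p : 𝓞 F)}).IsPrime) {N : ℕ} {T : Pt (WAB A B) Ω}
    (hT : ∀ a : 𝓞 F, act a T = 0 ↔ (p : 𝓞 F) ^ N ∣ a) {ζ : Ω} (hζ : IsPrimitiveRoot ζ (p ^ N)) (s : Ω ≃ₐ[F] Ω) (u : 𝓞 F)
    (hu : ac (WAB A B) s T = act u T) : s ζ = ζ ^ nrm u := by
  classical
  have hp : p.Prime := Fact.out
  by_cases hN : N = 0
  · subst hN
    rw [pow_zero] at hζ
    have h1 : ζ = 1 := IsPrimitiveRoot.one_right_iff.1 hζ
    rw [h1, map_one, one_pow]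
  exact g4_main d hin hN hT hζ s u hu

end SSG
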