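import Mathlib
import Pool.Agent.Lib.SSG.Z.G1
import Pool.Agent.Lib.SSG.Z.G2
import Pool.Agent.Lib.SSG.Z.G3
import Pool.Agent.Lib.SSG.Z.G4

/-! Chunk G5 (M). Assembly of GAL. k = (kF (i.comp (algebraMap F Ω))).toSubfield, G = GF (i.comp (algebraMap F Ω)). A coherent system of primitive roots of unity in Ω (algebraically closed, characteristic 0): z 0 = 1, z 1 a primitive p-th root, z (N+1) a p-th root of z N (recursion; for N ≥ 1 every p-th root of a primitive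
p^N-th root of unity is a primitive p^(N+1)-th root: IsPrimitiveRoot.of .. order p^(N+1): orderOf_eq_prime_pow or IsPrimitiveRoot.iff_orderOf; for N = 0 choose it ≠ 1), or: the primitive p^(N+1)-th roots surject onto the primitive p^N-th roots under the p-th power. ζ N = i (z N) (IsPrimitiveRoot.map_of_injective).
gal: restr (G2) gives s, gal_T (G3) gives u (from CMA = d.cma), gal_zeta (G4) with a = 1 (act 1 = id): s (z N) = z N ^ nrm u, apply i. -/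

open NumberField WeierstrassCurve

namespace SSG

open H55P (IQ Pt ac)
open H35P (WAB tt)
open H55K

theorem g5_step {Ω : Type} [Field Ω] [IsAlgClosed Ω] [CharZero Ω] {p : ℕ} (hp : p.Prime) (N : ℕ) (z : Ω)
    (hz : IsPrimitiveRoot z (p ^ N)) : ∃ w : Ω, IsPrimitiveRoot w (p ^ (N + 1)) ∧ w ^ p = z := by
  rcases Nat.eq_zero_or_pos N with h0 | h0
  · subst h0
    rw [pow_zero] at hz
    have hz1 : z = 1 := IsPrimitiveRoot.one_right_iff.1 hz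
    haveI : NeZero (p : Ω) := ⟨Nat.cast_ne_zero.2 hp.ne_zero⟩
    obtain ⟨w, hw⟩ := HasEnoughRootsOfUnity.exists_primitiveRoot Ω p
    refine ⟨w, ?_, ?_⟩
    · rw [zero_add, pow_one]
      exact hw
    · rw [hz1]
      exact hw.pow_eq_one
  · obtain ⟨w, hw⟩ := IsAlgClosed.exists_pow_nat_eq z hp.pos
    refine ⟨w, ?_, hw⟩
    rw [IsPrimitiveRoot.iff_orderOf]
    haveI : Fact p.Prime := ⟨hp⟩
    obtain ⟨M, rfl⟩ : ∃ M, N = M + 1 := ⟨N - 1, by omega⟩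
    refine orderOf_eq_prime_pow ?_ ?_
    · intro h1
      have h2 : z ^ p ^ M = 1 := by
        rw [← hw, ← pow_mul, ← pow_succ']
        exact h1
      have h3 := hz.dvd_of_pow_eq_one _ h2
      have h4 := (Nat.pow_dvd_pow_iff_le_right hp.one_lt).1 h3
      omega
    · rw [pow_succ', pow_mul, hw]
      exact hz.pow_eq_one

theorem g5_sys {Ω : Type} [Field Ω] [IsAlgClosed Ω] [CharZero Ω] {p : ℕ} (hp : p.Prime) :
    ∃ z : ℕ → Ω, (∀ N, IsPrimitiveRoot (z N) (p ^ N)) ∧ ∀ N, z (N + 1) ^ p = z N := by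
  let g : ∀ N : ℕ, {z : Ω // IsPrimitiveRoot z (p ^ N)} := fun N => Nat.rec
    (motive := fun N => {z : Ω // IsPrimitiveRoot z (p ^ N)})
    ⟨1, by rw [pow_zero]; exact IsPrimitiveRoot.one⟩
    (fun N z => ⟨(g5_step hp N z.1 z.2).choose, (g5_step hp N z.1 z.2).choose_spec.1⟩) N
  exact ⟨fun N => (g N).1, fun N => (g N).2, fun N => (g5_step hp N (g N).1 (g N).2).choose_spec.2⟩

theorem exists_gal {F : Type} [Field F] [NumberField F] [IQ F] {A B : F} {Om : ℂ} {Ω : Type} [Field Ω] [DecidableEq Ω] [Algebra F Ω] [IsAlgClosure F Ω]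
    {j : Ω →+* ℂ} {act : 𝓞 F →+* AddMonoid.End (Pt (WAB A B) Ω)} {m : Ideal (𝓞 F)} {ψ : Ideal (𝓞 F) →*₀ 𝓞 F} {p : ℕ} [Fact p.Prime]
    (d : Dta A B Om j act m ψ p) (hin : (Ideal.span {(p : 𝓞 F)}).IsPrime) (V : ValuationSubring Ω) (i : Ω →+* PadicAlgCl p)
    (hi : ∀ x : Ω, x ∈ V ↔ ‖i x‖ ≤ 1) (T : ℕ → Pt (WAB A B) Ω) (hT : ∀ N (a : 𝓞 F), act a (T N) = 0 ↔ (p : 𝓞 F) ^ N ∣ a) :
    ∃ (k : Subfield (PadicAlgCl p)) (G : Subgroup (RingAut (PadicAlgCl p))) (ζ : ℕ → PadicAlgCl p),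
      (∀ x : F, i (algebraMap F Ω x) ∈ k) ∧ (∀ x ∈ k, x ≠ 0 → ∃ n : ℤ, ‖x‖ = ‖(p : PadicAlgCl p)‖ ^ n) ∧
      (∀ σ ∈ G, ∀ x : PadicAlgCl p, ‖σ x‖ = ‖x‖) ∧ (∀ σ ∈ G, ∀ x ∈ k, σ x = x) ∧ (∀ x : PadicAlgCl p, (∀ σ ∈ G, σ x = x) → x ∈ k) ∧
      (∀ N, IsPrimitiveRoot (ζ N) (p ^ N)) ∧ (∀ N, ζ (N + 1) ^ p = ζ N) ∧
      ∀ σ ∈ G, ∀ N, ∃ u : 𝓞 F, ¬ (p : 𝓞 F) ∣ u ∧ σ (ζ N) = ζ N ^ nrm u ∧ ∃ s : Ω ≃ₐ[F] Ω, H55P.Dec V s ∧ (∀ x : Ω, i (s x) = σ (i x)) ∧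
        ∀ a : 𝓞 F, ac (WAB A B) s (act a (T N)) = act (u * a) (T N) := by
  have hp : p.Prime := Fact.out
  haveI : IsAlgClosed Ω := IsAlgClosure.isAlgClosed F
  haveI : Algebra.IsAlgebraic F Ω := IsAlgClosure.isAlgebraic
  haveI : CharZero Ω := charZero_of_injective_algebraMap (algebraMap F Ω).injective
  obtain ⟨z, hz, hzp⟩ := g5_sys (Ω := Ω) hp
  refine ⟨(kF (i.comp (algebraMap F Ω))).toSubfield, GF (i.comp (algebraMap F Ω)), fun N => i (z N),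
    fun x => IntermediateField.subset_adjoin ℚ_[p] _ ⟨x, rfl⟩,
    fun x hx hx0 => kF_val hin (i.comp (algebraMap F Ω)) x hx hx0,
    fun σ hσ x => GF_iso (i.comp (algebraMap F Ω)) σ hσ x, fun σ hσ x hx => hσ x hx,
    fun x hx => GF_fix (i.comp (algebraMap F Ω)) x hx,
    fun N => (hz N).map_of_injective i.injective,
    fun N => by rw [← map_pow, hzp], ?_⟩
  intro σ hσ N
  obtain ⟨s, hdec, hs⟩ := restr i V hi σ hσ
  obtain ⟨u, hu, hua⟩ := gal_T d.cma hp hin (hT N) s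
  refine ⟨u, hu, ?_, s, hdec, hs, hua⟩
  have h1 : ac (WAB A B) s (T N) = act u (T N) := by
    have h2 := hua 1
    rw [map_one, mul_one] at h2
    exact h2
  have h3 := gal_zeta d hin (hT N) (hz N) s u h1
  rw [← hs, h3, map_pow]

end SSG
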