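import Mathlib
import Pool.Agent.Lib.SSG.Z.G5
import Pool.Agent.Lib.SSG.F.R4
import Pool.Agent.Lib.SSG.LT.D
import Pool.Agent.Lib.H55R.X9
import Pool.Agent.Lib.H55P.F0

/-! # SSG/Z, module GAL: the frame is good -/

open NumberField WeierstrassCurve

namespace SSG

open H55P (IQ Pt ac)
open H35P (WAB tt)
open H55K

theorem g6_tt {F : Type} [Field F] {A B : F} {Ω : Type} [Field Ω] [DecidableEq Ω] [Algebra F Ω] (s : Ω ≃ₐ[F] Ω) (P : Pt (WAB A B) Ω) :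
    tt (ac (WAB A B) s P) = s (tt P) := by
  cases P with
  | zero => exact (map_zero s).symm
  | some x y h => exact (map_div₀ s _ _).symm

theorem g6_pos {F : Type} [Field F] [NumberField F] [IQ F] (a : 𝓞 F) : 0 ≤ Algebra.norm ℤ a := by
  have h1 := H55R.X9_norm_nonneg (K := F) (fun v => by rw [H55P.F0_place v]; exact H55P.F0_cpx) (a : F)
  rw [← Algebra.coe_norm_int] at h1
  exact_mod_cast h1

/-- The Lubin-Tate frame with coordinates X is good. -/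
theorem exists_good {F : Type} [Field F] [NumberField F] [IQ F] {A B : F} {Om : ℂ} {Ω : Type} [Field Ω] [DecidableEq Ω] [Algebra F Ω] [IsAlgClosure F Ω]
    {j : Ω →+* ℂ} {act : 𝓞 F →+* AddMonoid.End (Pt (WAB A B) Ω)} {m : Ideal (𝓞 F)} {ψ : Ideal (𝓞 F) →*₀ 𝓞 F} {p : ℕ} [hpf : Fact p.Prime]
    (d : Dta A B Om j act m ψ p) (hin : (Ideal.span {(p : 𝓞 F)}).IsPrime) (V : ValuationSubring Ω) (i₀ : Ω →+* PadicAlgCl p)
    (hi : ∀ x : Ω, x ∈ V ↔ ‖i₀ x‖ ≤ 1) (T : ℕ → Pt (WAB A B) Ω) (hT : PtsT A B Om j act p V T) (X : ℕ → 𝓞 F → PadicAlgCl p)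
    (hX : XFr p act i₀ T X) : ∃ L : LTF F ℂ_[p], (∀ N a, L.X N a = (X N a : ℂ_[p])) ∧ L.Good p := by
  obtain ⟨k, G, ζ, hk, kval, giso, gk, gfix, ζprim, ζp, hgal⟩ := exists_gal d hin V i₀ hi T hT.zero
  refine ⟨⟨fun N a => (X N a : ℂ_[p]), fun N => (ζ N : ℂ_[p])⟩, fun _ _ => rfl, ?_⟩
  have hp0 : (p : PadicAlgCl p) ≠ 0 := Nat.cast_ne_zero.2 hpf.out.ne_zero
  have hp1 : ‖(p : PadicAlgCl p)‖ < 1 := by
    have h1 := PadicAlgCl.valuation_p p
    have h2 : ‖(p : PadicAlgCl p)‖ = ((1 / (p : NNReal) : NNReal) : ℝ) := by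
      rw [← h1]
      rfl
    rw [h2, one_div, NNReal.coe_inv, NNReal.coe_natCast]
    exact inv_lt_one_of_one_lt₀ (by exact_mod_cast hpf.out.one_lt)
  refine SSF.good_of_data (F := F) IQ.deg hin g6_pos (L₀ := PadicAlgCl p) (algebraMap (PadicAlgCl p) ℂ_[p]) (fun x => ?_) hp0 hp1 k G
    kval giso gk gfix X ζ hX.inj hX.zero (fun N a => ?_) (fun N a => (hX.down N a).symm) ζprim ζp (fun σ hσ N => ?_) _ (fun _ _ => rfl)
    (fun _ => rfl)
  · rw [← PadicComplex.coe_eq, PadicComplex.norm_extends]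
  · rw [hX.g N a]
    ring
  · obtain ⟨u, hu, hz, s, hD, hs, hsT⟩ := hgal σ hσ N
    refine ⟨u, hu, fun a => ?_, hz⟩
    have h1 : ∀ (Q : Polynomial F) (z : PadicAlgCl p), σ (Q.eval₂ (i₀.comp (algebraMap F Ω)) z) = Q.eval₂ (i₀.comp (algebraMap F Ω)) (σ z) := by
      intro Q z
      have h2 : (σ : PadicAlgCl p →+* PadicAlgCl p).comp (i₀.comp (algebraMap F Ω)) = i₀.comp (algebraMap F Ω) := by
        ext x
        exact gk σ hσ _ (hk x)
      have h3 := Polynomial.hom_eval₂ Q (i₀.comp (algebraMap F Ω)) (σ : PadicAlgCl p →+* PadicAlgCl p) z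
      rw [h2] at h3
      exact h3
    have h4 : σ (i₀ (tt (act a (T N)))) = i₀ (tt (act (u * a) (T N))) := by
      rw [← hs, ← g6_tt, hsT]
    by_contra hne
    have hpos : 0 < ‖σ (X N a) - X N (u * a)‖ := norm_pos_iff.2 (sub_ne_zero.2 hne)
    obtain ⟨Q, hQ⟩ := hX.app N (‖σ (X N a) - X N (u * a)‖ / 2) (half_pos hpos)
    have h5 : ‖σ (X N a) - Q.eval₂ (i₀.comp (algebraMap F Ω)) (i₀ (tt (act (u * a) (T N))))‖ ≤ ‖σ (X N a) - X N (u * a)‖ / 2 := by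
      rw [← h4, ← h1, ← map_sub, giso σ hσ]
      exact hQ a
    have h6 := hQ (u * a)
    have h7 : σ (X N a) - X N (u * a) = (σ (X N a) - Q.eval₂ (i₀.comp (algebraMap F Ω)) (i₀ (tt (act (u * a) (T N))))) -
        (X N (u * a) - Q.eval₂ (i₀.comp (algebraMap F Ω)) (i₀ (tt (act (u * a) (T N))))) := by ring
    have h8 : ‖σ (X N a) - X N (u * a)‖ ≤ ‖σ (X N a) - X N (u * a)‖ / 2 := by
      conv_lhs => rw [h7]
      rw [sub_eq_add_neg]
      refine (IsUltrametricDist.norm_add_le_max _ _).trans (max_le h5 ?_)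
      rw [norm_neg]
      exact h6
    linarith

end SSG
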